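import Pool.Agent.Lib.MP_8f66f0_al_ZT1.BSpec

/-! Project ZERO, part T1: the properties of `bx`. -/

set_option autoImplicit false

namespace Pool.Agent.ZT1

private theorem Bx_bounds {D : ℕ} {c : ℝ} {W : Set (Fin D → ℝ)} (hW : W ⊆ cube D c)
    (k : Fin D) : BddBelow ((fun x : Fin D → ℝ => x k) '' W) ∧
      BddAbove ((fun x : Fin D → ℝ => x k) '' W) := by
  constructor
  · refine ⟨-c, ?_⟩
    rintro _ ⟨x, hx, rfl⟩
    exact (abs_le.1 (hW hx k)).1
  · refine ⟨c, ?_⟩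
    rintro _ ⟨x, hx, rfl⟩
    exact (abs_le.1 (hW hx k)).2

private theorem Bx_cell_sub {D M : ℕ} (Γ : Gr D M) {e : ℝ} (he : 0 < e) (i : Γ.ι) :
    cell Γ e i ⊆ cube D (e * M) := by
  intro x hx k
  obtain ⟨h1, h2, h3, h4⟩ := Γ.bd i k
  obtain ⟨h5, h6⟩ := hx k
  have h7 : -((M : ℤ) : ℝ) ≤ (Γ.lo i k : ℝ) := by exact_mod_cast h1
  have h8 : (Γ.hi i k : ℝ) ≤ ((M : ℤ) : ℝ) := by exact_mod_cast h4
  rw [Int.cast_natCast] at h7 h8
  have h9 := mul_le_mul_of_nonneg_left h7 he.le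
  have h10 := mul_le_mul_of_nonneg_left h8 he.le
  rw [abs_le]
  constructor <;> nlinarith

private theorem Bx_lo_mem {D M : ℕ} (Γ : Gr D M) {e : ℝ} (he : 0 < e) (i : Γ.ι) :
    (fun k => e * (Γ.lo i k : ℝ)) ∈ cell Γ e i := by
  intro k
  refine ⟨le_rfl, ?_⟩
  have h1 : (Γ.lo i k : ℝ) ≤ Γ.hi i k := by exact_mod_cast (Γ.bd i k).2.1
  exact mul_le_mul_of_nonneg_left h1 he.le

private theorem Bx_hi_mem {D M : ℕ} (Γ : Gr D M) {e : ℝ} (he : 0 < e) (i : Γ.ι) :
    (fun k => e * (Γ.hi i k : ℝ)) ∈ cell Γ e i := by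
  intro k
  refine ⟨?_, le_rfl⟩
  have h1 : (Γ.lo i k : ℝ) ≤ Γ.hi i k := by exact_mod_cast (Γ.bd i k).2.1
  exact mul_le_mul_of_nonneg_left h1 he.le

/-- The properties of `bx`. -/
theorem bxT : S_bx := by
  intro D M Γ e he
  refine ⟨?_, ?_, ?_, ?_, fun i => Bx_lo_mem Γ he i, fun i => Bx_cell_sub Γ he i, ?_, ?_⟩
  · intro W hW hc
    refine Γ.ctr (fun k => ⌊sInf ((fun x : Fin D → ℝ => x k) '' W) / e⌋)
      (fun k => ⌊sSup ((fun x : Fin D → ℝ => x k) '' W) / e⌋) fun k => ?_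
    obtain ⟨hb, ha⟩ := Bx_bounds hc k
    have hn : ((fun x : Fin D → ℝ => x k) '' W).Nonempty := hW.image _
    refine ⟨?_, ?_, ?_⟩
    · rw [Int.le_floor, le_div_iff₀ he]
      refine le_csInf hn ?_
      rintro _ ⟨x, hx, rfl⟩
      have h1 := (abs_le.1 (hc hx k)).1
      push_cast
      linarith
    · exact Int.floor_le_floor (div_le_div_of_nonneg_right (csInf_le_csSup hn hb ha) he.le)
    · have h1 : sSup ((fun x : Fin D → ℝ => x k) '' W) / e ≤ (M : ℝ) := by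
        rw [div_le_iff₀ he]
        refine csSup_le hn ?_
        rintro _ ⟨x, hx, rfl⟩
        have h1 := (abs_le.1 (hc hx k)).2
        linarith
      have h2 : (⌊sSup ((fun x : Fin D → ℝ => x k) '' W) / e⌋ : ℝ) ≤ ((M : ℤ) : ℝ) := by
        rw [Int.cast_natCast]
        exact (Int.floor_le _).trans h1
      exact_mod_cast h2
  · intro W W' hW hWW hc j hj k
    obtain ⟨hb, ha⟩ := Bx_bounds hc k
    have hn : ((fun x : Fin D → ℝ => x k) '' W).Nonempty := hW.image _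
    have hs : (fun x : Fin D → ℝ => x k) '' W ⊆ (fun x : Fin D → ℝ => x k) '' W' :=
      Set.image_mono hWW
    obtain ⟨h1, h2⟩ := hj k
    refine ⟨le_trans ?_ h1, h2.trans ?_⟩
    · exact Int.floor_le_floor (div_le_div_of_nonneg_right (csInf_le_csInf hb hn hs) he.le)
    · exact Int.floor_le_floor (div_le_div_of_nonneg_right (csSup_le_csSup ha hn hs) he.le)
  · intro W hW hc r hr j hj z hz w hw k
    obtain ⟨hb, ha⟩ := Bx_bounds hc k
    have hn : ((fun x : Fin D → ℝ => x k) '' W).Nonempty := hW.image _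
    obtain ⟨h1, h2⟩ := hj k
    obtain ⟨h3, h4⟩ := hz k
    have k1 : w k - r ≤ sInf ((fun x : Fin D → ℝ => x k) '' W) := by
      refine le_csInf hn ?_
      rintro _ ⟨x, hx, rfl⟩
      have := hr w hw x hx k
      change w k - r ≤ x k
      linarith
    have k2 : sSup ((fun x : Fin D → ℝ => x k) '' W) ≤ w k + r := by
      refine csSup_le hn ?_
      rintro _ ⟨x, hx, rfl⟩
      have := hr x hx w hw k
      change x k ≤ w k + r
      linarith
    have k3 := Int.sub_one_lt_floor (sInf ((fun x : Fin D → ℝ => x k) '' W) / e)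
    have k4 := Int.floor_le (sSup ((fun x : Fin D → ℝ => x k) '' W) / e)
    have k5 : (⌊sInf ((fun x : Fin D → ℝ => x k) '' W) / e⌋ : ℝ) ≤ Γ.lo j k := by
      exact_mod_cast h1
    have k6 : (Γ.hi j k : ℝ) ≤ ⌊sSup ((fun x : Fin D → ℝ => x k) '' W) / e⌋ := by
      exact_mod_cast h2
    have k7 : sInf ((fun x : Fin D → ℝ => x k) '' W) - e ≤ e * (Γ.lo j k : ℝ) := by
      have h5 : sInf ((fun x : Fin D → ℝ => x k) '' W) / e - 1 ≤ Γ.lo j k := by linarith
      have h6 := mul_le_mul_of_nonneg_left h5 he.le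
      rw [mul_sub, mul_div_cancel₀ _ he.ne', mul_one] at h6
      exact h6
    have k8 : e * (Γ.hi j k : ℝ) ≤ sSup ((fun x : Fin D → ℝ => x k) '' W) := by
      have h5 : (Γ.hi j k : ℝ) ≤ sSup ((fun x : Fin D → ℝ => x k) '' W) / e := by linarith
      have h6 := mul_le_mul_of_nonneg_left h5 he.le
      rw [mul_div_cancel₀ _ he.ne'] at h6
      exact h6
    rw [abs_le]
    constructor <;> linarith
  · intro i k
    obtain ⟨hb, ha⟩ := Bx_bounds (Bx_cell_sub Γ he i) k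
    have h1 : sInf ((fun x : Fin D → ℝ => x k) '' cell Γ e i) ≤ e * (Γ.lo i k : ℝ) :=
      csInf_le hb ⟨_, Bx_lo_mem Γ he i, rfl⟩
    have h2 : e * (Γ.hi i k : ℝ) ≤ sSup ((fun x : Fin D → ℝ => x k) '' cell Γ e i) :=
      le_csSup ha ⟨_, Bx_hi_mem Γ he i, rfl⟩
    constructor
    · have h3 : sInf ((fun x : Fin D → ℝ => x k) '' cell Γ e i) / e ≤ (Γ.lo i k : ℝ) := by
        rw [div_le_iff₀ he]
        linarith
      have h4 := Int.floor_le_floor h3
      rwa [Int.floor_intCast] at h4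
    · rw [Int.le_floor, le_div_iff₀ he]
      linarith
  · intro i j hij x hx k
    obtain ⟨h1, h2⟩ := Γ.face i j hij k
    obtain ⟨h3, h4⟩ := hx k
    have h5 : (Γ.lo i k : ℝ) ≤ Γ.lo j k := by exact_mod_cast h1
    have h6 : (Γ.hi j k : ℝ) ≤ Γ.hi i k := by exact_mod_cast h2
    exact ⟨(mul_le_mul_of_nonneg_left h5 he.le).trans h3,
      h4.trans (mul_le_mul_of_nonneg_left h6 he.le)⟩
  · intro i x hx y hy k
    obtain ⟨h3, h4⟩ := hx k
    obtain ⟨h5, h6⟩ := hy k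
    have h7 : (Γ.hi i k : ℝ) ≤ Γ.lo i k + 1 := by exact_mod_cast (Γ.bd i k).2.2.1
    have h8 := mul_le_mul_of_nonneg_left h7 he.le
    rw [abs_le]
    constructor <;> linarith

end Pool.Agent.ZT1
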