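import Pool.Agent.Lib.MP_8f66f0_al_ZT1.BSpec

/-! Project ZERO, part T1: acyclic carriers. -/

set_option autoImplicit false

namespace Pool.Agent.ZT1

open Pool.Agent.Wald Pool.Agent.Ind Pool.Agent.WaldL Pool.Agent.FH Topology

private theorem Car_key {ι : Type} [Fintype ι] [DecidableEq ι] (d s : Matrix ι ι ℤ) (ε : ι → ℤ)
    (v : ι) (h : d * s + s * d = 1 - Matrix.vecMulVec ε (Pi.single v 1)) (z : ι → ℤ)
    (hz : Matrix.vecMul z d = 0) (hε : z ⬝ᵥ ε = 0) :
    Matrix.vecMul (Matrix.vecMul z s) d = z := by
  have h2 : Matrix.vecMul z (d * s + s * d)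
      = Matrix.vecMul z (1 - Matrix.vecMulVec ε (Pi.single v 1)) := by rw [h]
  rw [Matrix.vecMul_add, ← Matrix.vecMul_vecMul, ← Matrix.vecMul_vecMul, hz, Matrix.zero_vecMul,
    zero_add, Matrix.vecMul_sub, Matrix.vecMul_one] at h2
  have h3 : Matrix.vecMul z (Matrix.vecMulVec ε (Pi.single v 1)) = 0 := by
    funext j
    simp only [Matrix.vecMul, dotProduct, Matrix.vecMulVec_apply, Pi.zero_apply]
    have h4 : ∑ x, z x * (ε x * (Pi.single v 1 : ι → ℤ) j)
        = (z ⬝ᵥ ε) * (Pi.single v 1 : ι → ℤ) j := by
      rw [dotProduct, Finset.sum_mul]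
      exact Finset.sum_congr rfl fun x _ => by ring
    rw [h4, hε, zero_mul]
  rw [h3, sub_zero] at h2
  exact h2

private theorem Car_sup {ι : Type} [Fintype ι] (z : ι → ℤ) (s : Matrix ι ι ℤ) (k : ι)
    (h : Matrix.vecMul z s k ≠ 0) : ∃ j, z j ≠ 0 ∧ s j k ≠ 0 := by
  by_contra hc
  push Not at hc
  apply h
  simp only [Matrix.vecMul, dotProduct]
  refine Finset.sum_eq_zero fun j _ => ?_
  by_cases hj : z j = 0
  · rw [hj, zero_mul]
  · rw [hc j hj, mul_zero]

private theorem Car_sup2 {ι : Type} [Fintype ι] (A B : Matrix ι ι ℤ) (i k : ι)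
    (h : (A * B) i k ≠ 0) : ∃ j, A i j ≠ 0 ∧ B j k ≠ 0 := by
  by_contra hc
  push Not at hc
  apply h
  rw [Matrix.mul_apply]
  refine Finset.sum_eq_zero fun j _ => ?_
  by_cases hj : A i j = 0
  · rw [hj, zero_mul]
  · rw [hc j hj, mul_zero]

private theorem Car_row {ι : Type} [Fintype ι] (A B C : Matrix ι ι ℤ) (i : ι)
    (h : ∀ j, A i j ≠ 0 → ∀ k, B j k = C j k) (k : ι) : (A * B) i k = (A * C) i k := by
  rw [Matrix.mul_apply, Matrix.mul_apply]
  refine Finset.sum_congr rfl fun j _ => ?_
  by_cases hj : A i j = 0
  · rw [hj, zero_mul, zero_mul]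
  · rw [h j hj k]

theorem car : S_car := by
  intro D M Γ Q hC hQ
  choose s v hs hvQ hv0 hεv hh hsv hsQ using hC
  have hdim := Γ.hd
  constructor
  · -- chain maps
    have key : ∀ n : ℕ, ∃ G : Matrix Γ.ι Γ.ι ℤ, ∀ i, Γ.dim i < n →
        (∀ j, G i j ≠ 0 → Γ.dim j = Γ.dim i ∧ j ∈ Q i) ∧ (∀ j, (G * Γ.d) i j = (Γ.d * G) i j) ∧
          (G.mulVec Γ.ε) i = Γ.ε i := by
      intro n
      induction n with
      | zero => exact ⟨0, fun i hi => absurd hi (Nat.not_lt_zero _)⟩
      | succ n ih =>
        obtain ⟨G, hG⟩ := ih
        set W : Γ.ι → Γ.ι → ℤ := fun i => if Γ.dim i = 0 then Γ.ε i • (Pi.single (v i) 1 : Γ.ι → ℤ)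
          else Matrix.vecMul ((Γ.d * G) i) (s i) with hW
        refine ⟨Matrix.of fun i => if Γ.dim i < n then G i else W i, fun i hi => ?_⟩
        set G' : Matrix Γ.ι Γ.ι ℤ := Matrix.of fun i => if Γ.dim i < n then G i else W i with hG'
        have hrow : ∀ j, Γ.dim j < n → ∀ k, G' j k = G j k := by
          intro j hj k
          simp only [hG', Matrix.of_apply, if_pos hj]
        have hdrow : ∀ k, (Γ.d * G') i k = (Γ.d * G) i k := by
          intro k
          refine Car_row Γ.d G' G i (fun j hj k => hrow j ?_ k) k
          have := hdim i j hj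
          omega
        by_cases hin : Γ.dim i < n
        · obtain ⟨h1, h2, h3⟩ := hG i hin
          refine ⟨fun j hj => h1 j ?_, fun j => ?_, ?_⟩
          · rwa [hrow i hin j] at hj
          · rw [hdrow, ← h2 j, Matrix.mul_apply, Matrix.mul_apply]
            exact Finset.sum_congr rfl fun k _ => by rw [hrow i hin k]
          · rw [← h3]
            simp only [Matrix.mulVec, dotProduct]
            exact Finset.sum_congr rfl fun k _ => by rw [hrow i hin k]
        · have hin' : Γ.dim i = n := by omega
          have hrowi : ∀ k, G' i k = W i k := by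
            intro k
            simp only [hG', Matrix.of_apply, if_neg hin]
          by_cases h0 : Γ.dim i = 0
          · have hWi : ∀ k, W i k = Γ.ε i * (Pi.single (v i) 1 : Γ.ι → ℤ) k := by
              intro k
              simp only [hW, if_pos h0, Pi.smul_apply, smul_eq_mul]
            refine ⟨fun j hj => ?_, fun j => ?_, ?_⟩
            · rw [hrowi, hWi] at hj
              have hjv : j = v i := by
                by_contra hne
                rw [Pi.single_eq_of_ne hne, mul_zero] at hj
                exact hj rfl
              rw [hjv, hv0, h0]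
              exact ⟨rfl, hvQ i⟩
            · have e1 : (G' * Γ.d) i j = 0 := by
                by_contra hne
                obtain ⟨k, hk1, hk2⟩ := Car_sup2 _ _ _ _ hne
                rw [hrowi, hWi] at hk1
                have hkv : k = v i := by
                  by_contra hne2
                  rw [Pi.single_eq_of_ne hne2, mul_zero] at hk1
                  exact hk1 rfl
                have := hdim k j hk2
                rw [hkv, hv0] at this
                omega
              have e2 : (Γ.d * G') i j = 0 := by
                by_contra hne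
                obtain ⟨k, hk1, hk2⟩ := Car_sup2 _ _ _ _ hne
                have := hdim i k hk1
                omega
              rw [e1, e2]
            · simp only [Matrix.mulVec, dotProduct]
              rw [Finset.sum_eq_single (v i)]
              · rw [hrowi, hWi, Pi.single_eq_same, hεv]
                ring
              · intro k _ hk
                rw [hrowi, hWi, Pi.single_eq_of_ne hk]
                ring
              · intro h
                exact absurd (Finset.mem_univ _) h
          · have hWi : W i = Matrix.vecMul ((Γ.d * G) i) (s i) := by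
              simp only [hW, if_neg h0]
            have hlow : ∀ j, Γ.d i j ≠ 0 → Γ.dim j < n := by
              intro j hj
              have := hdim i j hj
              omega
            have hz1 : Matrix.vecMul ((Γ.d * G) i) Γ.d = 0 := by
              funext k
              have e1 : Matrix.vecMul ((Γ.d * G) i) Γ.d k = (Γ.d * G * Γ.d) i k := rfl
              have e2 : (Γ.d * (G * Γ.d)) i k = (Γ.d * (Γ.d * G)) i k :=
                Car_row _ _ _ i (fun j hj k => (hG j (hlow j hj)).2.1 k) k
              rw [e1, Matrix.mul_assoc, e2, ← Matrix.mul_assoc, Γ.dd, Matrix.zero_mul]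
              rfl
            have hz2 : (Γ.d * G) i ⬝ᵥ Γ.ε = 0 := by
              have e1 : (Γ.d * G) i ⬝ᵥ Γ.ε = (Γ.d * G).mulVec Γ.ε i := rfl
              have e2 : (Γ.d.mulVec (G.mulVec Γ.ε)) i = (Γ.d.mulVec Γ.ε) i := by
                simp only [Matrix.mulVec, dotProduct]
                refine Finset.sum_congr rfl fun j _ => ?_
                by_cases hj : Γ.d i j = 0
                · rw [hj, zero_mul, zero_mul]
                · have := (hG j (hlow j hj)).2.2
                  simp only [Matrix.mulVec, dotProduct] at this
                  rw [this]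
              rw [e1, ← Matrix.mulVec_mulVec, e2, Γ.dε]
              rfl
            have hkey := Car_key Γ.d (s i) Γ.ε (v i) (hh i) _ hz1 hz2
            have hsupp : ∀ k, G' i k ≠ 0 → Γ.dim k = Γ.dim i ∧ k ∈ Q i := by
              intro k hk
              rw [hrowi, hWi] at hk
              obtain ⟨j, hj1, hj2⟩ := Car_sup _ _ _ hk
              obtain ⟨l, hl1, hl2⟩ := Car_sup2 _ _ _ _ hj1
              have a1 := hdim i l hl1
              have a2 := (hG l (hlow l hl1)).1 j hl2
              have a3 := hs i j k hj2
              refine ⟨by omega, hsQ i j (hQ i l hl1 a2.2) k hj2⟩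
            refine ⟨hsupp, fun j => ?_, ?_⟩
            · rw [hdrow]
              have e1 : (G' * Γ.d) i j = Matrix.vecMul (W i) Γ.d j := by
                rw [Matrix.mul_apply]
                simp only [Matrix.vecMul, dotProduct]
                exact Finset.sum_congr rfl fun k _ => by rw [hrowi]
              rw [e1, hWi, hkey]
            · have e1 : Γ.ε i = 0 := by
                by_contra hne
                exact h0 (Γ.hε i hne)
              rw [e1]
              simp only [Matrix.mulVec, dotProduct]
              refine Finset.sum_eq_zero fun k _ => ?_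
              by_cases hk : G' i k = 0
              · rw [hk, zero_mul]
              · have e2 : Γ.ε k = 0 := by
                  by_contra hne
                  have := (hsupp k hk).1
                  have := Γ.hε k hne
                  omega
                rw [e2, mul_zero]
    obtain ⟨G, hG⟩ := key (D + 1)
    have hlt : ∀ i, Γ.dim i < D + 1 := fun i => Nat.lt_succ_of_le (Γ.dim_le i)
    refine ⟨G, fun i j h => ((hG i (hlt i)).1 j h).1, ?_, ?_, fun i j h => ((hG i (hlt i)).1 j h).2⟩
    · ext i j
      exact (hG i (hlt i)).2.1 j
    · funext i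
      exact (hG i (hlt i)).2.2
  · -- homotopies
    intro F F' hF hF'
    obtain ⟨hF1, hF2, hF3, hF4⟩ := hF
    obtain ⟨hG1, hG2, hG3, hG4⟩ := hF'
    have key : ∀ n : ℕ, ∃ G : Matrix Γ.ι Γ.ι ℤ, ∀ i, Γ.dim i < n →
        (∀ j, G i j ≠ 0 → Γ.dim j = Γ.dim i + 1 ∧ j ∈ Q i) ∧
          (∀ j, (F - F') i j = (Γ.d * G) i j + (G * Γ.d) i j) := by
      intro n
      induction n with
      | zero => exact ⟨0, fun i hi => absurd hi (Nat.not_lt_zero _)⟩
      | succ n ih =>
        obtain ⟨G, hG⟩ := ih
        set W : Γ.ι → Γ.ι → ℤ := fun i => Matrix.vecMul ((F - F' - Γ.d * G) i) (s i) with hW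
        refine ⟨Matrix.of fun i => if Γ.dim i < n then G i else W i, fun i hi => ?_⟩
        set G' : Matrix Γ.ι Γ.ι ℤ := Matrix.of fun i => if Γ.dim i < n then G i else W i with hG'
        have hrow : ∀ j, Γ.dim j < n → ∀ k, G' j k = G j k := by
          intro j hj k
          simp only [hG', Matrix.of_apply, if_pos hj]
        have hdrow : ∀ k, (Γ.d * G') i k = (Γ.d * G) i k := by
          intro k
          refine Car_row Γ.d G' G i (fun j hj k => hrow j ?_ k) k
          have := hdim i j hj
          omega
        by_cases hin : Γ.dim i < n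
        · obtain ⟨h1, h2⟩ := hG i hin
          refine ⟨fun j hj => h1 j ?_, fun j => ?_⟩
          · rwa [hrow i hin j] at hj
          · rw [hdrow, h2 j, Matrix.mul_apply (M := G), Matrix.mul_apply (M := G')]
            congr 1
            exact Finset.sum_congr rfl fun k _ => by rw [hrow i hin k]
        · have hin' : Γ.dim i = n := by omega
          have hrowi : ∀ k, G' i k = W i k := by
            intro k
            simp only [hG', Matrix.of_apply, if_neg hin]
          have hWi : W i = Matrix.vecMul ((F - F' - Γ.d * G) i) (s i) := rfl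
          have hlow : ∀ j, Γ.d i j ≠ 0 → Γ.dim j < n := by
            intro j hj
            have := hdim i j hj
            omega
          have hz1 : Matrix.vecMul ((F - F' - Γ.d * G) i) Γ.d = 0 := by
            funext k
            have e1 : Matrix.vecMul ((F - F' - Γ.d * G) i) Γ.d k
                = ((F - F' - Γ.d * G) * Γ.d) i k := rfl
            have e2 : (Γ.d * (G * Γ.d)) i k = (Γ.d * (F - F' - Γ.d * G)) i k := by
              refine Car_row _ _ _ i (fun j hj k => ?_) k
              have := (hG j (hlow j hj)).2 k
              rw [Matrix.sub_apply, this]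
              ring
            have e3 : (F - F' - Γ.d * G) * Γ.d = Γ.d * (F - F') - Γ.d * (G * Γ.d) := by
              rw [Matrix.sub_mul, Matrix.sub_mul, hF2, hG2, Matrix.mul_sub, Matrix.mul_assoc]
            have e4 : Γ.d * (F - F' - Γ.d * G) = Γ.d * (F - F') := by
              rw [Matrix.mul_sub, ← Matrix.mul_assoc, Γ.dd, Matrix.zero_mul, sub_zero]
            rw [e1, e3, Matrix.sub_apply, e2, e4, sub_self]
            rfl
          have hsz : ∀ k, (F - F' - Γ.d * G) i k ≠ 0 → Γ.dim k = Γ.dim i ∧ k ∈ Q i := by
            intro k hk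
            by_cases c1 : F i k = 0
            · by_cases c2 : F' i k = 0
              · have c3 : (Γ.d * G) i k ≠ 0 := by
                  intro c3
                  apply hk
                  rw [Matrix.sub_apply, Matrix.sub_apply, c1, c2, c3]
                  ring
                obtain ⟨l, hl1, hl2⟩ := Car_sup2 _ _ _ _ c3
                have a1 := hdim i l hl1
                have a2 := (hG l (hlow l hl1)).1 k hl2
                exact ⟨by omega, hQ i l hl1 a2.2⟩
              · exact ⟨hG1 i k c2, hG4 i k c2⟩
            · exact ⟨hF1 i k c1, hF4 i k c1⟩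
          have hz2 : (F - F' - Γ.d * G) i ⬝ᵥ Γ.ε = 0 := by
            by_cases h0 : Γ.dim i = 0
            · have e1 : (F - F' - Γ.d * G) i ⬝ᵥ Γ.ε = ((F - F' - Γ.d * G).mulVec Γ.ε) i := rfl
              have e2 : ((Γ.d * G).mulVec Γ.ε) i = 0 := by
                simp only [Matrix.mulVec, dotProduct]
                refine Finset.sum_eq_zero fun k _ => ?_
                by_cases hk : (Γ.d * G) i k = 0
                · rw [hk, zero_mul]
                · obtain ⟨l, hl1, hl2⟩ := Car_sup2 _ _ _ _ hk
                  have := hdim i l hl1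
                  omega
              rw [e1, Matrix.sub_mulVec, Matrix.sub_mulVec, hF3, hG3, Pi.sub_apply, Pi.sub_apply,
                e2]
              ring
            · rw [dotProduct]
              refine Finset.sum_eq_zero fun k _ => ?_
              by_cases hk : (F - F' - Γ.d * G) i k = 0
              · rw [hk, zero_mul]
              · have e2 : Γ.ε k = 0 := by
                  by_contra hne
                  have := (hsz k hk).1
                  have := Γ.hε k hne
                  omega
                rw [e2, mul_zero]
          have hkey := Car_key Γ.d (s i) Γ.ε (v i) (hh i) _ hz1 hz2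
          refine ⟨fun k hk => ?_, fun j => ?_⟩
          · rw [hrowi, hWi] at hk
            obtain ⟨j, hj1, hj2⟩ := Car_sup _ _ _ hk
            have a2 := hsz j hj1
            have a3 := hs i j k hj2
            refine ⟨by omega, hsQ i j a2.2 k hj2⟩
          · have e1 : (G' * Γ.d) i j = Matrix.vecMul (W i) Γ.d j := by
              rw [Matrix.mul_apply]
              simp only [Matrix.vecMul, dotProduct]
              exact Finset.sum_congr rfl fun k _ => by rw [hrowi]
            rw [hdrow, e1, hWi, hkey, Matrix.sub_apply (B := Γ.d * G)]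
            ring
    obtain ⟨G, hG⟩ := key (D + 1)
    have hlt : ∀ i, Γ.dim i < D + 1 := fun i => Nat.lt_succ_of_le (Γ.dim_le i)
    refine ⟨G, fun i j h => ((hG i (hlt i)).1 j h).1, ?_, fun i j h => ((hG i (hlt i)).1 j h).2⟩
    ext i j
    exact (hG i (hlt i)).2 j

end Pool.Agent.ZT1
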