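import Pool.Agent.Lib.MP_8f66f0_al_ZT1.BSpec

/-! Project ZERO, part T1 (B): composition of chain maps on a fine grid. -/

set_option autoImplicit false

namespace Pool.Agent.ZT1

open Pool.Agent.Wald Pool.Agent.Ind Pool.Agent.WaldL Pool.Agent.FH Topology

private theorem Comp_compact (D : ℕ) (c : ℝ) : IsCompact (cube D c) := by
  have h : cube D c = Set.Icc (fun _ => -c) (fun _ => c) := by
    ext x
    change (∀ k, |x k| ≤ c) ↔ (∀ k, -c ≤ x k) ∧ ∀ k, x k ≤ c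
    simp only [abs_le, forall_and]
  rw [h]
  exact isCompact_Icc

/-- Uniform continuity on the cube. -/
private theorem Comp_uc (D : ℕ) (c δ : ℝ) (hδ : 0 < δ) (φ : (Fin D → ℝ) → (Fin D → ℝ))
    (hφ : Continuous φ) : ∃ η : ℝ, 0 < η ∧ ∀ x ∈ cube D c, ∀ y ∈ cube D c,
      (∀ k, |x k - y k| ≤ η) → ∀ k, |φ x k - φ y k| ≤ δ := by
  have h := (Comp_compact D c).uniformContinuousOn_of_continuous hφ.continuousOn
  rw [Metric.uniformContinuousOn_iff] at h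
  obtain ⟨η, hη, h⟩ := h δ hδ
  refine ⟨η / 2, by linarith, fun x hx y hy hxy k => ?_⟩
  have h1 : dist x y < η := lt_of_le_of_lt
    ((dist_pi_le_iff (by linarith : (0 : ℝ) ≤ η / 2)).2 fun k => by
      rw [Real.dist_eq]; exact hxy k) (by linarith)
  have h2 := (dist_le_pi_dist (φ x) (φ y) k).trans (h x hx y hy h1).le
  rwa [Real.dist_eq] at h2

theorem comp (hcar : S_car) (hbx : S_bx) : S_comp := by
  intro D c δ φ ψ hc hδ hφ hψ hφm hψm
  obtain ⟨η₂, hη₂, h2⟩ := Comp_uc D c (δ / 2) (by linarith) ψ hψ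
  obtain ⟨η₁, hη₁, h1⟩ := Comp_uc D c (η₂ / 4) (by linarith) φ hφ
  obtain ⟨η, hη⟩ : ∃ η, η = min η₁ (min (η₂ / 8) (δ / 2)) := ⟨_, rfl⟩
  have hη0 : 0 < η := by
    rw [hη]
    exact lt_min hη₁ (lt_min (by linarith) (by linarith))
  obtain ⟨M₀, hM₀⟩ := exists_nat_gt (c / η)
  refine ⟨M₀, fun M hM Γ e he F F' F'' hF hF' hF'' => ?_⟩
  have hMr : (M₀ : ℝ) ≤ M := Nat.cast_le.2 hM
  have hM0 : (0 : ℝ) < M := lt_of_lt_of_le (lt_trans (by positivity) hM₀) hMr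
  have he0 : 0 < e := by
    by_contra h
    have h3 : e * M ≤ 0 := mul_nonpos_of_nonpos_of_nonneg (not_lt.1 h) hM0.le
    linarith
  have heη : e ≤ η := by
    have h3 : c / η < M := lt_of_lt_of_le hM₀ hMr
    rw [div_lt_iff₀ hη0] at h3
    have h4 : e * M < η * M := by linarith
    exact (lt_of_mul_lt_mul_right h4 hM0.le).le
  have he1 : e ≤ η₁ := heη.trans (by rw [hη]; exact min_le_left _ _)
  have he2 : e ≤ η₂ / 8 := heη.trans (by
    rw [hη]; exact (min_le_right _ _).trans (min_le_left _ _))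
  have he3 : e ≤ δ / 2 := heη.trans (by
    rw [hη]; exact (min_le_right _ _).trans (min_le_right _ _))
  obtain ⟨b1, b2, b3, b4, b5, b6, b7, b8⟩ := hbx D M Γ e he0
  rw [he] at b1 b2 b3 b6
  obtain ⟨A, hA⟩ : ∃ A : Γ.ι → Set (Fin D → ℝ), A = fun i => φ '' cell Γ e i ∪
    ⋃ j ∈ bx Γ e (φ '' cell Γ e i), cell Γ e j := ⟨_, rfl⟩
  have hne : ∀ i, (φ '' cell Γ e i).Nonempty := fun i => Set.Nonempty.image _ ⟨_, b5 i⟩
  have hφc : ∀ i, φ '' cell Γ e i ⊆ cube D c := by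
    rintro i _ ⟨y, hy, rfl⟩
    exact hφm y (b6 i hy)
  have hA1 : ∀ i, φ '' cell Γ e i ⊆ A i := fun i => by
    rw [hA]
    exact Set.subset_union_left
  have hA2 : ∀ i, ∀ j ∈ bx Γ e (φ '' cell Γ e i), cell Γ e j ⊆ A i := fun i j hj => by
    rw [hA]
    exact Set.subset_union_of_subset_right (Set.subset_biUnion_of_mem (u := fun j => cell Γ e j) hj)
      _
  have hA0 : ∀ i, (A i).Nonempty := fun i => (hne i).mono (hA1 i)
  have hAc : ∀ i, A i ⊆ cube D c := fun i => by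
    rw [hA]
    exact Set.union_subset (hφc i) (Set.iUnion₂_subset fun j _ => b6 j)
  have hAm : ∀ i j, Γ.d i j ≠ 0 → A j ⊆ A i := fun i j hij => by
    have h3 : φ '' cell Γ e j ⊆ φ '' cell Γ e i := Set.image_mono (b7 i j hij)
    have h4 := b2 _ _ (hne j) h3 (hφc i)
    intro x hx
    rw [hA] at hx
    rcases hx with hx | hx
    · exact hA1 i (h3 hx)
    · obtain ⟨l, hl, hx⟩ := Set.mem_iUnion₂.1 hx
      exact hA2 i l (h4 hl) hx
  have hAd : ∀ i, ∀ x ∈ cell Γ e i, ∀ a ∈ A i, ∀ k, |a k - φ x k| ≤ 3 * η₂ / 8 := by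
    intro i x hx a ha k
    have h5 : ∀ y ∈ cell Γ e i, ∀ z ∈ cell Γ e i, ∀ k, |φ y k - φ z k| ≤ η₂ / 4 :=
      fun y hy z hz => h1 y (b6 i hy) z (b6 i hz) fun k => (b8 i y hy z hz k).trans he1
    rw [hA] at ha
    rcases ha with ⟨y, hy, rfl⟩ | ha
    · exact (h5 y hy x hx k).trans (by linarith)
    · obtain ⟨l, hl, ha⟩ := Set.mem_iUnion₂.1 ha
      have h6 := b3 _ (hne i) (hφc i) (η₂ / 4) (by
        rintro _ ⟨y, hy, rfl⟩ _ ⟨z, hz, rfl⟩ k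
        exact (le_abs_self _).trans (h5 y hy z hz k)) l hl a ha (φ x) ⟨x, hx, rfl⟩ k
      linarith
  have hAa : ∀ i, ∀ a ∈ A i, ∀ b ∈ A i, ∀ k, |ψ a k - ψ b k| ≤ δ / 2 := by
    intro i a ha b hb
    refine h2 a (hAc i ha) b (hAc i hb) fun k => ?_
    have h3 := abs_le.1 (hAd i _ (b5 i) a ha k)
    have h4 := abs_le.1 (hAd i _ (b5 i) b hb k)
    rw [abs_le]
    constructor <;> linarith
  obtain ⟨W, hW⟩ : ∃ W : Γ.ι → Set (Fin D → ℝ), W = fun i => ψ '' A i := ⟨_, rfl⟩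
  have hW0 : ∀ i, (W i).Nonempty := fun i => by
    rw [hW]
    exact (hA0 i).image _
  have hWc : ∀ i, W i ⊆ cube D c := fun i => by
    rw [hW]
    rintro _ ⟨a, ha, rfl⟩
    exact hψm a (hAc i ha)
  have hWm : ∀ i j, Γ.d i j ≠ 0 → bx Γ e (W j) ⊆ bx Γ e (W i) := fun i j hij =>
    b2 _ _ (hW0 j) (by rw [hW]; exact Set.image_mono (hAm i j hij)) (hWc i)
  have hFF : CMap Γ (fun i => bx Γ e (W i)) (F * F') := by
    obtain ⟨f1, f2, f3, f4⟩ := hF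
    obtain ⟨g1, g2, g3, g4⟩ := hF'
    refine ⟨?_, ?_, ?_, ?_⟩
    · intro i l hil
      rw [Matrix.mul_apply] at hil
      obtain ⟨j, -, hj⟩ := Finset.exists_ne_zero_of_sum_ne_zero hil
      rw [g1 j l (right_ne_zero_of_mul hj), f1 i j (left_ne_zero_of_mul hj)]
    · rw [Matrix.mul_assoc, g2, ← Matrix.mul_assoc, f2, Matrix.mul_assoc]
    · rw [← Matrix.mulVec_mulVec, g3, f3]
    · intro i l hil
      rw [Matrix.mul_apply] at hil
      obtain ⟨j, -, hj⟩ := Finset.exists_ne_zero_of_sum_ne_zero hil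
      refine b2 _ _ (Set.Nonempty.image _ ⟨_, b5 j⟩) ?_ (hWc i)
        (g4 j l (right_ne_zero_of_mul hj))
      rw [hW]
      exact Set.image_mono (hA2 i j (f4 i j (left_ne_zero_of_mul hj)))
  have hF2 : CMap Γ (fun i => bx Γ e (W i)) F'' := by
    obtain ⟨f1, f2, f3, f4⟩ := hF''
    refine ⟨f1, f2, f3, fun i j hij => ?_⟩
    refine b2 _ _ (Set.Nonempty.image _ ⟨_, b5 i⟩) ?_ (hWc i) (f4 i j hij)
    rw [hW]
    rintro _ ⟨x, hx, rfl⟩
    exact ⟨φ x, hA1 i ⟨x, hx, rfl⟩, rfl⟩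
  obtain ⟨H, hH1, hH2, hH3⟩ := (hcar D M Γ (fun i => bx Γ e (W i))
    (fun i => b1 _ (hW0 i) (hWc i)) hWm).2 (F * F') F'' hFF hF2
  refine ⟨H, hH1, hH2, fun i j hij x hx z hz k => ?_⟩
  have h3 := b3 (W i) (hW0 i) (hWc i) (δ / 2) (by
    rw [hW]
    rintro _ ⟨a, ha, rfl⟩ _ ⟨b, hb, rfl⟩ k
    exact (le_abs_self _).trans (hAa i a ha b hb k)) j (hH3 i j hij) z hz (ψ (φ x)) (by
    rw [hW]
    exact ⟨φ x, hA1 i ⟨x, hx, rfl⟩, rfl⟩) k
  linarith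

end Pool.Agent.ZT1
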