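import Pool.Agent.Lib.MP_8f66f0_al_ZT1.BSpec

/-! Project ZERO, part T1: transfer data from a homotopy action. -/

set_option autoImplicit false

namespace Pool.Agent.ZT1

open Pool.Agent.Wald Pool.Agent.Ind Pool.Agent.WaldL Pool.Agent.FH Topology

private theorem Geo_compact (D : ℕ) (c : ℝ) : IsCompact (cube D c) := by
  have h : cube D c = Set.Icc (fun _ => -c) (fun _ => c) := by
    ext x
    change (∀ k, |x k| ≤ c) ↔ (∀ k, -c ≤ x k) ∧ ∀ k, x k ≤ c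
    simp only [abs_le, forall_and]
  rw [h]
  exact isCompact_Icc

/-- Uniform control on the cube. -/
private theorem Geo_delta {G X : Type} [Group G] [MulAction G X] (N : Met G X) (t : ℕ) (D : ℕ)
    (c : ℝ) (f : (Fin D → ℝ) → X) (hf : ∀ x, ∀ᶠ y in 𝓝 x, N.near t (f x) (f y)) :
    ∃ δ : ℝ, 0 < δ ∧ ∀ x ∈ cube D c, ∀ y, (∀ k, |x k - y k| ≤ δ) → N.near (2 * t) (f x) (f y) := by
  obtain ⟨δ, hδ, h⟩ := lebesgue_number_lemma_of_metric (s := cube D c)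
    (c := fun x : Fin D → ℝ => interior {y | N.near t (f x) (f y)}) (Geo_compact D c)
    (fun x => isOpen_interior) (fun x _ => Set.mem_iUnion.2 ⟨x, mem_interior_iff_mem_nhds.2 (hf x)⟩)
  refine ⟨δ / 2, by linarith, fun x hx y hy => ?_⟩
  obtain ⟨x₀, hx₀⟩ := h x hx
  have h1 : x ∈ {y | N.near t (f x₀) (f y)} := interior_subset (hx₀ (Metric.mem_ball_self hδ))
  have h2 : y ∈ {y | N.near t (f x₀) (f y)} := by
    refine interior_subset (hx₀ ?_)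
    rw [Metric.mem_ball]
    refine lt_of_le_of_lt ((dist_pi_le_iff (by linarith : (0 : ℝ) ≤ δ / 2)).2 fun k => ?_)
      (by linarith : δ / 2 < δ)
    rw [Real.dist_eq, abs_sub_comm]
    exact hy k
  rw [two_mul]
  exact N.trans (N.symm h1) h2

/-- Uniform continuity on the cube. -/
private theorem Geo_uc (D : ℕ) (c δ : ℝ) (hδ : 0 < δ) (φ : (Fin D → ℝ) → (Fin D → ℝ))
    (hφ : Continuous φ) : ∃ η : ℝ, 0 < η ∧ ∀ x ∈ cube D c, ∀ y ∈ cube D c,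
      (∀ k, |x k - y k| ≤ η) → ∀ k, |φ x k - φ y k| ≤ δ := by
  have h := (Geo_compact D c).uniformContinuousOn_of_continuous hφ.continuousOn
  rw [Metric.uniformContinuousOn_iff] at h
  obtain ⟨η, hη, h⟩ := h δ hδ
  refine ⟨η / 2, by linarith, fun x hx y hy hxy k => ?_⟩
  have h1 : dist x y < η := lt_of_le_of_lt
    ((dist_pi_le_iff (by linarith : (0 : ℝ) ≤ η / 2)).2 fun k => by
      rw [Real.dist_eq]; exact hxy k) (by linarith)
  have h2 := (dist_le_pi_dist (φ x) (φ y) k).trans (h x hx y hy h1).le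
  rwa [Real.dist_eq] at h2

/-- The mesh is small for large `M`. -/
private theorem Geo_mesh (c η : ℝ) (hη : 0 < η) : ∃ M₀ : ℕ, ∀ M : ℕ, M₀ ≤ M → ∀ e : ℝ,
    e * M = c → 0 < c → 0 < e ∧ e ≤ η := by
  obtain ⟨M₀, hM₀⟩ := exists_nat_gt (c / η)
  refine ⟨M₀ + 1, fun M hM e he hc => ?_⟩
  have hM' : (M₀ : ℝ) < M := by
    have : M₀ < M := hM
    exact_mod_cast this
  have hM0 : (0 : ℝ) < M := lt_of_le_of_lt (Nat.cast_nonneg _) hM'
  have he0 : 0 < e := by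
    by_contra h
    have := mul_nonpos_of_nonpos_of_nonneg (not_lt.1 h) hM0.le
    linarith
  refine ⟨he0, ?_⟩
  by_contra h
  have h1 : η < e := not_le.1 h
  have h2 : c / η < M := hM₀.trans hM'
  rw [div_lt_iff₀ hη] at h2
  nlinarith

/-- Fine grids for a map. -/
private theorem Geo_fine (hbx : S_bx) (D : ℕ) (c δ : ℝ) (hc : 0 < c) (hδ : 0 < δ)
    (φ : (Fin D → ℝ) → (Fin D → ℝ)) (hφ : Continuous φ)
    (hm : ∀ x ∈ cube D c, φ x ∈ cube D c) :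
    ∃ M₀ : ℕ, ∀ M : ℕ, M₀ ≤ M → ∀ (Γ : Gr D M) (e : ℝ), e * M = c → ∀ i j,
      j ∈ bx Γ e (φ '' cell Γ e i) → ∀ x ∈ cell Γ e i, ∀ z ∈ cell Γ e j, ∀ k,
        |z k - φ x k| ≤ δ := by
  obtain ⟨η, hη, h1⟩ := Geo_uc D c (δ / 2) (by linarith) φ hφ
  obtain ⟨M₀, hM₀⟩ := Geo_mesh c (min η (δ / 2)) (lt_min hη (by linarith))
  refine ⟨M₀, fun M hM Γ e he i j hj x hx z hz k => ?_⟩
  obtain ⟨he0, he1⟩ := hM₀ M hM e he hc
  obtain ⟨b1, b2, b3, b4, b5, b6, b7, b8⟩ := hbx D M Γ e he0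
  rw [he] at b1 b2 b3 b6
  have hsub : φ '' cell Γ e i ⊆ cube D c := by
    rintro _ ⟨y, hy, rfl⟩
    exact hm y (b6 i hy)
  have h3 := b3 (φ '' cell Γ e i) ⟨_, ⟨_, b5 i, rfl⟩⟩ hsub (δ / 2) (by
    rintro _ ⟨y, hy, rfl⟩ _ ⟨y', hy', rfl⟩ k
    exact (le_abs_self _).trans (h1 y (b6 i hy) y' (b6 i hy')
      (fun k => (b8 i y hy y' hy' k).trans (he1.trans (min_le_left _ _))) k)) j hj z hz
    (φ x) ⟨x, hx, rfl⟩ k
  have h4 : e ≤ δ / 2 := he1.trans (min_le_right _ _)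
  linarith

/-- Chain maps exist. -/
private theorem Geo_cmap (hcar : S_car) (hbx : S_bx) {D M : ℕ} (Γ : Gr D M) (e c : ℝ) (he0 : 0 < e)
    (he : e * M = c) (φ : (Fin D → ℝ) → (Fin D → ℝ)) (hm : ∀ x ∈ cube D c, φ x ∈ cube D c) :
    ∃ F, CMap Γ (fun i => bx Γ e (φ '' cell Γ e i)) F := by
  obtain ⟨b1, b2, b3, b4, b5, b6, b7, b8⟩ := hbx D M Γ e he0
  rw [he] at b1 b2 b3 b6
  have hsub : ∀ i, φ '' cell Γ e i ⊆ cube D c := by
    rintro i _ ⟨y, hy, rfl⟩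
    exact hm y (b6 i hy)
  have hne : ∀ i, (φ '' cell Γ e i).Nonempty := fun i => Set.Nonempty.image _ ⟨_, b5 i⟩
  exact (hcar D M Γ (fun i => bx Γ e (φ '' cell Γ e i)) (fun i => b1 _ (hne i) (hsub i))
    (fun i j hij => b2 _ _ (hne j) (Set.image_mono (b7 i j hij)) (hsub i))).1

private theorem Geo_gr (hpath : S_path) (hprod : S_prod) (D M : ℕ) : Nonempty (Gr D M) := by
  induction D with
  | zero => exact (hpath M).1
  | succ D ih =>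
    obtain ⟨Γ⟩ := ih
    obtain ⟨Γ₁⟩ := (hpath M).2
    exact hprod D M Γ₁ Γ

/-- A bound for a finite set of pairs. -/
private theorem Geo_sup {α : Type} {S : Set α} (hS : S.Finite) (P : α → ℕ → Prop)
    (h : ∀ a ∈ S, ∃ M₀, ∀ M, M₀ ≤ M → P a M) : ∃ M₀, ∀ M, M₀ ≤ M → ∀ a ∈ S, P a M := by
  classical
  choose! f hf using h
  refine ⟨hS.toFinset.sup f, fun M hM a ha => hf a ha M (le_trans ?_ hM)⟩
  exact Finset.le_sup (f := f) (hS.mem_toFinset.2 ha)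

theorem geo : S_geo := by
  intro hpath hprod hcar hbx hcomp hhtp D
  refine ⟨3, ?_⟩
  intro G X _ _ N t Φ S p hS h1S hinv hp
  obtain ⟨hp1, hp2, hp3⟩ := hp
  obtain ⟨c₀, hc₀⟩ := Φ.bdd
  obtain ⟨c, hc⟩ : ∃ c : ℝ, c = max c₀ 1 := ⟨_, rfl⟩
  have hc0 : 0 < c := by rw [hc]; exact lt_of_lt_of_le one_pos (le_max_right _ _)
  have hρ : ∀ x, Φ.ρ x ∈ cube D c := fun x k => (hc₀ x k).trans (by rw [hc]; exact le_max_left _ _)
  have hφ : ∀ g x, Φ.φ g x ∈ cube D c := fun g x => by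
    rw [← Φ.ρφ g x]
    exact hρ _
  have hH : ∀ g h s x, Φ.H g h s x ∈ cube D c := fun g h s x => by
    rw [← Φ.ρH g h s x]
    exact hρ _
  -- the homotopy from the identity to the retraction
  obtain ⟨J, hJ⟩ : ∃ J : ℝ → (Fin D → ℝ) → (Fin D → ℝ), J = fun s x => (1 - s) • x + s • Φ.ρ x :=
    ⟨_, rfl⟩
  have hJc : Continuous fun q : ℝ × (Fin D → ℝ) => J q.1 q.2 := by
    rw [hJ]
    have := Φ.contρ
    fun_prop
  have hJm : ∀ s, 0 ≤ s → s ≤ 1 → ∀ x ∈ cube D c, J s x ∈ cube D c := by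
    intro s h0 h1 x hx k
    rw [hJ]
    have h3 := abs_le.1 (hx k)
    have h4 := abs_le.1 (hρ x k)
    simp only [Pi.add_apply, Pi.smul_apply, smul_eq_mul]
    rw [abs_le]
    constructor
    · nlinarith
    · nlinarith
  obtain ⟨δ, hδ, hδ'⟩ := Geo_delta N t D c (fun x => p (Φ.ρ x)) hp1
  -- the mesh
  have hpair : (S ×ˢ S).Finite := hS.prod hS
  obtain ⟨M₁, hM₁⟩ := Geo_sup hpair _ (fun (q : G × G) _ =>
    hcomp D c δ (Φ.φ q.1⁻¹) (Φ.φ q.2⁻¹) hc0 hδ (Φ.contφ _) (Φ.contφ _) (fun x _ => hφ _ x)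
      (fun x _ => hφ _ x))
  obtain ⟨M₂, hM₂⟩ := Geo_sup hpair _ (fun (q : G × G) _ =>
    hhtp D c δ (Φ.H q.2⁻¹ q.1⁻¹) hc0 hδ (Φ.contH _ _) (fun s _ _ x _ => hH _ _ s x))
  obtain ⟨M₃, hM₃⟩ := hhtp D c δ J hc0 hδ hJc hJm
  obtain ⟨M₄, hM₄⟩ := Geo_sup hS _ (fun (g : G) _ =>
    Geo_fine hbx D c δ hc0 hδ (Φ.φ g⁻¹) (Φ.contφ _) (fun x _ => hφ _ x))
  obtain ⟨M₅, hM₅⟩ := Geo_mesh c δ hδ
  obtain ⟨M, hM⟩ : ∃ M : ℕ, M = M₁ + M₂ + M₃ + M₄ + M₅ + 1 := ⟨_, rfl⟩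
  obtain ⟨Γ⟩ := Geo_gr hpath hprod D M
  obtain ⟨e, he⟩ : ∃ e : ℝ, e * M = c := ⟨c / M, div_mul_cancel₀ _ (by
    have : M ≠ 0 := by omega
    exact_mod_cast this)⟩
  obtain ⟨he0, he1⟩ := hM₅ M (by omega) e he hc0
  have hM₁' := fun g hg h hh => hM₁ M (by omega) (g, h) ⟨hg, hh⟩ Γ e he
  have hM₂' := fun g hg h hh => hM₂ M (by omega) (g, h) ⟨hg, hh⟩ Γ e he
  have hM₃' := hM₃ M (by omega) Γ e he
  have hM₄' := fun g hg => hM₄ M (by omega) g hg Γ e he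
  obtain ⟨b1, b2, b3, b4, b5, b6, b7, b8⟩ := hbx D M Γ e he0
  rw [he] at b1 b2 b3 b6
  choose F hF using fun g : G => Geo_cmap hcar hbx Γ e c he0 he (Φ.φ g⁻¹) fun x _ => hφ _ x
  -- the homotopies
  have hHex : ∀ g h : G, ∃ H : Matrix Γ.ι Γ.ι ℤ, (∀ i j, H i j ≠ 0 → Γ.dim j = Γ.dim i + 1) ∧
      (g ∈ S → h ∈ S → F g * F h - F (g * h) = Γ.d * H + H * Γ.d ∧
        ∀ i j, H i j ≠ 0 → ∃ s : ℝ, 0 ≤ s ∧ s ≤ 1 ∧ ∀ x ∈ cell Γ e i, ∀ z ∈ cell Γ e j, ∀ k,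
          |z k - Φ.H h⁻¹ g⁻¹ s x k| ≤ δ) := by
    intro g h
    by_cases hgh : g ∈ S ∧ h ∈ S
    · obtain ⟨F'', hF''⟩ := Geo_cmap hcar hbx Γ e c he0 he (fun x => Φ.φ h⁻¹ (Φ.φ g⁻¹ x))
        fun x _ => hφ _ _
      obtain ⟨H₁, hH₁, hH₁', hH₁''⟩ :=
        hM₁' g hgh.1 h hgh.2 (F g) (F h) F'' (hF g) (hF h) hF''
      have e0 : Φ.H h⁻¹ g⁻¹ 0 = fun x => Φ.φ h⁻¹ (Φ.φ g⁻¹ x) := funext fun x => Φ.H0 _ _ x
      have e1 : Φ.H h⁻¹ g⁻¹ 1 = Φ.φ (g * h)⁻¹ := funext fun x => by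
        rw [Φ.H1, mul_inv_rev]
      obtain ⟨H₂, hH₂, hH₂', hH₂''⟩ := hM₂' g hgh.1 h hgh.2 F'' (F (g * h))
        (by rw [e0]; exact hF'') (by rw [e1]; exact hF (g * h))
      refine ⟨H₁ + H₂, ?_, fun _ _ => ⟨?_, ?_⟩⟩
      · intro i j hij
        by_cases h1 : H₁ i j = 0
        · exact hH₂ i j fun h2 => hij (by rw [Matrix.add_apply, h1, h2, add_zero])
        · exact hH₁ i j h1
      · rw [Matrix.mul_add, Matrix.add_mul, ← sub_add_sub_cancel _ F'' _, hH₁', hH₂']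
        abel
      · intro i j hij
        by_cases h1 : H₁ i j = 0
        · exact hH₂'' i j fun h2 => hij (by rw [Matrix.add_apply, h1, h2, add_zero])
        · refine ⟨0, le_rfl, zero_le_one, fun x hx z hz k => ?_⟩
          rw [e0]
          exact hH₁'' i j h1 x hx z hz k
    · exact ⟨0, fun i j h => absurd rfl h, fun hg hh => absurd ⟨hg, hh⟩ hgh⟩
  choose H hH1 hH2 using hHex
  -- the homotopy from `1`
  have hone : CMap Γ (fun i => bx Γ e (J 0 '' cell Γ e i)) 1 := by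
    refine ⟨?_, by rw [Matrix.one_mul, Matrix.mul_one], Matrix.one_mulVec _, ?_⟩
    · intro i j hij
      by_cases h : i = j
      · rw [h]
      · exact absurd (Matrix.one_apply_ne h) hij
    · intro i j hij
      have h : i = j := by
        by_contra h
        exact hij (Matrix.one_apply_ne h)
      subst h
      have h2 : J 0 '' cell Γ e i = cell Γ e i := by
        have : J 0 = id := by
          funext x
          rw [hJ]
          simp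
        rw [this, Set.image_id]
      change i ∈ bx Γ e (J 0 '' cell Γ e i)
      rw [h2]
      exact b4 i
  have hJ1 : J 1 = Φ.φ (1 : G)⁻¹ := by
    funext x
    rw [hJ, inv_one, Φ.φ1]
    simp
  obtain ⟨J₁, hJ₁, hJ₁', hJ₁''⟩ := hM₃' 1 (F 1) hone (by rw [hJ1]; exact hF 1)
  -- the whole cube
  obtain ⟨k, v, hk, -, hv, hεv, hkk, hkv, -⟩ := Γ.ctr (fun _ => -(M : ℤ)) (fun _ => M)
    (fun _ => ⟨le_rfl, by
      have : (0 : ℤ) ≤ M := Int.natCast_nonneg M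
      linarith, le_rfl⟩)
  obtain ⟨q, hq⟩ : ∃ q : Γ.ι → Fin D → ℝ, q = fun i k => e * (Γ.lo i k : ℝ) := ⟨_, rfl⟩
  have hqc : ∀ i, q i ∈ cell Γ e i := fun i => by rw [hq]; exact b5 i
  have hqm : ∀ i, q i ∈ cube D c := fun i => b6 i (hqc i)
  have hρφ : ∀ (s : ℝ) g h x, Φ.ρ (Φ.H g h s x) = Φ.H g h s x := fun s g h x => Φ.ρH g h s x
  refine ⟨Γ.ι, Γ.fin, Γ.dec,
    { dim := Γ.dim, d := Γ.d, M := F, H := H, J := -J₁, aug := Γ.ε, v := v, k := k,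
      dim_le := Γ.dim_le, hd := Γ.hd, hM := fun g c c' h => (hF g).1 c c' h,
      hH := hH1
      hJ := fun c c' h => hJ₁ c c' fun h0 => h (by rw [Matrix.neg_apply, h0, neg_zero])
      hk := hk, haug := Γ.hε, hv := hv, dd := Γ.dd, Md := fun g => (hF g).2.1
      HH := fun g hg h hh => (hH2 g h hg hh).1
      JJ := by
        rw [Matrix.mul_neg, Matrix.neg_mul, ← neg_add, ← hJ₁', neg_sub]
      daug := Γ.dε, Maug := fun g => (hF g).2.2.1, augv := hεv, kk := hkk, kv := hkv }, q, ?_⟩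
  refine ⟨?_, ?_, ?_, ?_⟩
  · intro i j hij
    refine N.mono (by omega) (hδ' (q i) (hqm i) (q j) fun k => ?_)
    exact (b8 i (q i) (hqc i) (q j) (b7 i j hij (hqc j)) k).trans he1
  · intro g hg i j hij
    have h1 := hM₄' g hg i j ((hF g).2.2.2 i j hij) (q i) (hqc i) (q j) (hqc j)
    have h2 := hp2 g⁻¹ (hinv g hg) (q i)
    rw [inv_inv] at h2
    have h3 : N.near (2 * t) (p (Φ.φ g⁻¹ (q i))) (p (Φ.ρ (q j))) := by
      have h4 := hδ' (q j) (hqm j) (Φ.φ g⁻¹ (q i)) h1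
      simp only [Φ.ρφ] at h4
      exact N.symm h4
    exact N.mono (by omega) (N.trans h2 (N.inv g h3))
  · intro g hg h hh i j hij
    obtain ⟨s, hs0, hs1, hs⟩ := (hH2 g h hg hh).2 i j hij
    have h1 := hs (q i) (hqc i) (q j) (hqc j)
    have h2 := hp3 h⁻¹ (hinv h hh) g⁻¹ (hinv g hg) s (q i) hs0 hs1
    rw [mul_inv_rev, inv_inv, inv_inv] at h2
    have h3 : N.near (2 * t) (p (Φ.H h⁻¹ g⁻¹ s (q i))) (p (Φ.ρ (q j))) := by
      have h4 := hδ' (q j) (hqm j) (Φ.H h⁻¹ g⁻¹ s (q i)) h1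
      simp only [Φ.ρH] at h4
      exact N.symm h4
    exact N.mono (by omega) (N.trans h2 (N.inv (g * h) h3))
  · intro i j hij
    obtain ⟨s, hs0, hs1, hs⟩ := hJ₁'' i j fun h0 => hij (by
      change (-J₁) i j = 0
      rw [Matrix.neg_apply, h0, neg_zero])
    have h1 := hs (q i) (hqc i) (q j) (hqc j)
    have h4 := hδ' (q j) (hqm j) (J s (q i)) h1
    have h5 : Φ.ρ (J s (q i)) = Φ.ρ (q i) := by
      rw [hJ]
      exact Φ.seg _ s hs0 hs1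
    simp only [h5] at h4
    exact N.mono (by omega) (N.symm h4)

end Pool.Agent.ZT1
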