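import Pool.Agent.Lib.MP_8f66f0_al_ZT1.BSpec

/-! Project ZERO, part T1 (B): homotopies on a fine grid. -/

set_option autoImplicit false

namespace Pool.Agent.ZT1

open Pool.Agent.Wald Pool.Agent.Ind Pool.Agent.WaldL Pool.Agent.FH Topology

theorem htp_cpt (D : ℕ) (c : ℝ) : IsCompact (cube D c) := by
  have h : cube D c = Set.pi Set.univ fun _ : Fin D => Set.Icc (-c) c := by
    ext x
    simp only [cube, Set.mem_ofPred_eq, Set.mem_pi, Set.mem_univ, true_imp_iff, Set.mem_Icc, abs_le]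
  rw [h]
  exact isCompact_univ_pi fun _ => isCompact_Icc

theorem htp (hcar : S_car) (hbx : S_bx) : S_htp := by
  intro D c δ J hc hδ hJ hmap
  have hcomp : IsCompact (Set.Icc (0 : ℝ) 1 ×ˢ cube D c) := isCompact_Icc.prod (htp_cpt D c)
  obtain ⟨η, hη, hU⟩ := Metric.uniformContinuousOn_iff.1
    (hcomp.uniformContinuousOn_of_continuous
      (f := fun q : ℝ × (Fin D → ℝ) => J q.1 q.2) hJ.continuousOn) (δ / 2) (half_pos hδ)
  obtain ⟨N, hN⟩ := exists_nat_gt (1 / η)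
  have hN0 : (0 : ℝ) < N := lt_trans (by positivity) hN
  have hN1 : 1 / (N : ℝ) < η := by
    rw [div_lt_iff₀ hN0]
    rw [div_lt_iff₀ hη] at hN
    linarith
  have hmin : 0 < min η (δ / 2) := lt_min hη (half_pos hδ)
  obtain ⟨M₁, hM₁⟩ := exists_nat_gt (c / min η (δ / 2))
  refine ⟨M₁, fun M hM Γ e he F F' hF hF' => ?_⟩
  have hMr : (M₁ : ℝ) ≤ M := Nat.cast_le.2 hM
  have hM0 : (0 : ℝ) < M := lt_of_lt_of_le (lt_trans (by positivity) hM₁) hMr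
  have he0 : 0 < e := by
    by_contra h
    have h1 : e * M ≤ 0 := mul_nonpos_of_nonpos_of_nonneg (not_lt.1 h) hM0.le
    linarith
  have hemin : e < min η (δ / 2) := by
    have h1 : c / min η (δ / 2) < M := lt_of_lt_of_le hM₁ hMr
    rw [div_lt_iff₀ hmin] at h1
    have h2 : e * M < min η (δ / 2) * M := by linarith
    exact lt_of_mul_lt_mul_right h2 hM0.le
  have heη : e < η := lt_of_lt_of_le hemin (min_le_left _ _)
  have heδ : e < δ / 2 := lt_of_lt_of_le hemin (min_le_right _ _)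
  obtain ⟨b1, b2, b3, b4, b5, b6, b7, b8⟩ := hbx D M Γ e he0
  rw [he] at b1 b2 b3 b6
  -- the images of the cells
  set W : ℝ → ℝ → Γ.ι → Set (Fin D → ℝ) := fun s s' i =>
    (fun q : ℝ × (Fin D → ℝ) => J q.1 q.2) '' (Set.Icc s s' ×ˢ cell Γ e i) with hW
  have W1 : ∀ s s', s ≤ s' → ∀ i, (W s s' i).Nonempty := by
    intro s s' hs i
    refine Set.Nonempty.image _ ⟨(s, fun k => e * (Γ.lo i k : ℝ)), ?_⟩
    exact ⟨Set.left_mem_Icc.2 hs, b5 i⟩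
  have W2 : ∀ s s', 0 ≤ s → s' ≤ 1 → ∀ i, W s s' i ⊆ cube D c := by
    rintro s s' hs hs' i _ ⟨⟨u, x⟩, ⟨hu, hx⟩, rfl⟩
    exact hmap u (hs.trans hu.1) (hu.2.trans hs') x (b6 i hx)
  have W3 : ∀ s s', 0 ≤ s → s' ≤ 1 → s' - s < η → ∀ i, ∀ w ∈ W s s' i, ∀ w' ∈ W s s' i, ∀ k,
      w k - w' k ≤ δ / 2 := by
    rintro s s' hs hs' hss i _ ⟨⟨u, x⟩, ⟨hu, hx⟩, rfl⟩ _ ⟨⟨u', x'⟩, ⟨hu', hx'⟩, rfl⟩ k
    have h1 : dist (u, x) (u', x') < η := by
      rw [Prod.dist_eq, max_lt_iff]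
      constructor
      · change |u - u'| < η
        rw [abs_lt]
        obtain ⟨h3, h4⟩ := hu
        obtain ⟨h5, h6⟩ := hu'
        constructor <;> linarith
      · change dist x x' < η
        rw [dist_pi_lt_iff hη]
        intro k
        exact lt_of_le_of_lt (b8 i x hx x' hx' k) heη
    have h2 := hU (u, x) ⟨⟨hs.trans hu.1, hu.2.trans hs'⟩, b6 i hx⟩ (u', x')
      ⟨⟨hs.trans hu'.1, hu'.2.trans hs'⟩, b6 i hx'⟩ h1
    rw [dist_pi_lt_iff (half_pos hδ)] at h2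
    exact (le_abs_self _).trans (h2 k).le
  have WQ : ∀ s s', 0 ≤ s → s ≤ s' → s' ≤ 1 → s' - s < η → ∀ i, ∀ j ∈ bx Γ e (W s s' i),
      ∃ s : ℝ, 0 ≤ s ∧ s ≤ 1 ∧ ∀ x ∈ cell Γ e i, ∀ z ∈ cell Γ e j, ∀ k,
        |z k - J s x k| ≤ δ := by
    intro s s' hs hss hs' hη' i j hj
    refine ⟨s, hs, hss.trans hs', fun x hx z hz k => ?_⟩
    have h1 := b3 (W s s' i) (W1 s s' hss i) (W2 s s' hs hs' i) (δ / 2)
      (W3 s s' hs hs' hη' i) j hj z hz (J s x)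
      (Set.mem_image_of_mem (fun q : ℝ × (Fin D → ℝ) => J q.1 q.2)
        (show (s, x) ∈ Set.Icc s s' ×ˢ cell Γ e i from ⟨Set.left_mem_Icc.2 hss, hx⟩)) k
    linarith
  have Wc : ∀ s s', 0 ≤ s → s ≤ s' → s' ≤ 1 →
      (∀ i, Ctr Γ.dim Γ.d Γ.ε (bx Γ e (W s s' i))) ∧
      (∀ i j, Γ.d i j ≠ 0 → bx Γ e (W s s' j) ⊆ bx Γ e (W s s' i)) := by
    intro s s' hs hss hs'
    refine ⟨fun i => b1 _ (W1 s s' hss i) (W2 s s' hs hs' i), fun i j hij => ?_⟩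
    exact b2 _ _ (W1 s s' hss j) (Set.image_mono (Set.prod_mono_right (b7 i j hij)))
      (W2 s s' hs hs' i)
  have Ws : ∀ s i, W s s i = J s '' cell Γ e i := by
    intro s i
    ext w
    constructor
    · rintro ⟨⟨u, x⟩, ⟨hu, hx⟩, rfl⟩
      have h1 : u = s := le_antisymm hu.2 hu.1
      subst h1
      exact ⟨x, hx, rfl⟩
    · rintro ⟨x, hx, rfl⟩
      exact ⟨(s, x), ⟨⟨le_refl s, le_refl s⟩, hx⟩, rfl⟩
  have Wm : ∀ s s' u i, 0 ≤ s → s' ≤ 1 → s ≤ u → u ≤ s' →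
      bx Γ e (J u '' cell Γ e i) ⊆ bx Γ e (W s s' i) := by
    intro s s' u i hs hs' h1 h2
    rw [← Ws u i]
    exact b2 _ _ (W1 u u le_rfl i) (Set.image_mono (Set.prod_mono_left (Set.Icc_subset_Icc h1 h2)))
      (W2 s s' hs hs' i)
  have main : ∀ l : ℕ, l ≤ N → ∀ F₁, CMap Γ (fun i => bx Γ e (J ((l : ℝ) / N) '' cell Γ e i)) F₁ →
      ∃ H, CHtp Γ (fun i => {j | ∃ s : ℝ, 0 ≤ s ∧ s ≤ 1 ∧ ∀ x ∈ cell Γ e i, ∀ z ∈ cell Γ e j,
        ∀ k, |z k - J s x k| ≤ δ}) F F₁ H := by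
    intro l
    induction l with
    | zero =>
      intro _ F₁ hF₁
      obtain ⟨c1, c2⟩ := Wc 0 0 le_rfl le_rfl zero_le_one
      have hq : ∀ F₂, CMap Γ (fun i => bx Γ e (J 0 '' cell Γ e i)) F₂ →
          CMap Γ (fun i => bx Γ e (W 0 0 i)) F₂ := by
        intro F₂ h2
        refine ⟨h2.1, h2.2.1, h2.2.2.1, fun i j hij => ?_⟩
        change j ∈ bx Γ e (W 0 0 i)
        rw [Ws 0 i]
        exact h2.2.2.2 i j hij
      rw [Nat.cast_zero, zero_div] at hF₁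
      obtain ⟨H, h1, h2, h3⟩ := (hcar D M Γ _ c1 c2).2 F F₁ (hq F hF) (hq F₁ hF₁)
      exact ⟨H, h1, h2, fun i j hij => WQ 0 0 le_rfl le_rfl zero_le_one (by rw [sub_self]; exact hη)
        i j (h3 i j hij)⟩
    | succ l ih =>
      intro hl F₁ hF₁
      have hlN : (l : ℝ) + 1 ≤ N := by exact_mod_cast hl
      have s0 : 0 ≤ (l : ℝ) / N := by positivity
      have s1 : (l : ℝ) / N ≤ ((l + 1 : ℕ) : ℝ) / N := by
        rw [Nat.cast_add, Nat.cast_one]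
        exact div_le_div_of_nonneg_right (by linarith) hN0.le
      have s2 : ((l + 1 : ℕ) : ℝ) / N ≤ 1 := by
        rw [Nat.cast_add, Nat.cast_one, div_le_one hN0]
        exact hlN
      have s3 : ((l + 1 : ℕ) : ℝ) / N - (l : ℝ) / N < η := by
        rw [← sub_div, Nat.cast_add, Nat.cast_one, add_sub_cancel_left]
        exact hN1
      obtain ⟨a1, a2⟩ := Wc _ _ s0 le_rfl (s1.trans s2)
      obtain ⟨F₀, hF₀⟩ := (hcar D M Γ _ a1 a2).1
      have hF₀' : CMap Γ (fun i => bx Γ e (J ((l : ℝ) / N) '' cell Γ e i)) F₀ := by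
        refine ⟨hF₀.1, hF₀.2.1, hF₀.2.2.1, fun i j hij => ?_⟩
        change j ∈ bx Γ e (J ((l : ℝ) / N) '' cell Γ e i)
        rw [← Ws]
        exact hF₀.2.2.2 i j hij
      obtain ⟨H, h1, h2, h3⟩ := ih (Nat.le_of_succ_le hl) F₀ hF₀'
      obtain ⟨c1, c2⟩ := Wc _ _ s0 s1 s2
      have q0 : CMap Γ (fun i => bx Γ e (W ((l : ℝ) / N) (((l + 1 : ℕ) : ℝ) / N) i)) F₀ :=
        ⟨hF₀.1, hF₀.2.1, hF₀.2.2.1, fun i j hij =>
          Wm _ _ _ i s0 s2 le_rfl s1 (hF₀'.2.2.2 i j hij)⟩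
      have q1 : CMap Γ (fun i => bx Γ e (W ((l : ℝ) / N) (((l + 1 : ℕ) : ℝ) / N) i)) F₁ :=
        ⟨hF₁.1, hF₁.2.1, hF₁.2.2.1, fun i j hij =>
          Wm _ _ _ i s0 s2 s1 le_rfl (hF₁.2.2.2 i j hij)⟩
      obtain ⟨H', k1, k2, k3⟩ := (hcar D M Γ _ c1 c2).2 F₀ F₁ q0 q1
      refine ⟨H + H', ?_, ?_, ?_⟩
      · intro i j hij
        by_cases h : H i j = 0
        · refine k1 i j fun h' => hij ?_
          rw [Matrix.add_apply, h, h', add_zero]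
        · exact h1 i j h
      · rw [Matrix.mul_add, Matrix.add_mul, ← sub_add_sub_cancel F F₀ F₁, h2, k2]
        abel
      · intro i j hij
        by_cases h : H i j = 0
        · have h' : H' i j ≠ 0 := fun h' => hij (by rw [Matrix.add_apply, h, h', add_zero])
          exact WQ _ _ s0 s1 s2 s3 i j (k3 i j h')
        · exact h3 i j h
  have hNN : (N : ℝ) / N = 1 := div_self hN0.ne'
  have h1 := main N le_rfl F'
  rw [hNN] at h1
  exact h1 hF'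

end Pool.Agent.ZT1
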