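import Pool.Agent.Lib.MP_8f66f0_al_ZT1.BSpec

/-! Project ZERO, part T1, geometric part: the point and the subdivided interval. -/

set_option autoImplicit false

namespace Pool.Agent.ZT1

private abbrev Path_I (M : ℕ) : Type :=
  {x : ℤ // x ∈ Finset.Icc (-(2 * (M : ℤ))) (2 * (M : ℤ))}

private def Path_d (x y : ℤ) : ℤ :=
  if x % 2 = 1 then (if y = x + 1 then 1 else 0) - (if y = x - 1 then 1 else 0) else 0

private def Path_s (A x y : ℤ) : ℤ :=
  if x % 2 = 0 ∧ y % 2 = 1 then (if A < y ∧ y < x then 1 else 0) - (if x < y ∧ y < A then 1 else 0)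
  else 0

private def Path_e (x : ℤ) : ℤ := if x % 2 = 0 then 1 else 0

private theorem Path_rg {M : ℕ} (x : Path_I M) : -(2 * (M : ℤ)) ≤ (x : ℤ) ∧ (x : ℤ) ≤ 2 * (M : ℤ) :=
  Finset.mem_Icc.1 x.2

private theorem Path_sum (M : ℕ) (c : ℤ) (f : ℤ → ℤ)
    (h : f c ≠ 0 → -(2 * (M : ℤ)) ≤ c ∧ c ≤ 2 * (M : ℤ)) :
    ∑ y : Path_I M, (if (y : ℤ) = c then f y else 0) = f c := by
  by_cases hc : -(2 * (M : ℤ)) ≤ c ∧ c ≤ 2 * (M : ℤ)
  · rw [Finset.sum_eq_single (⟨c, Finset.mem_Icc.2 hc⟩ : Path_I M)]
    · simp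
    · intro y _ hy
      rw [if_neg]
      intro h'
      exact hy (Subtype.ext h')
    · intro h'
      exact absurd (Finset.mem_univ _) h'
  · have h0 : f c = 0 := by
      by_contra h'
      exact hc (h h')
    rw [h0]
    apply Finset.sum_eq_zero
    intro y _
    rw [if_neg]
    intro h'
    apply hc
    rw [← h']
    exact Path_rg y

private theorem Path_ds (M : ℕ) (x : Path_I M) (f : ℤ → ℤ) :
    ∑ y : Path_I M, Path_d x y * f y
      = if (x : ℤ) % 2 = 1 then f ((x : ℤ) + 1) - f ((x : ℤ) - 1) else 0 := by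
  have hx := Path_rg x
  by_cases ho : (x : ℤ) % 2 = 1
  · rw [if_pos ho, ← Path_sum M ((x : ℤ) + 1) f (fun _ => by omega),
      ← Path_sum M ((x : ℤ) - 1) f (fun _ => by omega), ← Finset.sum_sub_distrib]
    apply Finset.sum_congr rfl
    intro y _
    unfold Path_d
    rw [if_pos ho]
    split_ifs <;> ring
  · rw [if_neg ho]
    apply Finset.sum_eq_zero
    intro y _
    unfold Path_d
    rw [if_neg ho, zero_mul]

private theorem Path_sd (M : ℕ) (z : ℤ) (f : ℤ → ℤ)
    (hf : ∀ y, f y ≠ 0 → y % 2 = 1 ∧ -(2 * (M : ℤ)) ≤ y ∧ y ≤ 2 * (M : ℤ)) :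
    ∑ y : Path_I M, f y * Path_d y z = f (z - 1) - f (z + 1) := by
  rw [← Path_sum M (z - 1) f (fun h => (hf _ h).2), ← Path_sum M (z + 1) f (fun h => (hf _ h).2),
    ← Finset.sum_sub_distrib]
  apply Finset.sum_congr rfl
  intro y _
  by_cases h0 : f y = 0
  · rw [h0]
    simp
  · have ho := (hf _ h0).1
    unfold Path_d
    rw [if_pos ho]
    have e1 : (z = (y : ℤ) + 1) ↔ ((y : ℤ) = z - 1) := by omega
    have e2 : (z = (y : ℤ) - 1) ↔ ((y : ℤ) = z + 1) := by omega
    simp only [e1, e2]
    split_ifs <;> ring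

private theorem Path_s_ne {A x y : ℤ} (h : Path_s A x y ≠ 0) :
    x % 2 = 0 ∧ y % 2 = 1 ∧ ((A < y ∧ y < x) ∨ (x < y ∧ y < A)) := by
  unfold Path_s at h
  by_cases h1 : x % 2 = 0 ∧ y % 2 = 1
  · rw [if_pos h1] at h
    refine ⟨h1.1, h1.2, ?_⟩
    by_contra h2
    push Not at h2
    apply h
    rw [if_neg, if_neg]
    · norm_num
    · intro h3
      have := h2.2 h3.1
      omega
    · intro h3
      have := h2.1 h3.1
      omega
  · rw [if_neg h1] at h
    exact absurd rfl h

private theorem Path_d_ne {x y : ℤ} (h : Path_d x y ≠ 0) : x % 2 = 1 ∧ (y = x + 1 ∨ y = x - 1) := by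
  unfold Path_d at h
  by_cases h1 : x % 2 = 1
  · rw [if_pos h1] at h
    refine ⟨h1, ?_⟩
    by_contra h2
    push Not at h2
    apply h
    rw [if_neg h2.1, if_neg h2.2]
    norm_num
  · rw [if_neg h1] at h
    exact absurd rfl h

private theorem Path_ctr (M : ℕ) (a b : ℤ) (h1 : -(M : ℤ) ≤ a) (h2 : a ≤ b) (h3 : b ≤ M)
    (Q : Set (Path_I M)) (hQ : ∀ i : Path_I M, i ∈ Q ↔ a ≤ (i : ℤ) / 2 ∧ ((i : ℤ) + 1) / 2 ≤ b) :
    Ctr (fun i : Path_I M => ((i : ℤ) % 2).toNat)
      (Matrix.of fun i j : Path_I M => Path_d i j) (fun i : Path_I M => Path_e i) Q := by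
  have hA : -(2 * (M : ℤ)) ≤ 2 * a ∧ 2 * a ≤ 2 * (M : ℤ) := by omega
  refine ⟨Matrix.of fun i j : Path_I M => Path_s (2 * a) i j,
    ⟨2 * a, Finset.mem_Icc.2 hA⟩, ?_, ?_, ?_, ?_, ?_, ?_, ?_⟩
  · intro i j h
    obtain ⟨h4, h5, -⟩ := Path_s_ne h
    show ((j : ℤ) % 2).toNat = ((i : ℤ) % 2).toNat + 1
    rw [h4, h5]
    rfl
  · rw [hQ]
    show a ≤ (2 * a) / 2 ∧ (2 * a + 1) / 2 ≤ b
    omega
  · show ((2 * a) % 2).toNat = 0
    omega
  · show Path_e (2 * a) = 1
    unfold Path_e
    rw [if_pos]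
    omega
  · ext x z
    rw [Matrix.add_apply, Matrix.mul_apply, Matrix.mul_apply, Matrix.sub_apply, Matrix.one_apply,
      Matrix.vecMulVec_apply]
    have e1 : ∑ y : Path_I M, (Matrix.of fun i j : Path_I M => Path_d i j) x y *
        (Matrix.of fun i j : Path_I M => Path_s (2 * a) i j) y z
        = if (x : ℤ) % 2 = 1 then Path_s (2 * a) ((x : ℤ) + 1) z - Path_s (2 * a) ((x : ℤ) - 1) z
          else 0 := Path_ds M x (fun y => Path_s (2 * a) y z)
    have hx := Path_rg x
    have hz := Path_rg z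
    have e2 : ∑ y : Path_I M, (Matrix.of fun i j : Path_I M => Path_s (2 * a) i j) x y *
        (Matrix.of fun i j : Path_I M => Path_d i j) y z
        = Path_s (2 * a) x ((z : ℤ) - 1) - Path_s (2 * a) x ((z : ℤ) + 1) := by
      apply Path_sd M z (fun y => Path_s (2 * a) x y)
      intro y hy
      obtain ⟨-, h5, h6⟩ := Path_s_ne hy
      refine ⟨h5, ?_⟩
      omega
    rw [e1, e2]
    have e3 : (Pi.single (⟨2 * a, Finset.mem_Icc.2 hA⟩ : Path_I M) (1 : ℤ) : Path_I M → ℤ) z
        = if (z : ℤ) = 2 * a then 1 else 0 := by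
      rw [Pi.single_apply]
      by_cases hh : (z : ℤ) = 2 * a
      · rw [if_pos hh, if_pos (Subtype.ext hh)]
      · rw [if_neg hh, if_neg]
        intro h'
        exact hh (congrArg Subtype.val h')
    have e4 : (if x = z then (1 : ℤ) else 0) = if (x : ℤ) = z then 1 else 0 := by
      by_cases hh : (x : ℤ) = z
      · rw [if_pos hh, if_pos (Subtype.ext hh)]
      · rw [if_neg hh, if_neg]
        intro h'
        exact hh (congrArg Subtype.val h')
    rw [e3, e4]
    unfold Path_e Path_s
    generalize (x : ℤ) = u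
    generalize (z : ℤ) = w
    rcases Int.emod_two_eq_zero_or_one u with hu | hu <;>
      rcases Int.emod_two_eq_zero_or_one w with hw | hw
    · have t1 : ¬ (u % 2 = 1) := by omega
      have t2 : (u % 2 = 0 ∧ (w - 1) % 2 = 1) := by omega
      have t3 : (u % 2 = 0 ∧ (w + 1) % 2 = 1) := by omega
      rw [if_neg t1, if_pos t2, if_pos t3, if_pos hu]
      split_ifs <;> omega
    · have t1 : ¬ (u % 2 = 1) := by omega
      have t2 : ¬ (u % 2 = 0 ∧ (w - 1) % 2 = 1) := by omega
      have t3 : ¬ (u % 2 = 0 ∧ (w + 1) % 2 = 1) := by omega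
      rw [if_neg t1, if_neg t2, if_neg t3, if_pos hu]
      split_ifs <;> omega
    · have t2 : ¬ (u % 2 = 0 ∧ (w - 1) % 2 = 1) := by omega
      have t3 : ¬ (u % 2 = 0 ∧ (w + 1) % 2 = 1) := by omega
      have t4 : ¬ ((u + 1) % 2 = 0 ∧ w % 2 = 1) := by omega
      have t5 : ¬ ((u - 1) % 2 = 0 ∧ w % 2 = 1) := by omega
      have t6 : ¬ (u % 2 = 0) := by omega
      rw [if_pos hu, if_neg t2, if_neg t3, if_neg t4, if_neg t5, if_neg t6]
      split_ifs <;> omega
    · have t2 : ¬ (u % 2 = 0 ∧ (w - 1) % 2 = 1) := by omega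
      have t3 : ¬ (u % 2 = 0 ∧ (w + 1) % 2 = 1) := by omega
      have t4 : ((u + 1) % 2 = 0 ∧ w % 2 = 1) := by omega
      have t5 : ((u - 1) % 2 = 0 ∧ w % 2 = 1) := by omega
      have t6 : ¬ (u % 2 = 0) := by omega
      rw [if_pos hu, if_neg t2, if_neg t3, if_pos t4, if_pos t5, if_neg t6]
      split_ifs <;> omega
  · intro j
    by_contra h
    obtain ⟨-, -, h6⟩ := Path_s_ne h
    have h7 : (2 * a < (j : ℤ) ∧ (j : ℤ) < 2 * a) ∨ (2 * a < (j : ℤ) ∧ (j : ℤ) < 2 * a) := h6
    omega
  · intro i hi j h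
    obtain ⟨h4, h5, h6⟩ := Path_s_ne h
    rw [hQ] at hi ⊢
    omega

theorem path : S_path := by
  intro M
  refine ⟨⟨?_⟩, ⟨?_⟩⟩
  · exact
      { ι := Unit
        fin := inferInstance
        dec := inferInstance
        dim := fun _ => 0
        d := 0
        ε := fun _ => 1
        lo := fun _ _ => 0
        hi := fun _ _ => 0
        dim_le := fun _ => le_refl _
        hd := fun i j h => absurd rfl h
        dd := by simp
        hε := fun _ _ => rfl
        dε := by simp
        bd := fun _ k => k.elim0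
        face := fun _ _ h => absurd rfl h
        ctr := by
          intro a b _
          refine ⟨0, (), ?_, ?_, rfl, rfl, ?_, ?_, ?_⟩
          · intro i j h
            exact absurd rfl h
          · intro k
            exact k.elim0
          · ext i j
            simp [Matrix.vecMulVec_apply]
          · intro j
            rfl
          · intro i _ j h
            exact absurd rfl h }
  · exact
      { ι := Path_I M
        fin := inferInstance
        dec := inferInstance
        dim := fun i => ((i : ℤ) % 2).toNat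
        d := Matrix.of fun i j : Path_I M => Path_d i j
        ε := fun i => Path_e i
        lo := fun i _ => (i : ℤ) / 2
        hi := fun i _ => ((i : ℤ) + 1) / 2
        dim_le := fun i => by
          have := Int.emod_two_eq_zero_or_one (i : ℤ)
          omega
        hd := fun i j h => by
          obtain ⟨h1, h2⟩ := Path_d_ne h
          show ((i : ℤ) % 2).toNat = ((j : ℤ) % 2).toNat + 1
          omega
        dd := by
          ext x z
          rw [Matrix.mul_apply, Matrix.zero_apply]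
          apply Finset.sum_eq_zero
          intro y _
          show Path_d x y * Path_d y z = 0
          by_contra h
          obtain ⟨h1, h2⟩ := mul_ne_zero_iff.1 h
          obtain ⟨h3, h4⟩ := Path_d_ne h1
          obtain ⟨h5, -⟩ := Path_d_ne h2
          omega
        hε := fun i h => by
          have h1 : Path_e i ≠ 0 := h
          unfold Path_e at h1
          show ((i : ℤ) % 2).toNat = 0
          by_contra h2
          apply h1
          rw [if_neg]
          omega
        dε := by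
          ext x
          have e : (Matrix.of fun i j : Path_I M => Path_d i j).mulVec (fun i => Path_e i) x
              = if (x : ℤ) % 2 = 1 then Path_e ((x : ℤ) + 1) - Path_e ((x : ℤ) - 1) else 0 :=
            Path_ds M x Path_e
          rw [e]
          unfold Path_e
          show _ = (0 : ℤ)
          split_ifs <;> omega
        bd := fun i k => by
          have := Path_rg i
          show -(M : ℤ) ≤ (i : ℤ) / 2 ∧ (i : ℤ) / 2 ≤ ((i : ℤ) + 1) / 2 ∧
            ((i : ℤ) + 1) / 2 ≤ (i : ℤ) / 2 + 1 ∧ ((i : ℤ) + 1) / 2 ≤ M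
          omega
        face := fun i j h k => by
          obtain ⟨h1, h2⟩ := Path_d_ne h
          show (i : ℤ) / 2 ≤ (j : ℤ) / 2 ∧ ((j : ℤ) + 1) / 2 ≤ ((i : ℤ) + 1) / 2
          omega
        ctr := by
          intro a b h
          apply Path_ctr M (a 0) (b 0) (h 0).1 (h 0).2.1 (h 0).2.2
          intro i
          constructor
          · intro hi
            exact hi 0
          · intro hi k
            have hk : k = 0 := Subsingleton.elim _ _
            rw [hk]
            exact hi }

end Pool.Agent.ZT1
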