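import Pool.Agent.Lib.MP_8f66f0_al_ZT1.BSpec

/-! Project ZERO, part T1: the product of a subdivided interval and a subdivided cube. -/

set_option autoImplicit false

namespace Pool.Agent.ZT1

open Matrix

open scoped Kronecker

section

set_option linter.unusedSectionVars false

variable {ι₁ ι : Type} [Fintype ι₁] [DecidableEq ι₁] [Fintype ι] [DecidableEq ι]

/-- The sign matrix. -/
private def sgm (dim₁ : ι₁ → ℕ) : Matrix ι₁ ι₁ ℤ := Matrix.diagonal fun i => (-1) ^ dim₁ i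

/-- The boundary matrix of the product. -/
private def dpr (dim₁ : ι₁ → ℕ) (d₁ : Matrix ι₁ ι₁ ℤ) (d : Matrix ι ι ℤ) :
    Matrix (ι₁ × ι) (ι₁ × ι) ℤ := d₁ ⊗ₖ (1 : Matrix ι ι ℤ) + sgm dim₁ ⊗ₖ d

private theorem kr_ne {A : Matrix ι₁ ι₁ ℤ} {B : Matrix ι ι ℤ} {p q : ι₁ × ι}
    (h : (A ⊗ₖ B) p q ≠ 0) : A p.1 q.1 ≠ 0 ∧ B p.2 q.2 ≠ 0 := by
  rw [Matrix.kroneckerMap_apply] at h
  exact ⟨left_ne_zero_of_mul h, right_ne_zero_of_mul h⟩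

private theorem one_ne {p q : ι} (h : (1 : Matrix ι ι ℤ) p q ≠ 0) : p = q := by
  by_contra hne
  exact h (Matrix.one_apply_ne hne)

private theorem sgm_ne {dim₁ : ι₁ → ℕ} {p q : ι₁} (h : sgm dim₁ p q ≠ 0) : p = q := by
  by_contra hne
  exact h (Matrix.diagonal_apply_ne _ hne)

private theorem add_ne {A B : Matrix (ι₁ × ι) (ι₁ × ι) ℤ} {p q : ι₁ × ι}
    (h : (A + B) p q ≠ 0) : A p q ≠ 0 ∨ B p q ≠ 0 := by
  by_contra hc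
  push Not at hc
  exact h (by rw [Matrix.add_apply, hc.1, hc.2, add_zero])

private theorem dpr_ne {dim₁ : ι₁ → ℕ} {d₁ : Matrix ι₁ ι₁ ℤ} {d : Matrix ι ι ℤ} {p q : ι₁ × ι}
    (h : dpr dim₁ d₁ d p q ≠ 0) : (d₁ p.1 q.1 ≠ 0 ∧ p.2 = q.2) ∨ (p.1 = q.1 ∧ d p.2 q.2 ≠ 0) := by
  rcases add_ne h with h | h
  · exact Or.inl ⟨(kr_ne h).1, one_ne (kr_ne h).2⟩
  · exact Or.inr ⟨sgm_ne (kr_ne h).1, (kr_ne h).2⟩

/-- A matrix of degree `-1` anticommutes with the signs. -/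
private theorem sgm_anti {dim₁ : ι₁ → ℕ} {A : Matrix ι₁ ι₁ ℤ}
    (h : ∀ i j, A i j ≠ 0 → dim₁ i = dim₁ j + 1 ∨ dim₁ j = dim₁ i + 1) :
    A * sgm dim₁ + sgm dim₁ * A = 0 := by
  ext i j
  rw [Matrix.add_apply, sgm, Matrix.mul_diagonal, Matrix.diagonal_mul, Matrix.zero_apply]
  by_cases h0 : A i j = 0
  · rw [h0, zero_mul, mul_zero, add_zero]
  · rcases h i j h0 with h1 | h1
    · rw [h1, pow_succ]
      ring
    · rw [h1, pow_succ]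
      ring

private theorem sgm_sq (dim₁ : ι₁ → ℕ) : sgm dim₁ * sgm dim₁ = 1 := by
  rw [sgm, Matrix.diagonal_mul_diagonal, ← Matrix.diagonal_one]
  congr 1
  funext i
  rw [← mul_pow]
  simp

private theorem kr_mulVec (A : Matrix ι₁ ι₁ ℤ) (B : Matrix ι ι ℤ) (u : ι₁ → ℤ) (v : ι → ℤ) :
    (A ⊗ₖ B).mulVec (fun p => u p.1 * v p.2) = fun p => A.mulVec u p.1 * B.mulVec v p.2 := by
  funext p
  simp only [Matrix.mulVec, dotProduct, Matrix.kroneckerMap_apply]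
  rw [Fintype.sum_prod_type, Finset.sum_mul_sum]
  refine Finset.sum_congr rfl fun i _ => Finset.sum_congr rfl fun j _ => ?_
  ring

private theorem dpr_sq {dim₁ : ι₁ → ℕ} {d₁ : Matrix ι₁ ι₁ ℤ} {d : Matrix ι ι ℤ}
    (hd₁ : ∀ i j, d₁ i j ≠ 0 → dim₁ i = dim₁ j + 1) (dd₁ : d₁ * d₁ = 0) (dd : d * d = 0) :
    dpr dim₁ d₁ d * dpr dim₁ d₁ d = 0 := by
  have h := sgm_anti (dim₁ := dim₁) (A := d₁) fun i j hij => Or.inl (hd₁ i j hij)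
  rw [dpr, add_mul, mul_add, mul_add]
  simp only [← Matrix.mul_kronecker_mul, Matrix.mul_one, Matrix.one_mul]
  rw [dd₁, dd, Matrix.zero_kronecker, Matrix.kronecker_zero, zero_add, add_zero,
    ← Matrix.add_kronecker, h, Matrix.zero_kronecker]

private theorem dpr_eps {dim₁ : ι₁ → ℕ} {d₁ : Matrix ι₁ ι₁ ℤ} {d : Matrix ι ι ℤ} {ε₁ : ι₁ → ℤ}
    {ε : ι → ℤ} (dε₁ : d₁.mulVec ε₁ = 0) (dε : d.mulVec ε = 0) :
    (dpr dim₁ d₁ d).mulVec (fun p => ε₁ p.1 * ε p.2) = 0 := by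
  rw [dpr, Matrix.add_mulVec, kr_mulVec, kr_mulVec, dε₁, dε]
  funext p
  simp

private theorem ctr_pr {dim₁ : ι₁ → ℕ} {dim : ι → ℕ} {d₁ : Matrix ι₁ ι₁ ℤ} {d : Matrix ι ι ℤ}
    {ε₁ : ι₁ → ℤ} {ε : ι → ℤ} (hd₁ : ∀ i j, d₁ i j ≠ 0 → dim₁ i = dim₁ j + 1)
    (hε₁ : ∀ i, ε₁ i ≠ 0 → dim₁ i = 0) (dε₁ : d₁.mulVec ε₁ = 0) {Q₁ : Set ι₁} {Q : Set ι}
    (h₁ : Ctr dim₁ d₁ ε₁ Q₁) (h : Ctr dim d ε Q) :
    Ctr (fun p : ι₁ × ι => dim₁ p.1 + dim p.2) (dpr dim₁ d₁ d) (fun p => ε₁ p.1 * ε p.2)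
      {p | p.1 ∈ Q₁ ∧ p.2 ∈ Q} := by
  obtain ⟨s₁, v₁, hs₁, hv₁, hv₁0, hεv₁, hc₁, hsv₁, hQ₁⟩ := h₁
  obtain ⟨s, v, hs, hv, hv0, hεv, hc, hsv, hQ⟩ := h
  set P₁ : Matrix ι₁ ι₁ ℤ := Matrix.vecMulVec ε₁ (Pi.single v₁ 1) with hP₁
  have hPne : ∀ i j, P₁ i j ≠ 0 → ε₁ i ≠ 0 ∧ j = v₁ := by
    intro i j hij
    rw [hP₁, Matrix.vecMulVec_apply] at hij
    refine ⟨left_ne_zero_of_mul hij, ?_⟩
    by_contra hne
    exact right_ne_zero_of_mul hij (Pi.single_eq_of_ne hne _)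
  have hsg0 : ∀ i, dim₁ i = 0 → ((-1 : ℤ)) ^ dim₁ i = 1 := fun i hi => by rw [hi, pow_zero]
  have h1 : d₁ * P₁ = 0 := by
    rw [hP₁, Matrix.mul_vecMulVec, dε₁, Matrix.zero_vecMulVec]
  have h2 : P₁ * d₁ = 0 := by
    rw [hP₁, Matrix.vecMulVec_mul]
    have : Matrix.vecMul (Pi.single v₁ 1) d₁ = 0 := by
      funext j
      rw [Matrix.single_one_vecMul, Pi.zero_apply]
      by_contra hne
      have := hd₁ v₁ j hne
      omega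
    rw [this, Matrix.vecMulVec_zero]
  have h3 : sgm dim₁ * P₁ = P₁ := by
    ext i j
    rw [sgm, Matrix.diagonal_mul]
    by_cases h0 : P₁ i j = 0
    · rw [h0, mul_zero]
    · rw [hsg0 i (hε₁ i (hPne i j h0).1), one_mul]
  have h4 : P₁ * sgm dim₁ = P₁ := by
    ext i j
    rw [sgm, Matrix.mul_diagonal]
    by_cases h0 : P₁ i j = 0
    · rw [h0, zero_mul]
    · rw [(hPne i j h0).2, hsg0 v₁ hv₁0, mul_one]
  have h5 := sgm_anti (dim₁ := dim₁) (A := s₁) fun i j hij => Or.inr (hs₁ i j hij)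
  have h6 : P₁ ⊗ₖ (Matrix.vecMulVec ε (Pi.single v 1)) =
      Matrix.vecMulVec (fun p : ι₁ × ι => ε₁ p.1 * ε p.2) (Pi.single (v₁, v) 1) := by
    ext p q
    rw [Matrix.kroneckerMap_apply, hP₁, Matrix.vecMulVec_apply, Matrix.vecMulVec_apply,
      Matrix.vecMulVec_apply]
    by_cases e1 : q.1 = v₁
    · by_cases e2 : q.2 = v
      · have : q = (v₁, v) := Prod.ext e1 e2
        rw [this]
        simp
      · have : q ≠ (v₁, v) := fun hq => e2 (by rw [hq])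
        rw [Pi.single_eq_of_ne e2, Pi.single_eq_of_ne this, mul_zero, mul_zero, mul_zero]
    · have : q ≠ (v₁, v) := fun hq => e1 (by rw [hq])
      rw [Pi.single_eq_of_ne e1, Pi.single_eq_of_ne this, mul_zero, mul_zero, zero_mul]
  have hSne : ∀ p q : ι₁ × ι, (s₁ ⊗ₖ (1 : Matrix ι ι ℤ) + P₁ ⊗ₖ s) p q ≠ 0 →
      (s₁ p.1 q.1 ≠ 0 ∧ p.2 = q.2) ∨ (ε₁ p.1 ≠ 0 ∧ q.1 = v₁ ∧ s p.2 q.2 ≠ 0) := by
    intro p q hpq
    rcases add_ne hpq with hpq | hpq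
    · exact Or.inl ⟨(kr_ne hpq).1, one_ne (kr_ne hpq).2⟩
    · exact Or.inr ⟨(hPne _ _ (kr_ne hpq).1).1, (hPne _ _ (kr_ne hpq).1).2, (kr_ne hpq).2⟩
  refine ⟨s₁ ⊗ₖ (1 : Matrix ι ι ℤ) + P₁ ⊗ₖ s, (v₁, v), ?_, ⟨hv₁, hv⟩, ?_, ?_, ?_, ?_, ?_⟩
  · intro p q hpq
    show dim₁ q.1 + dim q.2 = dim₁ p.1 + dim p.2 + 1
    rcases hSne p q hpq with ⟨ha, hb⟩ | ⟨ha, hb, hc'⟩
    · have := hs₁ _ _ ha
      rw [hb]
      omega
    · have e1 := hε₁ _ ha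
      have e2 := hs _ _ hc'
      rw [hb]
      omega
  · show dim₁ v₁ + dim v = 0
    omega
  · show ε₁ v₁ * ε v = 1
    rw [hεv₁, hεv, one_mul]
  · have e1 : dpr dim₁ d₁ d * (s₁ ⊗ₖ (1 : Matrix ι ι ℤ) + P₁ ⊗ₖ s) =
        (d₁ * s₁) ⊗ₖ (1 : Matrix ι ι ℤ) + (sgm dim₁ * s₁) ⊗ₖ d + P₁ ⊗ₖ (d * s) := by
      rw [dpr, add_mul, mul_add, mul_add]
      simp only [← Matrix.mul_kronecker_mul]
      rw [h1, h3, Matrix.one_mul, Matrix.mul_one, Matrix.one_mul, Matrix.zero_kronecker, add_zero,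
        add_assoc]
    have e2 : (s₁ ⊗ₖ (1 : Matrix ι ι ℤ) + P₁ ⊗ₖ s) * dpr dim₁ d₁ d =
        (s₁ * d₁) ⊗ₖ (1 : Matrix ι ι ℤ) + (s₁ * sgm dim₁) ⊗ₖ d + P₁ ⊗ₖ (s * d) := by
      rw [dpr, add_mul, mul_add, mul_add]
      simp only [← Matrix.mul_kronecker_mul]
      rw [h2, h4, Matrix.one_mul, Matrix.mul_one, Matrix.one_mul, Matrix.zero_kronecker, zero_add]
    rw [e1, e2, ← h6]
    have e3 : (d₁ * s₁) ⊗ₖ (1 : Matrix ι ι ℤ) + (s₁ * d₁) ⊗ₖ (1 : Matrix ι ι ℤ) =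
        1 - P₁ ⊗ₖ (1 : Matrix ι ι ℤ) := by
      rw [← Matrix.add_kronecker, hc₁, ← Matrix.one_kronecker_one]
      ext p q
      simp only [Matrix.kroneckerMap_apply, Matrix.sub_apply]
      ring
    have e4 : (sgm dim₁ * s₁) ⊗ₖ d + (s₁ * sgm dim₁) ⊗ₖ d = 0 := by
      rw [← Matrix.add_kronecker, add_comm, h5, Matrix.zero_kronecker]
    have e5 : P₁ ⊗ₖ (d * s) + P₁ ⊗ₖ (s * d) =
        P₁ ⊗ₖ (1 : Matrix ι ι ℤ) - P₁ ⊗ₖ (Matrix.vecMulVec ε (Pi.single v 1)) := by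
      rw [← Matrix.kronecker_add, hc]
      ext p q
      simp only [Matrix.kroneckerMap_apply, Matrix.sub_apply]
      ring
    calc _ = ((d₁ * s₁) ⊗ₖ (1 : Matrix ι ι ℤ) + (s₁ * d₁) ⊗ₖ (1 : Matrix ι ι ℤ)) +
          ((sgm dim₁ * s₁) ⊗ₖ d + (s₁ * sgm dim₁) ⊗ₖ d) +
          (P₁ ⊗ₖ (d * s) + P₁ ⊗ₖ (s * d)) := by abel
      _ = _ := by
        rw [e3, e4, e5]
        abel
  · intro q
    by_contra hne
    rcases hSne (v₁, v) q hne with ⟨ha, _⟩ | ⟨_, _, hc'⟩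
    · exact ha (hsv₁ _)
    · exact hc' (hsv _)
  · rintro p ⟨hp1, hp2⟩ q hpq
    rcases hSne p q hpq with ⟨ha, hb⟩ | ⟨_, hb, hc'⟩
    · exact ⟨hQ₁ _ hp1 _ ha, hb ▸ hp2⟩
    · exact ⟨hb ▸ hv₁, hQ _ hp2 _ hc'⟩

end

/-- **Prod**. The product of a subdivided interval and a subdivided cube. -/
theorem prod : S_prod := by
  intro D M Γ₁ Γ
  refine ⟨{
    ι := Γ₁.ι × Γ.ι
    fin := inferInstance
    dec := inferInstance
    dim := fun p => Γ₁.dim p.1 + Γ.dim p.2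
    d := dpr Γ₁.dim Γ₁.d Γ.d
    ε := fun p => Γ₁.ε p.1 * Γ.ε p.2
    lo := fun p => Fin.cons (Γ₁.lo p.1 0) (Γ.lo p.2)
    hi := fun p => Fin.cons (Γ₁.hi p.1 0) (Γ.hi p.2)
    dim_le := ?_
    hd := ?_
    dd := dpr_sq Γ₁.hd Γ₁.dd Γ.dd
    hε := ?_
    dε := dpr_eps Γ₁.dε Γ.dε
    bd := ?_
    face := ?_
    ctr := ?_ }⟩
  · intro p
    have h1 := Γ₁.dim_le p.1
    have h2 := Γ.dim_le p.2
    omega
  · intro p q hpq
    rcases dpr_ne hpq with ⟨ha, hb⟩ | ⟨ha, hb⟩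
    · have := Γ₁.hd _ _ ha
      rw [hb]
      omega
    · have := Γ.hd _ _ hb
      rw [ha]
      omega
  · intro p hp
    have h1 := Γ₁.hε _ (left_ne_zero_of_mul hp)
    have h2 := Γ.hε _ (right_ne_zero_of_mul hp)
    rw [h1, h2]
  · intro p k
    refine Fin.cases ?_ (fun k => ?_) k
    · rw [Fin.cons_zero, Fin.cons_zero]
      exact Γ₁.bd p.1 0
    · rw [Fin.cons_succ, Fin.cons_succ]
      exact Γ.bd p.2 k
  · intro p q hpq k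
    rcases dpr_ne hpq with ⟨ha, hb⟩ | ⟨ha, hb⟩
    · refine Fin.cases ?_ (fun k => ?_) k
      · rw [Fin.cons_zero, Fin.cons_zero, Fin.cons_zero, Fin.cons_zero]
        exact Γ₁.face _ _ ha 0
      · rw [Fin.cons_succ, Fin.cons_succ, Fin.cons_succ, Fin.cons_succ, hb]
        exact ⟨le_rfl, le_rfl⟩
    · refine Fin.cases ?_ (fun k => ?_) k
      · rw [Fin.cons_zero, Fin.cons_zero, Fin.cons_zero, Fin.cons_zero, ha]
        exact ⟨le_rfl, le_rfl⟩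
      · rw [Fin.cons_succ, Fin.cons_succ, Fin.cons_succ, Fin.cons_succ]
        exact Γ.face _ _ hb k
  · intro a b hab
    have h1 := Γ₁.ctr (fun _ => a 0) (fun _ => b 0) fun _ => hab 0
    have h2 := Γ.ctr (fun k => a k.succ) (fun k => b k.succ) fun k => hab k.succ
    have h3 := ctr_pr Γ₁.hd Γ₁.hε Γ₁.dε h1 h2
    have h4 : {p : Γ₁.ι × Γ.ι | ∀ k : Fin (D + 1),
        a k ≤ (Fin.cons (Γ₁.lo p.1 0) (Γ.lo p.2) : Fin (D + 1) → ℤ) k ∧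
        (Fin.cons (Γ₁.hi p.1 0) (Γ.hi p.2) : Fin (D + 1) → ℤ) k ≤ b k} =
        {p | p.1 ∈ {i | ∀ k, a 0 ≤ Γ₁.lo i k ∧ Γ₁.hi i k ≤ b 0} ∧
          p.2 ∈ {i | ∀ k : Fin D, a k.succ ≤ Γ.lo i k ∧ Γ.hi i k ≤ b k.succ}} := by
      ext p
      simp only [Set.mem_ofPred_eq, Fin.forall_fin_succ, Fin.cons_zero, Fin.cons_succ]
      constructor
      · rintro ⟨e1, e2⟩
        exact ⟨⟨e1, fun k => k.elim0⟩, e2⟩
      · rintro ⟨⟨e1, _⟩, e2⟩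
        exact ⟨e1, e2⟩
    exact h4 ▸ h3

end Pool.Agent.ZT1
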