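import Pool.Agent.Lib.MP_8f66f0_al_ZT1.AAll
import Pool.Agent.Lib.MP_8f66f0_al_ZT1.Path
import Pool.Agent.Lib.MP_8f66f0_al_ZT1.Prod
import Pool.Agent.Lib.MP_8f66f0_al_ZT1.Car
import Pool.Agent.Lib.MP_8f66f0_al_ZT1.Bx
import Pool.Agent.Lib.MP_8f66f0_al_ZT1.Comp
import Pool.Agent.Lib.MP_8f66f0_al_ZT1.Htp
import Pool.Agent.Lib.MP_8f66f0_al_ZT1.Geo

/-! Project ZERO, part T1: the transfer. -/

set_option autoImplicit false

namespace Pool.Agent.ZT1

/-- **Part B**: from a homotopy action on a retract of a cube to chain complexes. -/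
theorem sB : S_B :=
  geo path prod car bxT (comp car bxT) (htp car bxT)

/-- **The transfer.** -/
theorem t1 : S_T1 := t1_of sA sB

end Pool.Agent.ZT1
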