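import Pool.Agent.Lib.MP_8f66f0_al_FH.ASpec
import Pool.Agent.Lib.MP_8f66f0_al_Ind.One
import Pool.Agent.Lib.MP_8f66f0_al_Ind.Euc

/-! Project ZERO, part T1 (A): invariants which kill the units kill integral matrices. -/

set_option autoImplicit false

namespace Pool.Agent.ZT1

open Pool.Agent.Wald Pool.Agent.FH Pool.Agent.Ind Pool.Agent.WaldL

theorem int_kill {L G K : Type} [CommRing L] [Group G] [CommGroup K]
    (κ : K1Fun (MonoidAlgebra L G) K) (hκ : KU κ) {m : Type} [Fintype m] [DecidableEq m]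
    (W : Matrix m m ℤ) (hW : IsUnit W) :
    κ.f (W.map (Int.castRingHom (MonoidAlgebra L G))) = 1 := by
  let φ : MonoidAlgebra ℤ (Multiplicative PUnit.{1}) →+* MonoidAlgebra L G :=
    MonoidAlgebra.liftNCRingHom (Int.castRingHom (MonoidAlgebra L G))
      (1 : Multiplicative PUnit.{1} →* MonoidAlgebra L G) fun _ _ => Commute.one_right _
  let ι : ℤ →+* MonoidAlgebra ℤ (Multiplicative PUnit.{1}) := MonoidAlgebra.singleOneRingHom
  have h1 : φ.comp ι = Int.castRingHom (MonoidAlgebra L G) := Subsingleton.elim _ _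
  have h2 := whTL_one isEuc_int (Multiplicative PUnit.{1}) K (pullK φ κ) (fun g u => ?_) m
    (W.map ι) (hW.map ι.mapMatrix)
  · change κ.f ((W.map ι).map φ) = 1 at h2
    rw [Matrix.map_map] at h2
    rw [← h2]
    congr 1
    rw [← h1]
    rfl
  · change κ.f (Matrix.map _ φ) = 1
    rw [← hκ 1 (Units.map (Int.castRingHom L).toMonoidHom u)]
    congr 1
    refine Matrix.ext fun i j => ?_
    rw [Matrix.map_apply, Matrix.of_apply, Matrix.of_apply]
    have h3 : g = 1 := Subsingleton.elim _ _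
    rw [h3]
    change (φ.comp ι) (u : ℤ) = _
    rw [h1]
    change ((u : ℤ) : MonoidAlgebra L G) = MonoidAlgebra.single 1 (((u : ℤ) : ℤ) : L)
    exact (map_intCast (MonoidAlgebra.singleOneRingHom (R := L) (M := G)) (u : ℤ)).symm

end Pool.Agent.ZT1
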