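import Pool.Agent.Lib.MP_8f66f0_al_ZT1.Tr
import Pool.Agent.Lib.MP_8f66f0_al_ZT1.IntK

/-! Project ZERO, part T1 (A): assembly. -/

set_option autoImplicit false

namespace Pool.Agent.ZT1

open Pool.Agent.Wald Pool.Agent.FH Pool.Agent.Ind Pool.Agent.WaldL

section

variable {G : Type} [Group G] {S : Set G} {D : ℕ} {C : Type} [Fintype C] [DecidableEq C]

/-- The augmentation as a column. -/
def CAct.ac (Φ : CAct G S D C) : Matrix C Unit ℤ := fun c _ => Φ.aug c

/-- The base vertex as a row. -/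
def CAct.vr (Φ : CAct G S D C) : Matrix Unit C ℤ := fun _ c => (Pi.single Φ.v 1 : C → ℤ) c

theorem CAct.M_ac (Φ : CAct G S D C) (g : G) : Φ.M g * Φ.ac = Φ.ac :=
  Matrix.ext fun i _ => congrFun (Φ.Maug g) i

theorem CAct.deg_d (Φ : CAct G S D C) : Deg Φ.dim Φ.dim (-1) Φ.d := by
  intro i j h
  have h1 := Φ.hd i j h
  omega

theorem CAct.deg_M (Φ : CAct G S D C) (g : G) : Deg Φ.dim Φ.dim 0 (Φ.M g) := by
  intro i j h
  have h1 := Φ.hM g i j h
  omega

theorem CAct.deg_H (Φ : CAct G S D C) (g h : G) : Deg Φ.dim Φ.dim 1 (Φ.H g h) := by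
  intro i j h
  have h1 := Φ.hH _ _ i j h
  omega

theorem CAct.deg_J (Φ : CAct G S D C) : Deg Φ.dim Φ.dim 1 Φ.J := by
  intro i j h
  have h1 := Φ.hJ i j h
  omega

theorem CAct.deg_k (Φ : CAct G S D C) : Deg Φ.dim Φ.dim 1 Φ.k := by
  intro i j h
  have h1 := Φ.hk i j h
  omega

theorem CAct.augZ (Φ : CAct G S D C) : Aug Φ.dim Φ.d Φ.k Φ.ac Φ.vr where
  hd := Φ.deg_d
  hk := Φ.deg_k
  hε a _ h := Φ.haug a h
  hη _ a h := by
    by_cases h1 : a = Φ.v
    · rw [h1]
      exact Φ.hv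
    · exact absurd (Pi.single_eq_of_ne h1 _) h
  dd := Φ.dd
  dε := Matrix.ext fun i _ => congrFun Φ.daug i
  ηε := by
    refine Matrix.ext fun _ _ => ?_
    rw [Matrix.mul_apply, Finset.sum_eq_single Φ.v]
    · change (Pi.single Φ.v 1 : C → ℤ) Φ.v * Φ.aug Φ.v = 1
      rw [Pi.single_eq_same, Φ.augv, one_mul]
    · intro b _ hb
      change (Pi.single Φ.v 1 : C → ℤ) b * Φ.aug b = 0
      rw [Pi.single_eq_of_ne hb, zero_mul]
    · intro h
      exact absurd (Finset.mem_univ _) h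
  ηk := by
    refine Matrix.ext fun _ c => ?_
    rw [Matrix.mul_apply, Finset.sum_eq_single Φ.v]
    · rw [Φ.kv, mul_zero]
      rfl
    · intro b _ hb
      change (Pi.single Φ.v 1 : C → ℤ) b * Φ.k b c = 0
      rw [Pi.single_eq_of_ne hb, zero_mul]
    · intro h
      exact absurd (Finset.mem_univ _) h
  kk := by
    rw [Φ.kk]
    congr 1
    refine Matrix.ext fun i j => ?_
    rw [Matrix.mul_apply, Fintype.sum_unique]
    rfl

variable {L : Type} [CommRing L] {n : Type} [Fintype n] [DecidableEq n]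

theorem CAct.augL (Φ : CAct G S D C) :
    Aug (fun i : n × C => Φ.dim i.2) (cst L G n Φ.d) (cst L G n Φ.k) (cst L G n Φ.ac)
      (cst L G n Φ.vr) where
  hd := deg_sgk _ _ _ Φ.deg_d
  hk := deg_sgk _ _ _ Φ.deg_k
  hε a b h := by
    have h1 := deg_sgk (dC := Φ.dim) (dC' := fun _ => 0) (k := 0) (1 : G) (1 : Matrix n n L) Φ.ac
      (fun i _ hi => by
        have h2 := Φ.augZ.hε i _ hi
        rw [h2]
        rfl) a b h
    simp only [Nat.cast_zero, add_zero] at h1
    exact_mod_cast h1.symm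
  hη b a h := by
    have h1 := deg_sgk (dC := fun _ => 0) (dC' := Φ.dim) (k := 0) (1 : G) (1 : Matrix n n L) Φ.vr
      (fun _ i hi => by
        have h2 := Φ.augZ.hη _ i hi
        rw [h2]
        rfl) b a h
    simp only [Nat.cast_zero, add_zero] at h1
    exact_mod_cast h1
  dd := by rw [cst_mul, Φ.augZ.dd, cst_zero]
  dε := by rw [cst_mul, Φ.augZ.dε, cst_zero]
  ηε := by rw [cst_mul, Φ.augZ.ηε, cst_one]
  ηk := by rw [cst_mul, Φ.augZ.ηk, cst_zero]
  kk := by rw [cst_mul, cst_mul, cst_mul, ← cst_add, Φ.augZ.kk, cst_sub, cst_one]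

omit [Fintype n] in
theorem esg_cst (Φ : CAct G S D C) :
    esg (MonoidAlgebra L G) (fun i : n × C => Φ.dim i.2) = cst L G n (esg ℤ Φ.dim) := by
  refine Matrix.ext fun a b => ?_
  change Matrix.diagonal _ a b = MonoidAlgebra.single (1 : G) ((1 : Matrix n n L) a.1 b.1 *
    ((Matrix.diagonal _ a.2 b.2 : ℤ) : L))
  rw [Matrix.diagonal_apply, Matrix.diagonal_apply, Matrix.one_apply]
  by_cases h1 : a.1 = b.1
  · by_cases h2 : a.2 = b.2
    · rw [if_pos h1, if_pos h2, if_pos (Prod.ext h1 h2), one_mul]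
      by_cases h3 : Even (Φ.dim a.2)
      · rw [if_pos h3, if_pos h3, Int.cast_neg, Int.cast_one, MonoidAlgebra.single_neg,
          MonoidAlgebra.one_def]
      · rw [if_neg h3, if_neg h3, Int.cast_one, MonoidAlgebra.one_def]
    · rw [if_neg h2, if_neg fun h => h2 (congrArg Prod.snd h), Int.cast_zero, mul_zero,
        MonoidAlgebra.single_zero]
  · rw [if_neg h1, if_neg fun h => h1 (congrArg Prod.fst h), zero_mul,
      MonoidAlgebra.single_zero]

theorem w_kill (Φ : CAct G S D C) {K : Type} [CommGroup K] (κ : K1Fun (MonoidAlgebra L G) K)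
    (hκ : KU κ) :
    κ.f (wmat (fun i : n × C => Φ.dim i.2) (cst L G n Φ.d) (cst L G n Φ.k) (cst L G n Φ.ac)
      (cst L G n Φ.vr)) = 1 := by
  unfold wmat
  rw [esg_cst, ← cst_add, cst_mul, cst_mul, ← cst_add]
  set W : Matrix C C ℤ := esg ℤ Φ.dim * (Φ.d + Φ.k) + Φ.ac * Φ.vr with hW
  have hu : IsUnit W := Φ.augZ.unit_w D Φ.dim_le
  obtain ⟨⟨W₁, W₂, h1, h2⟩, h3⟩ := hu
  change W₁ = W at h3
  subst h3
  let Z : Matrix C C ℤ → Matrix (n × C) (n × C) ℤ := fun X a b =>
    if a.1 = b.1 then X a.2 b.2 else 0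
  have hZ : ∀ X Y : Matrix C C ℤ, X * Y = 1 → Z X * Z Y = 1 := by
    intro X Y hXY
    refine Matrix.ext fun a b => ?_
    rw [Matrix.mul_apply, Fintype.sum_prod_type, Finset.sum_eq_single a.1]
    · change ∑ c, (if a.1 = a.1 then X a.2 c else 0) * (if a.1 = b.1 then Y c b.2 else 0) = _
      by_cases h4 : a.1 = b.1
      · have h5 := congrFun (congrFun hXY a.2) b.2
        rw [Matrix.mul_apply] at h5
        simp only [if_true, if_pos h4]
        rw [h5, Matrix.one_apply, Matrix.one_apply]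
        by_cases h6 : a.2 = b.2
        · rw [if_pos h6, if_pos (Prod.ext h4 h6)]
        · rw [if_neg h6, if_neg fun h => h6 (congrArg Prod.snd h)]
      · simp only [if_neg h4, mul_zero]
        rw [Finset.sum_const_zero, Matrix.one_apply_ne fun h => h4 (congrArg Prod.fst h)]
    · intro i _ hi
      refine Finset.sum_eq_zero fun c _ => ?_
      change (if a.1 = i then X a.2 c else 0) * _ = 0
      rw [if_neg hi.symm, zero_mul]
    · intro h
      exact absurd (Finset.mem_univ _) h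
  have h4 : cst L G n W = (Z W).map (Int.castRingHom (MonoidAlgebra L G)) := by
    refine Matrix.ext fun a b => ?_
    change MonoidAlgebra.single (1 : G) ((1 : Matrix n n L) a.1 b.1 * ((W a.2 b.2 : ℤ) : L)) =
      Int.castRingHom (MonoidAlgebra L G) (if a.1 = b.1 then W a.2 b.2 else 0)
    rw [Matrix.one_apply]
    by_cases h5 : a.1 = b.1
    · rw [if_pos h5, if_pos h5, one_mul]
      exact map_intCast (MonoidAlgebra.singleOneRingHom (R := L) (M := G)) (W a.2 b.2)
    · rw [if_neg h5, if_neg h5, zero_mul, MonoidAlgebra.single_zero, map_zero]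
  change κ.f (cst L G n W) = 1
  rw [h4]
  exact int_kill κ hκ _ ⟨⟨Z W, Z W₂, hZ _ _ h1, hZ _ _ h2⟩, rfl⟩

omit [Fintype C] [DecidableEq C] in
theorem supR_csig {X : Type} [MulAction G X] {E : X → X → Prop} {p : C → X} {dim : C → ℕ}
    {Y : Matrix (C ⊕ C) (C ⊕ C) (MonoidAlgebra L G)} (hY : SupR E (Sum.elim p p) (Sum.elim p p) Y)
    (ρ ρ' : C → C ⊕ C) (h : ρ = csig dim ∨ ρ = ctau dim) (h' : ρ' = csig dim ∨ ρ' = ctau dim) :
    SupR E p p (Y.submatrix ρ ρ') := by
  have h1 : ∀ r : C → C ⊕ C, r = csig dim ∨ r = ctau dim →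
      (fun i => Sum.elim p p (r i)) = p := by
    intro r hr
    funext i
    rcases hr with rfl | rfl
    · unfold csig
      split_ifs <;> rfl
    · unfold ctau
      split_ifs <;> rfl
  have h2 := hY.submatrix ρ ρ'
  rw [h1 ρ h, h1 ρ' h'] at h2
  exact h2

end

/-- **Part A**. -/
theorem sA : S_A := by
  intro D
  refine ⟨6 * (D + 2) + 3, ?_⟩
  intro L G X _ _ _ N t S C _ _ Φ pos hS hctl n _ _ A B hAB hBA hsA hsB
  classical
  set T : Finset G := hS.toFinset with hT
  have hsA' : ∀ i j g, (A i j).coeff g ≠ 0 → g ∈ T := fun i j g h =>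
    hS.mem_toFinset.2 (hsA i j g h)
  have hsB' : ∀ i j g, (B i j).coeff g ≠ 0 → g ∈ T := fun i j g h =>
    hS.mem_toFinset.2 (hsB i j g h)
  set dim : n × C → ℕ := fun i => Φ.dim i.2 with hdim
  set p : n × C → X := fun i => pos i.2 with hp
  set d := cst L G n Φ.d with hd
  set f := Tf Φ.M A with hf
  set f' := Tf Φ.M B with hf'
  have hHH : ∀ s ∈ T, ∀ u ∈ T, Φ.M s * Φ.M u - Φ.M (s * u) =
      Φ.d * Φ.H s u + Φ.H s u * Φ.d := fun s hs u hu =>
    Φ.HH s (hS.mem_toFinset.1 hs) u (hS.mem_toFinset.1 hu)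
  have hone : Tf Φ.M (1 : Matrix n n (MonoidAlgebra L G)) =
      1 + (d * cst L G n Φ.J + cst L G n Φ.J * d) := by
    rw [Tf_one, hd, cst_mul, cst_mul, ← cst_add, ← Φ.JJ, cst_sub, cst_one, add_sub_cancel]
  have hrel : ∀ U V : Matrix n n (MonoidAlgebra L G), U * V = 1 →
      (∀ i j g, (U i j).coeff g ≠ 0 → g ∈ T) → (∀ i j g, (V i j).coeff g ≠ 0 → g ∈ T) →
      Tf Φ.M U * Tf Φ.M V - 1 = d * (hmt T Φ.H U V + cst L G n Φ.J) +
        (hmt T Φ.H U V + cst L G n Φ.J) * d := by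
    intro U V hUV hU hV
    rw [Tf_mul T Φ.M Φ.d Φ.H hHH U V hU hV, hUV, hone, Matrix.mul_add, Matrix.add_mul]
    abel
  set h := hmt T Φ.H A B + cst L G n Φ.J with hh
  set h' := hmt T Φ.H B A + cst L G n Φ.J with hh'
  have r1 : f * f' - 1 = d * h + h * d := hrel A B hAB hsA' hsB'
  have r2 : f' * f - 1 = d * h' + h' * d := hrel B A hBA hsB' hsA'
  have dg_d : Deg dim dim (-1) d := deg_sgk _ _ _ Φ.deg_d
  have dg_f : Deg dim dim 0 f := deg_Tf _ Φ.deg_M A
  have dg_f' : Deg dim dim 0 f' := deg_Tf _ Φ.deg_M B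
  have dg_hm : ∀ U V : Matrix n n (MonoidAlgebra L G),
      Deg dim dim 1 (hmt T Φ.H U V + cst L G n Φ.J) := fun U V =>
    (deg_sum _ _ fun s _ => deg_sum _ _ fun u _ => deg_sgk _ _ _ (Φ.deg_H s u)).add
      (deg_sgk _ _ _ Φ.deg_J)
  have fd : f * d = d * f := Tf_cst T Φ.M Φ.M Φ.d Φ.Md A hsA'
  have f'd : f' * d = d * f' := Tf_cst T Φ.M Φ.M Φ.d Φ.Md B hsB'
  have hdd : d * d = 0 := by rw [hd, cst_mul, Φ.dd, cst_zero]
  have hc : Contr (cdel dim) (coneD d f) (coneS f f' h h') :=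
    coneS_contr dg_d dg_f dg_f' (dg_hm A B) (dg_hm B A) hdd fd f'd r1 r2
  have hN : ∀ i, cdel dim i ≤ D + 1 := by
    rintro (a | a)
    · exact Nat.succ_le_succ (Φ.dim_le a.2)
    · exact (Φ.dim_le a.2).trans (Nat.le_succ D)
  have P := cparts dim
  obtain ⟨i1, i2⟩ := hc.inv P (D + 1) hN
  -- control
  have c_d : SupR (N.near t) p p d := supR_sgk _ _ _ fun c c' hcc => by
    rw [one_smul]
    exact hctl.d c c' hcc
  have c_f : SupR (N.near t) p p f := supR_Tf _ S A hsA fun g hg c c' hcc => hctl.M g hg c c' hcc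
  have c_f' : SupR (N.near t) p p f' := supR_Tf _ S B hsB fun g hg c c' hcc =>
    hctl.M g hg c c' hcc
  have c_hm : ∀ U V : Matrix n n (MonoidAlgebra L G),
      SupR (N.near t) p p (hmt T Φ.H U V + cst L G n Φ.J) := by
    intro U V
    refine SupR.add ?_ ?_
    · refine supR_sum _ _ fun s hs => supR_sum _ _ fun u hu => supR_sgk _ _ _ fun c c' hcc => ?_
      exact hctl.H s (hS.mem_toFinset.1 hs) u (hS.mem_toFinset.1 hu) c c' hcc
    · refine supR_sgk _ _ _ fun c c' hcc => ?_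
      rw [one_smul]
      exact hctl.J c c' hcc
  have c_th : SupR (N.near (2 * t)) p p (h * f - f * h') := by
    rw [two_mul]
    exact ((c_hm A B).near_mul c_f).sub (c_f.near_mul (c_hm B A))
  have c_D : SupR (N.near (3 * t)) (Sum.elim p p) (Sum.elim p p) (coneD d f) :=
    SupR.fromBlocks (c_d.neg.near_mono (by omega)) (c_f.near_mono (by omega)) SupR.zero
      (c_d.near_mono (by omega))
  have c_S : SupR (N.near (3 * t)) (Sum.elim p p) (Sum.elim p p) (coneS f f' h h') :=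
    SupR.fromBlocks ((c_hm A B).near_mono (by omega))
      (((c_hm A B).near_mul c_th).neg.near_mono (by omega)) (c_f'.near_mono (by omega))
      (((c_hm B A).neg.near_mono (by omega)).sub ((c_f'.near_mul c_th).near_mono (by omega)))
  have c_b := supR_csig (dim := dim) (c_D.add c_S) (csig dim) (ctau dim) (Or.inl rfl) (Or.inr rfl)
  have c_c := supR_csig (dim := dim) (c_D.add c_S) (ctau dim) (csig dim) (Or.inr rfl) (Or.inl rfl)
  have c_q := supR_csig (dim := dim) (c_S.near_mul c_S) (csig dim) (csig dim) (Or.inl rfl)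
    (Or.inl rfl)
  have c_g : SupR (N.near ((D + 2) * (3 * t + 3 * t))) p p (∑ j ∈ Finset.range (D + 1 + 1),
      (-((coneS f f' h h' * coneS f f' h h').submatrix (csig dim) (csig dim))) ^ j) := by
    refine supR_sum _ _ fun j hj => (supR_pow c_q.neg j).near_mono ?_
    exact Nat.mul_le_mul_right _ (Finset.mem_range.1 hj).le
  refine ⟨_, _, i1, i2, c_b.near_mono ?_, (c_c.near_mul c_g).near_mono ?_, ?_⟩
  · nlinarith
  · nlinarith
  · intro K _ κ hκ
    have m1 : ∀ g : G, (fun _ : G => (1 : Matrix Unit Unit ℤ)) g = 1 := fun _ => rfl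
    set x := Tf (fun _ : G => (1 : Matrix Unit Unit ℤ)) A with hx
    set y := Tf (fun _ : G => (1 : Matrix Unit Unit ℤ)) B with hy
    have hxy : ∀ U V : Matrix n n (MonoidAlgebra L G), U * V = 1 →
        (∀ i j g, (U i j).coeff g ≠ 0 → g ∈ T) → (∀ i j g, (V i j).coeff g ≠ 0 → g ∈ T) →
        Tf (fun _ : G => (1 : Matrix Unit Unit ℤ)) U *
          Tf (fun _ : G => (1 : Matrix Unit Unit ℤ)) V = 1 := by
      intro U V hUV hU hV
      rw [Tf_mul T (fun _ => 1) 0 (fun _ _ => 0) (fun s _ u _ => by simp) U V hU hV, hUV, Tf_one,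
        cst_one, cst_zero]
      simp
    have hfe : f * cst L G n Φ.ac = cst L G n Φ.ac * x :=
      Tf_cst T Φ.M (fun _ => 1) Φ.ac (fun g => by rw [Φ.M_ac, Matrix.mul_one]) A hsA'
    have hm := Φ.augL.main (hxy A B hAB hsA' hsB') (hxy B A hBA hsB' hsA') D
      (fun a => Φ.dim_le a.2) dg_f fd hfe hc κ
    rw [hm, w_kill Φ κ hκ, one_mul]
    have hxA : Tf (fun _ : G => (1 : Matrix Unit Unit ℤ)) A = A.submatrix (Equiv.prodPUnit n) (Equiv.prodPUnit n) := by
      refine Matrix.ext fun a b => ?_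
      apply MonoidAlgebra.coeff_injective
      ext g
      change (A a.1 b.1).coeff g * (((1 : Matrix Unit Unit ℤ) a.2 b.2 : ℤ) : L) =
        (A a.1 b.1).coeff g
      rw [Matrix.one_apply, if_pos (Subsingleton.elim _ _), Int.cast_one, mul_one]
    rw [hxA]
    exact κ.reindex (Equiv.prodPUnit n).symm A ⟨⟨A, B, hAB, hBA⟩, rfl⟩

end Pool.Agent.ZT1
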