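import Pool.Agent.Lib.MP_8f66f0_al_ZT1.Defs

/-! Project ZERO, part T1: the interface between the algebraic part (A) and the geometric
part (B).

Matrices act on row vectors from the right, so `M g * M h` is `M g` followed by `M h`. -/

set_option autoImplicit false

namespace Pool.Agent.ZT1

open Pool.Agent.Wald Pool.Agent.Ind Pool.Agent.WaldL Pool.Agent.FH

/-- A homotopy action of the subset `S` of `G` on an augmented contractible based chain complex of
free abelian groups of dimension at most `D`. -/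
structure CAct (G : Type) [Group G] (S : Set G) (D : ℕ) (C : Type) [Fintype C]
    [DecidableEq C] where
  dim : C → ℕ
  d : Matrix C C ℤ
  M : G → Matrix C C ℤ
  H : G → G → Matrix C C ℤ
  J : Matrix C C ℤ
  aug : C → ℤ
  v : C
  k : Matrix C C ℤ
  dim_le : ∀ c, dim c ≤ D
  hd : ∀ c c', d c c' ≠ 0 → dim c = dim c' + 1
  hM : ∀ g c c', M g c c' ≠ 0 → dim c' = dim c
  hH : ∀ g h c c', H g h c c' ≠ 0 → dim c' = dim c + 1
  hJ : ∀ c c', J c c' ≠ 0 → dim c' = dim c + 1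
  hk : ∀ c c', k c c' ≠ 0 → dim c' = dim c + 1
  haug : ∀ c, aug c ≠ 0 → dim c = 0
  hv : dim v = 0
  dd : d * d = 0
  Md : ∀ g, M g * d = d * M g
  HH : ∀ g ∈ S, ∀ h ∈ S, M g * M h - M (g * h) = d * H g h + H g h * d
  JJ : M 1 - 1 = d * J + J * d
  daug : d.mulVec aug = 0
  Maug : ∀ g, (M g).mulVec aug = aug
  augv : aug v = 1
  kk : d * k + k * d = 1 - Matrix.vecMulVec aug (Pi.single v 1)
  kv : ∀ c, k v c = 0

/-- Control of a homotopy action by positions `pos` in `X`. -/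
structure CtlC {G X : Type} [Group G] [MulAction G X] (N : Met G X) (t : ℕ) {S : Set G} {D : ℕ}
    {C : Type} [Fintype C] [DecidableEq C] (A : CAct G S D C) (pos : C → X) : Prop where
  d : ∀ c c', A.d c c' ≠ 0 → N.near t (pos c) (pos c')
  M : ∀ g ∈ S, ∀ c c', A.M g c c' ≠ 0 → N.near t (pos c) (g • pos c')
  H : ∀ g ∈ S, ∀ h ∈ S, ∀ c c', A.H g h c c' ≠ 0 → N.near t (pos c) ((g * h) • pos c')
  J : ∀ c c', A.J c c' ≠ 0 → N.near t (pos c) (pos c')

/-- **Part A** (algebra). -/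
def S_A : Prop :=
  ∀ D : ℕ, ∃ K : ℕ, ∀ (L G X : Type) [CommRing L] [Group G] [MulAction G X] (N : Met G X) (t : ℕ)
    (S : Set G) (C : Type) [Fintype C] [DecidableEq C] (Φ : CAct G S D C) (pos : C → X),
    S.Finite → CtlC N t Φ pos →
    ∀ (n : Type) [Fintype n] [DecidableEq n] (A B : Matrix n n (MonoidAlgebra L G)),
      A * B = 1 → B * A = 1 → (∀ i j g, (A i j).coeff g ≠ 0 → g ∈ S) →
      (∀ i j g, (B i j).coeff g ≠ 0 → g ∈ S) →
      ∃ (α β : Matrix (n × C) (n × C) (MonoidAlgebra L G)), α * β = 1 ∧ β * α = 1 ∧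
        SupR (N.near (K * t)) (fun i => pos i.2) (fun i => pos i.2) α ∧
        SupR (N.near (K * t)) (fun i => pos i.2) (fun i => pos i.2) β ∧
        ∀ (K : Type) [CommGroup K] (κ : K1Fun (MonoidAlgebra L G) K), KU κ → κ.f α = κ.f A

/-- **Part B** (geometry): `M g` is a chain approximation of `φ g⁻¹`. -/
def S_B : Prop :=
  ∀ D : ℕ, ∃ K : ℕ, ∀ (G X : Type) [Group G] [MulAction G X] (N : Met G X) (t : ℕ)
    (Φ : HAct G D) (S : Set G) (p : (Fin D → ℝ) → X), S.Finite → (1 : G) ∈ S →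
    (∀ g ∈ S, g⁻¹ ∈ S) → AlmEq N t Φ S p →
    ∃ (C : Type) (_ : Fintype C) (_ : DecidableEq C) (Ψ : CAct G S D C) (q : C → Fin D → ℝ),
      CtlC N (K * t) Ψ fun c => p (Φ.ρ (q c))

theorem t1_of (hA : S_A) (hB : S_B) : S_T1 := by
  intro D
  obtain ⟨K₁, h1⟩ := hA D
  obtain ⟨K₂, h2⟩ := hB D
  refine ⟨K₁ * K₂, fun L G X _ _ _ N t Φ S p hS h1S hinv hp n _ _ A B hAB hBA hsA hsB => ?_⟩
  obtain ⟨C, _, _, Ψ, q, hq⟩ := h2 G X N t Φ S p hS h1S hinv hp
  obtain ⟨α, β, h3, h4, h5, h6, h7⟩ :=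
    h1 L G X N (K₂ * t) S C Ψ _ hS hq n A B hAB hBA hsA hsB
  rw [← mul_assoc] at h5 h6
  exact ⟨n × C, inferInstance, inferInstance, fun i => q i.2, α, β, h3, h4, h5, h6, h7⟩

end Pool.Agent.ZT1
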