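import Pool.Agent.Lib.MP_8f66f0_al_ZT1.Act

/-! Project ZERO, part T1 (transfer), geometric part (B): the modules.

Conventions: matrices act on row vectors from the right; a chain is a row vector; `d i j ≠ 0` means
that the cell `j` occurs in the boundary of the cell `i`. -/

set_option autoImplicit false

namespace Pool.Agent.ZT1

open Pool.Agent.Wald Pool.Agent.Ind Pool.Agent.WaldL Pool.Agent.FH Topology

/-- The subcomplex spanned by `Q` is contractible to a vertex `v` in `Q`, by a contraction of the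
whole complex. -/
def Ctr {ι : Type} [Fintype ι] [DecidableEq ι] (dim : ι → ℕ) (d : Matrix ι ι ℤ) (ε : ι → ℤ)
    (Q : Set ι) : Prop :=
  ∃ (s : Matrix ι ι ℤ) (v : ι), (∀ i j, s i j ≠ 0 → dim j = dim i + 1) ∧ v ∈ Q ∧ dim v = 0 ∧
    ε v = 1 ∧ d * s + s * d = 1 - Matrix.vecMulVec ε (Pi.single v 1) ∧ (∀ j, s v j = 0) ∧
    ∀ i ∈ Q, ∀ j, s i j ≠ 0 → j ∈ Q

/-- The chain complex of the cube `[-M, M]^D`, subdivided into unit cubes. The cell `i` is the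
product of the intervals `[lo i k, hi i k]`. -/
structure Gr (D M : ℕ) where
  ι : Type
  fin : Fintype ι
  dec : DecidableEq ι
  dim : ι → ℕ
  d : Matrix ι ι ℤ
  ε : ι → ℤ
  lo : ι → Fin D → ℤ
  hi : ι → Fin D → ℤ
  dim_le : ∀ i, dim i ≤ D
  hd : ∀ i j, d i j ≠ 0 → dim i = dim j + 1
  dd : d * d = 0
  hε : ∀ i, ε i ≠ 0 → dim i = 0
  dε : d.mulVec ε = 0
  bd : ∀ i k, -(M : ℤ) ≤ lo i k ∧ lo i k ≤ hi i k ∧ hi i k ≤ lo i k + 1 ∧ hi i k ≤ M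
  face : ∀ i j, d i j ≠ 0 → ∀ k, lo i k ≤ lo j k ∧ hi j k ≤ hi i k
  ctr : ∀ a b : Fin D → ℤ, (∀ k, -(M : ℤ) ≤ a k ∧ a k ≤ b k ∧ b k ≤ M) →
    Ctr dim d ε {i | ∀ k, a k ≤ lo i k ∧ hi i k ≤ b k}

attribute [instance] Gr.fin Gr.dec

/-- **Path**. Dimensions `0` and `1`.

Proof. Dimension `1`. Cells: the integers `x` with `-2 M ≤ x ≤ 2 M`; `x = 2 v` is the vertex `v`,
`x = 2 v + 1` is the edge `[v, v + 1]`; `lo x = x / 2`, `hi x = (x + 1) / 2`, `dim x = x % 2`,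
`ε x = 1` for even `x`; `d x (x + 1) = 1`, `d x (x - 1) = -1` for odd `x`. The contraction for
`[a, b]`: the base point is `2 a`; `s x y`, for even `x` and odd `y`, is `1` if `2 a < y < x` and
`-1` if `x < y < 2 a`. -/
def S_path : Prop := ∀ M : ℕ, Nonempty (Gr 0 M) ∧ Nonempty (Gr 1 M)

/-- **Prod**. The product of a subdivided interval and a subdivided cube.

Proof. Cells `Γ₁.ι × Γ.ι`, `dim = dim₁ + dim`, `d = d₁ ⊗ 1 + sg₁ ⊗ d` (Kronecker products,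
`sg₁ = diagonal ((-1) ^ dim₁)`), `ε = ε₁ ⊗ ε`, `lo = Fin.cons (lo₁ 0) lo`. The contraction is
`s₁ ⊗ 1 + (vecMulVec ε₁ δ_(v₁)) ⊗ s`, the base point `(v₁, v)`: `d₁ ε₁ = 0`,
`δ_(v₁) d₁ = 0` (degrees), `sg₁ s₁ = - s₁ sg₁`, `sg₁ ε₁ = ε₁`. -/
def S_prod : Prop := ∀ D M : ℕ, Gr 1 M → Gr D M → Nonempty (Gr (D + 1) M)

/-- A chain map with augmentation which maps the cell `i` into `Q i`. -/
def CMap {D M : ℕ} (Γ : Gr D M) (Q : Γ.ι → Set Γ.ι) (F : Matrix Γ.ι Γ.ι ℤ) : Prop :=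
  (∀ i j, F i j ≠ 0 → Γ.dim j = Γ.dim i) ∧ F * Γ.d = Γ.d * F ∧ F.mulVec Γ.ε = Γ.ε ∧
    ∀ i j, F i j ≠ 0 → j ∈ Q i

/-- A chain homotopy between `F` and `F'` which maps the cell `i` into `Q i`. -/
def CHtp {D M : ℕ} (Γ : Gr D M) (Q : Γ.ι → Set Γ.ι) (F F' H : Matrix Γ.ι Γ.ι ℤ) : Prop :=
  (∀ i j, H i j ≠ 0 → Γ.dim j = Γ.dim i + 1) ∧ F - F' = Γ.d * H + H * Γ.d ∧
    ∀ i j, H i j ≠ 0 → j ∈ Q i

/-- **Car**. Acyclic carriers.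

Proof. Maps: rows `F_0 i = ε i • δ_(v_i)`, `F_(n+1) i = (∑_j d i j • F_n j) ᵥ* s_i`,
`F i = F_(dim i) i`. For `z = ∑_j d i j • F j` (`dim i = n + 1`): `z ᵥ* d = 0` and `z ⬝ᵥ ε = 0` by
induction, so `(z ᵥ* s_i) ᵥ* d = z`. Homotopies: `H_0 i = (F i - F' i) ᵥ* s_i`,
`H_(n+1) i = (F i - F' i - ∑_j d i j • H_n j) ᵥ* s_i`. -/
def S_car : Prop :=
  ∀ (D M : ℕ) (Γ : Gr D M) (Q : Γ.ι → Set Γ.ι), (∀ i, Ctr Γ.dim Γ.d Γ.ε (Q i)) →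
    (∀ i j, Γ.d i j ≠ 0 → Q j ⊆ Q i) →
    (∃ F, CMap Γ Q F) ∧ ∀ F F', CMap Γ Q F → CMap Γ Q F' → ∃ H, CHtp Γ Q F F' H

/-- The cell `i` for the mesh `e`. -/
def cell {D M : ℕ} (Γ : Gr D M) (e : ℝ) (i : Γ.ι) : Set (Fin D → ℝ) :=
  {x | ∀ k, e * Γ.lo i k ≤ x k ∧ x k ≤ e * Γ.hi i k}

/-- The cube `[-c, c]^D`. -/
def cube (D : ℕ) (c : ℝ) : Set (Fin D → ℝ) := {x | ∀ k, |x k| ≤ c}

/-- The cells in the smallest box (with integral coordinates, rounded down) around `W`. -/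
def bx {D M : ℕ} (Γ : Gr D M) (e : ℝ) (W : Set (Fin D → ℝ)) : Set Γ.ι :=
  {j | ∀ k, ⌊sInf ((fun x => x k) '' W) / e⌋ ≤ Γ.lo j k ∧
    Γ.hi j k ≤ ⌊sSup ((fun x => x k) '' W) / e⌋}

/-- **Bx**. The properties of `bx`. -/
def S_bx : Prop :=
  ∀ (D M : ℕ) (Γ : Gr D M) (e : ℝ), 0 < e →
    (∀ W, W.Nonempty → W ⊆ cube D (e * M) → Ctr Γ.dim Γ.d Γ.ε (bx Γ e W)) ∧
    (∀ W W', W.Nonempty → W ⊆ W' → W' ⊆ cube D (e * M) → bx Γ e W ⊆ bx Γ e W') ∧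
    (∀ W, W.Nonempty → W ⊆ cube D (e * M) → ∀ r : ℝ, (∀ w ∈ W, ∀ w' ∈ W, ∀ k, w k - w' k ≤ r) →
      ∀ j ∈ bx Γ e W, ∀ z ∈ cell Γ e j, ∀ w ∈ W, ∀ k, |z k - w k| ≤ r + e) ∧
    (∀ i, i ∈ bx Γ e (cell Γ e i)) ∧ (∀ i, (fun k => e * (Γ.lo i k : ℝ)) ∈ cell Γ e i) ∧
    (∀ i, cell Γ e i ⊆ cube D (e * M)) ∧ (∀ i j, Γ.d i j ≠ 0 → cell Γ e j ⊆ cell Γ e i) ∧
    (∀ i, ∀ x ∈ cell Γ e i, ∀ y ∈ cell Γ e i, ∀ k, |x k - y k| ≤ e)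

/-- **Comp** (uses `S_car`, `S_bx`). Composition, on a fine grid.

Proof. `W i = ψ '' (φ '' cell i ∪ ⋃ j ∈ bx (φ '' cell i), cell j)`; `φ`, `ψ` are uniformly
continuous on the cube. -/
def S_comp : Prop :=
  ∀ (D : ℕ) (c δ : ℝ) (φ ψ : (Fin D → ℝ) → (Fin D → ℝ)), 0 < c → 0 < δ → Continuous φ →
    Continuous ψ → (∀ x ∈ cube D c, φ x ∈ cube D c) → (∀ x ∈ cube D c, ψ x ∈ cube D c) →
    ∃ M₀ : ℕ, ∀ M : ℕ, M₀ ≤ M → ∀ (Γ : Gr D M) (e : ℝ), e * M = c →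
      ∀ F F' F'' : Matrix Γ.ι Γ.ι ℤ, CMap Γ (fun i => bx Γ e (φ '' cell Γ e i)) F →
        CMap Γ (fun i => bx Γ e (ψ '' cell Γ e i)) F' →
        CMap Γ (fun i => bx Γ e ((fun x => ψ (φ x)) '' cell Γ e i)) F'' →
        ∃ H, CHtp Γ (fun i => {j | ∀ x ∈ cell Γ e i, ∀ z ∈ cell Γ e j, ∀ k,
          |z k - ψ (φ x) k| ≤ δ}) (F * F') F'' H

/-- **Htp** (uses `S_car`, `S_bx`). Homotopies, on a fine grid.

Proof. Divide `[0, 1]` into `N` intervals; a chain map `F_l` for `J (l / N)`; the homotopy from `F_l`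
to `F_(l+1)` is carried by `bx` of the image of the interval times the cell; add. -/
def S_htp : Prop :=
  ∀ (D : ℕ) (c δ : ℝ) (J : ℝ → (Fin D → ℝ) → (Fin D → ℝ)), 0 < c → 0 < δ →
    (Continuous fun q : ℝ × (Fin D → ℝ) => J q.1 q.2) →
    (∀ s, 0 ≤ s → s ≤ 1 → ∀ x ∈ cube D c, J s x ∈ cube D c) →
    ∃ M₀ : ℕ, ∀ M : ℕ, M₀ ≤ M → ∀ (Γ : Gr D M) (e : ℝ), e * M = c →
      ∀ F F' : Matrix Γ.ι Γ.ι ℤ, CMap Γ (fun i => bx Γ e (J 0 '' cell Γ e i)) F →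
        CMap Γ (fun i => bx Γ e (J 1 '' cell Γ e i)) F' →
        ∃ H, CHtp Γ (fun i => {j | ∃ s : ℝ, 0 ≤ s ∧ s ≤ 1 ∧ ∀ x ∈ cell Γ e i, ∀ z ∈ cell Γ e j,
          ∀ k, |z k - J s x k| ≤ δ}) F F' H

/-- **Geo** (uses `S_path`, `S_prod`, `S_car`, `S_bx`, `S_comp`, `S_htp`). `K = 3`.

Proof. `c` with `ρ x ∈ cube D c`, `0 < c`; `δ` such that `|x k - y k| ≤ δ` for all `k` implies
`near (2 t) (p (ρ x)) (p (ρ y))` for `x, y` in the cube (compactness); `M` large for the maps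
`φ (g⁻¹)` (`g ∈ S`), the pairs (`S_comp`), the homotopies `H (h⁻¹) (g⁻¹)` and
`J s x = (1 - s) x + s ρ x` (`S_htp`), and `e = c / M ≤ δ`. `M g` is a chain map for
`φ (g⁻¹)` (all `g`), `q i k = e * lo i k`. `H g h` = the sum of the homotopy from `M g * M h` to a
chain map for `φ (h⁻¹) ∘ φ (g⁻¹)` and the one from there to `M (g * h)`; `J` from `1` to
`M 1` (`Φ.φ 1 = ρ`), with the opposite sign. `k`, `v`: `ctr` for the whole cube. -/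
def S_geo : Prop := S_path → S_prod → S_car → S_bx → S_comp → S_htp → S_B

end Pool.Agent.ZT1
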