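import Pool.Agent.Lib.MP_8f66f0_al_ZT1.Ind

/-! Project ZERO, part T1 (A): mapping cones of self chain maps. The odd and the even part of the
cone are both identified with the given module. -/

set_option autoImplicit false

namespace Pool.Agent.ZT1

open Pool.Agent.Wald Pool.Agent.FH

section Par

variable {A : Type}

/-- The degree in the mapping cone. -/
def cdel (dim : A → ℕ) : A ⊕ A → ℕ := Sum.elim (fun a => dim a + 1) dim

/-- The odd part. -/
def csig (dim : A → ℕ) (a : A) : A ⊕ A := if Even (dim a) then Sum.inl a else Sum.inr a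

/-- The even part. -/
def ctau (dim : A → ℕ) (a : A) : A ⊕ A := if Even (dim a) then Sum.inr a else Sum.inl a

theorem cparts (dim : A → ℕ) : Parts (cdel dim) (csig dim) (ctau dim) := by
  constructor
  · have h : Function.LeftInverse (Sum.elim (csig dim) (ctau dim))
        (Sum.elim (csig dim) (ctau dim)) := by
      rintro (a | a)
      · change Sum.elim (csig dim) (ctau dim) (csig dim a) = _
        unfold csig
        split_ifs with h
        · change csig dim a = _
          rw [csig, if_pos h]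
        · change ctau dim a = _
          rw [ctau, if_neg h]
      · change Sum.elim (csig dim) (ctau dim) (ctau dim a) = _
        unfold ctau
        split_ifs with h
        · change ctau dim a = _
          rw [ctau, if_pos h]
        · change csig dim a = _
          rw [csig, if_neg h]
    exact ⟨h.injective, h.surjective⟩
  · intro a
    unfold csig
    split_ifs with h
    · change ¬ Even (dim a + 1)
      exact Nat.even_add_one.not.2 (not_not.2 h)
    · exact h
  · intro a
    unfold ctau
    split_ifs with h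
    · exact h
    · change Even (dim a + 1)
      exact Nat.even_add_one.2 h

end Par

section Cone

variable {Λ : Type} [Ring Λ] {A : Type} [Fintype A] [DecidableEq A]

/-- The differential of the mapping cone. -/
def coneD (d f : Matrix A A Λ) : Matrix (A ⊕ A) (A ⊕ A) Λ := Matrix.fromBlocks (-d) f 0 d

omit [Fintype A] [DecidableEq A] in
theorem deg_blocks {dim : A → ℕ} {k : ℤ} {a b c e : Matrix A A Λ} (ha : Deg dim dim k a)
    (hb : Deg dim dim (k + 1) b) (hc : Deg dim dim (k - 1) c) (he : Deg dim dim k e) :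
    Deg (cdel dim) (cdel dim) k (Matrix.fromBlocks a b c e) := by
  rintro (i | i) (j | j) h
  · have h1 := ha i j h
    change ((dim j + 1 : ℕ) : ℤ) = (dim i + 1 : ℕ) + k
    omega
  · have h1 := hb i j h
    change ((dim j : ℕ) : ℤ) = (dim i + 1 : ℕ) + k
    omega
  · have h1 := hc i j h
    change ((dim j + 1 : ℕ) : ℤ) = (dim i : ℕ) + k
    omega
  · exact he i j h

/-- Contractions of the cone in terms of blocks. -/
theorem cone_contr {dim : A → ℕ} {d f al ga f' be : Matrix A A Λ} (hd : Deg dim dim (-1) d)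
    (hf : Deg dim dim 0 f) (hal : Deg dim dim 1 al) (hga : Deg dim dim 2 ga)
    (hf' : Deg dim dim 0 f') (hbe : Deg dim dim 1 be) (dd : d * d = 0) (fd : f * d = d * f)
    (f'd : f' * d = d * f') (h1 : f * f' - 1 = d * al + al * d)
    (h2 : f * be + al * f = d * ga - ga * d) (h3 : f' * f - 1 = -(d * be + be * d)) :
    Contr (cdel dim) (coneD d f) (Matrix.fromBlocks al ga f' be) := by
  refine ⟨deg_blocks hd.neg (hf.cast (by norm_num)) Deg.zero hd,
    deg_blocks hal (hga.cast (by norm_num)) (hf'.cast (by norm_num)) hbe, ?_, ?_⟩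
  · unfold coneD
    rw [Matrix.fromBlocks_multiply, ← Matrix.fromBlocks_zero, Matrix.fromBlocks_inj]
    refine ⟨?_, ?_, ?_, ?_⟩
    · rw [Matrix.mul_zero, add_zero, neg_mul_neg, dd]
    · rw [neg_mul, fd, neg_add_cancel]
    · rw [Matrix.zero_mul, Matrix.mul_zero, add_zero]
    · rw [Matrix.zero_mul, zero_add, dd]
  · unfold coneD
    rw [Matrix.fromBlocks_multiply, Matrix.fromBlocks_multiply, Matrix.fromBlocks_add,
      ← Matrix.fromBlocks_one, Matrix.fromBlocks_inj]
    refine ⟨?_, ?_, ?_, ?_⟩
    · rw [Matrix.mul_zero, add_zero, neg_mul, mul_neg]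
      have h4 : f * f' = d * al + al * d + 1 := eq_add_of_sub_eq h1
      rw [h4]
      abel
    · have h4 : f * be = d * ga - ga * d - al * f := eq_sub_of_add_eq h2
      rw [h4, neg_mul]
      abel
    · rw [Matrix.zero_mul, Matrix.mul_zero, zero_add, add_zero, mul_neg, f'd, add_neg_cancel]
    · have h4 : f' * f = -(d * be + be * d) + 1 := eq_add_of_sub_eq h3
      rw [h4, Matrix.zero_mul, zero_add]
      abel

section Ring

variable {E : Type} [Ring E] {d f f' h h' : E}

theorem th_anti (fd : f * d = d * f) (h1 : f * f' - 1 = d * h + h * d)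
    (h2 : f' * f - 1 = d * h' + h' * d) :
    d * (h * f - f * h') + (h * f - f * h') * d = 0 := by
  have h3 : d * (h * f - f * h') + (h * f - f * h') * d =
      (d * h + h * d) * f - f * (d * h' + h' * d) + h * (f * d - d * f) +
        (f * d - d * f) * h' := by noncomm_ring
  rw [h3, ← h1, ← h2, fd, sub_self, mul_zero, zero_mul, add_zero, add_zero]
  noncomm_ring

theorem con_two (fd : f * d = d * f) (h1 : f * f' - 1 = d * h + h * d)
    (h2 : f' * f - 1 = d * h' + h' * d) :
    f * (-h' - f' * (h * f - f * h')) + h * f =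
      d * (-(h * (h * f - f * h'))) - -(h * (h * f - f * h')) * d := by
  have h3 := th_anti fd h1 h2
  set th := h * f - f * h' with hth
  have h4 : th * d = -(d * th) := eq_neg_of_add_eq_zero_right h3
  have h5 : f * (-h' - f' * th) + h * f = th - f * f' * th := by
    rw [hth]
    noncomm_ring
  have h6 : f * f' = d * h + h * d + 1 := eq_add_of_sub_eq h1
  calc f * (-h' - f' * th) + h * f = th - (d * h + h * d + 1) * th := by rw [h5, h6]
    _ = -(d * h * th) - h * (d * th) := by noncomm_ring
    _ = -(d * h * th) + h * (th * d) := by rw [h4]; noncomm_ring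
    _ = _ := by noncomm_ring

theorem con_three (fd : f * d = d * f) (f'd : f' * d = d * f')
    (h1 : f * f' - 1 = d * h + h * d) (h2 : f' * f - 1 = d * h' + h' * d) :
    f' * f - 1 = -(d * (-h' - f' * (h * f - f * h')) + (-h' - f' * (h * f - f * h')) * d) := by
  have h3 := th_anti fd h1 h2
  set th := h * f - f * h' with hth
  have h4 : -(d * (-h' - f' * th) + (-h' - f' * th) * d) =
      (d * h' + h' * d) + f' * (d * th + th * d) - (f' * d - d * f') * th := by noncomm_ring
  rw [h4, h3, f'd, sub_self, mul_zero, zero_mul, add_zero, sub_zero, h2]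

end Ring

/-- The explicit contraction of the cone of a homotopy equivalence. -/
def coneS (f f' h h' : Matrix A A Λ) : Matrix (A ⊕ A) (A ⊕ A) Λ :=
  Matrix.fromBlocks h (-(h * (h * f - f * h'))) f' (-h' - f' * (h * f - f * h'))

theorem coneS_contr {dim : A → ℕ} {d f f' h h' : Matrix A A Λ} (hd : Deg dim dim (-1) d)
    (hf : Deg dim dim 0 f) (hf' : Deg dim dim 0 f') (hh : Deg dim dim 1 h)
    (hh' : Deg dim dim 1 h') (dd : d * d = 0) (fd : f * d = d * f) (f'd : f' * d = d * f')
    (h1 : f * f' - 1 = d * h + h * d) (h2 : f' * f - 1 = d * h' + h' * d) :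
    Contr (cdel dim) (coneD d f) (coneS f f' h h') := by
  have hth : Deg dim dim 1 (h * f - f * h') :=
    ((hh.mul hf).cast (by norm_num)).sub ((hf.mul hh').cast (by norm_num))
  exact cone_contr hd hf hh ((hh.mul hth).neg.cast (by norm_num)) hf'
    (hh'.neg.sub ((hf'.mul hth).cast (by norm_num))) dd fd f'd h1 (con_two fd h1 h2)
    (con_three fd f'd h1 h2)

/-- Homotopic maps have isomorphic cones: transport of contractions. -/
theorem cone_conj {dim : A → ℕ} {d f g K1 : Matrix A A Λ} {s : Matrix (A ⊕ A) (A ⊕ A) Λ}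
    (hK : Deg dim dim 1 K1) (hfg : f - g = d * K1 + K1 * d)
    (hs : Contr (cdel dim) (coneD d f) s) :
    Matrix.fromBlocks 1 (-K1) 0 1 * coneD d f * Matrix.fromBlocks 1 K1 0 1 = coneD d g ∧
    Contr (cdel dim) (coneD d g)
      (Matrix.fromBlocks 1 (-K1) 0 1 * s * Matrix.fromBlocks 1 K1 0 1) := by
  have hU : Deg (cdel dim) (cdel dim) 0 (Matrix.fromBlocks 1 K1 0 1 :
      Matrix (A ⊕ A) (A ⊕ A) Λ) :=
    deg_blocks Deg.one (hK.cast (by norm_num)) Deg.zero Deg.one
  have hV : Deg (cdel dim) (cdel dim) 0 (Matrix.fromBlocks 1 (-K1) 0 1 :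
      Matrix (A ⊕ A) (A ⊕ A) Λ) :=
    deg_blocks Deg.one (hK.neg.cast (by norm_num)) Deg.zero Deg.one
  have h1 : (Matrix.fromBlocks 1 (-K1) 0 1 : Matrix (A ⊕ A) (A ⊕ A) Λ) * coneD d f *
      Matrix.fromBlocks 1 K1 0 1 = coneD d g := by
    unfold coneD
    rw [Matrix.fromBlocks_multiply, Matrix.fromBlocks_multiply, Matrix.fromBlocks_inj]
    have h2 : g = f - (d * K1 + K1 * d) := by rw [← hfg]; abel
    refine ⟨?_, ?_, ?_, ?_⟩
    · rw [Matrix.mul_zero, Matrix.mul_zero, Matrix.mul_one, Matrix.one_mul, add_zero, add_zero]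
    · rw [h2]
      noncomm_ring
    · simp only [Matrix.zero_mul, Matrix.mul_zero, add_zero]
    · simp only [Matrix.zero_mul, Matrix.one_mul, Matrix.mul_one, Matrix.mul_zero, zero_add]
  have hUV : (Matrix.fromBlocks 1 K1 0 1 : Matrix (A ⊕ A) (A ⊕ A) Λ) *
      Matrix.fromBlocks 1 (-K1) 0 1 = 1 := by
    rw [Matrix.fromBlocks_multiply, ← Matrix.fromBlocks_one, Matrix.fromBlocks_inj]
    refine ⟨?_, ?_, ?_, ?_⟩ <;> simp
  have hVU : (Matrix.fromBlocks 1 (-K1) 0 1 : Matrix (A ⊕ A) (A ⊕ A) Λ) *
      Matrix.fromBlocks 1 K1 0 1 = 1 := by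
    rw [Matrix.fromBlocks_multiply, ← Matrix.fromBlocks_one, Matrix.fromBlocks_inj]
    refine ⟨?_, ?_, ?_, ?_⟩ <;> simp
  refine ⟨h1, ?_, ?_, ?_, ?_⟩
  · rw [← h1]
    exact ((hV.mul hs.dD).mul hU).cast (by norm_num)
  · exact ((hV.mul hs.ds).mul hU).cast (by norm_num)
  · rw [← h1]
    set U : Matrix (A ⊕ A) (A ⊕ A) Λ := Matrix.fromBlocks 1 K1 0 1
    set V : Matrix (A ⊕ A) (A ⊕ A) Λ := Matrix.fromBlocks 1 (-K1) 0 1
    calc V * coneD d f * U * (V * coneD d f * U) = V * coneD d f * (U * V) * coneD d f * U := by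
          simp only [Matrix.mul_assoc]
      _ = V * (coneD d f * coneD d f) * U := by
          rw [hUV, Matrix.mul_one]
          simp only [Matrix.mul_assoc]
      _ = 0 := by rw [hs.DD, Matrix.mul_zero, Matrix.zero_mul]
  · rw [← h1]
    set U : Matrix (A ⊕ A) (A ⊕ A) Λ := Matrix.fromBlocks 1 K1 0 1
    set V : Matrix (A ⊕ A) (A ⊕ A) Λ := Matrix.fromBlocks 1 (-K1) 0 1
    calc V * coneD d f * U * (V * s * U) + V * s * U * (V * coneD d f * U) =
          V * coneD d f * (U * V) * s * U + V * s * (U * V) * coneD d f * U := by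
          simp only [Matrix.mul_assoc]
      _ = V * (coneD d f * s + s * coneD d f) * U := by
          rw [hUV, Matrix.mul_one, Matrix.mul_one, Matrix.mul_add, Matrix.add_mul]
          simp only [Matrix.mul_assoc]
      _ = 1 := by rw [hs.Ds, Matrix.mul_one, hVU]

end Cone

end Pool.Agent.ZT1
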