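import Pool.Agent.Lib.MP_8f66f0_al_FH.CDefs
import Pool.Agent.Lib.MP_8f66f0_al_FH.ASpec

/-! Project ZERO, part T1 (transfer): definitions and the statement to be proved.

A homotopy action of `G` on a compact retract of `ℝ^D` and an almost equivariant map of the
retract to a `G`-space `X` turn an invertible matrix over `L[G]` into a controlled one with the same
class in `K_1`. -/

set_option autoImplicit false

namespace Pool.Agent.ZT1

open Pool.Agent.Wald Pool.Agent.Ind Pool.Agent.WaldL Pool.Agent.FH Topology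

/-- A homotopy action of `G` on the compact subset `{x | ρ x = x}` of `ℝ^D`; `ρ` is a retraction
which is constant on the segment from `x` to `ρ x` (nearest point projection to a convex body,
radial projection to the unit ball of a norm, ...). -/
structure HAct (G : Type) [Group G] (D : ℕ) where
  ρ : (Fin D → ℝ) → (Fin D → ℝ)
  φ : G → (Fin D → ℝ) → (Fin D → ℝ)
  H : G → G → ℝ → (Fin D → ℝ) → (Fin D → ℝ)
  contρ : Continuous ρ
  contφ : ∀ g, Continuous (φ g)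
  contH : ∀ g h, Continuous fun q : ℝ × (Fin D → ℝ) => H g h q.1 q.2
  bdd : ∃ c : ℝ, ∀ x i, |ρ x i| ≤ c
  seg : ∀ (x : Fin D → ℝ) (s : ℝ), 0 ≤ s → s ≤ 1 → ρ ((1 - s) • x + s • ρ x) = ρ x
  φρ : ∀ g x, φ g (ρ x) = φ g x
  ρφ : ∀ g x, ρ (φ g x) = φ g x
  ρH : ∀ g h s x, ρ (H g h s x) = H g h s x
  φ1 : ∀ x, φ 1 x = ρ x
  H0 : ∀ g h x, H g h 0 x = φ g (φ h x)
  H1 : ∀ g h x, H g h 1 x = φ (g * h) x

/-- `p : ℝ^D → X` is almost equivariant with error `t` for the elements of `S` (only its values on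
the retract matter). -/
def AlmEq {G X : Type} [Group G] [MulAction G X] (N : Met G X) (t : ℕ) {D : ℕ} (Φ : HAct G D)
    (S : Set G) (p : (Fin D → ℝ) → X) : Prop :=
  (∀ x, ∀ᶠ y in 𝓝 x, N.near t (p (Φ.ρ x)) (p (Φ.ρ y))) ∧
  (∀ g ∈ S, ∀ x, N.near t (p (Φ.ρ x)) (g⁻¹ • p (Φ.φ g x))) ∧
  (∀ g ∈ S, ∀ h ∈ S, ∀ (s : ℝ) (x : Fin D → ℝ), 0 ≤ s → s ≤ 1 →
    N.near t (p (Φ.ρ x)) ((g * h)⁻¹ • p (Φ.H g h s x)))

/-- THE STATEMENT TO BE PROVED in part T1. -/
def S_T1 : Prop :=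
  ∀ D : ℕ, ∃ K : ℕ, ∀ (L G X : Type) [CommRing L] [Group G] [MulAction G X] (N : Met G X) (t : ℕ)
    (Φ : HAct G D) (S : Set G) (p : (Fin D → ℝ) → X), S.Finite → (1 : G) ∈ S →
    (∀ g ∈ S, g⁻¹ ∈ S) → AlmEq N t Φ S p →
    ∀ (n : Type) [Fintype n] [DecidableEq n] (A B : Matrix n n (MonoidAlgebra L G)),
      A * B = 1 → B * A = 1 → (∀ i j g, (A i j).coeff g ≠ 0 → g ∈ S) →
      (∀ i j g, (B i j).coeff g ≠ 0 → g ∈ S) →
      ∃ (m : Type) (_ : Fintype m) (_ : DecidableEq m) (q : m → Fin D → ℝ)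
        (α β : Matrix m m (MonoidAlgebra L G)), α * β = 1 ∧ β * α = 1 ∧
        SupR (N.near (K * t)) (fun i => p (Φ.ρ (q i))) (fun i => p (Φ.ρ (q i))) α ∧
        SupR (N.near (K * t)) (fun i => p (Φ.ρ (q i))) (fun i => p (Φ.ρ (q i))) β ∧
        ∀ (K : Type) [CommGroup K] (κ : K1Fun (MonoidAlgebra L G) K), KU κ → κ.f α = κ.f A

end Pool.Agent.ZT1
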