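import Pool.Agent.Lib.MP_8f66f0_al_ZT1.Uni

/-! Project ZERO, part T1 (A): the torsion of a contractible complex does not depend on the
contraction.

The index set `I` has a degree `δ`; its odd and even parts are both identified with `A`, by `σ`
and `τ`. -/

set_option autoImplicit false

namespace Pool.Agent.ZT1

open Pool.Agent.Wald Pool.Agent.FH

section Ring

variable {E : Type} [Ring E]

/-- The basic identity. -/
theorem key_id (D s s' : E) (h0 : D * D = 0) (h1 : D * s + s * D = 1) (h2 : D * s' + s' * D = 1) :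
    (D + s') * ((1 + (s' - s) * s) * (D + s)) =
      1 + (s' * s + D * ((s' - s) * s) * s + s' * ((s' - s) * s) * D + s' * ((s' - s) * s) * s) := by
  have h3 : D * s = 1 - s * D := eq_sub_of_add_eq h1
  have h4 : D * s' = 1 - s' * D := eq_sub_of_add_eq h2
  have h5 : D * (s' - s) = -((s' - s) * D) := by
    rw [mul_sub, h3, h4, sub_mul]
    abel
  have h6 : D * s * D = D := by
    rw [h3, sub_mul, one_mul, mul_assoc, h0, mul_zero, sub_zero]
  have h7 : D * ((s' - s) * s) * D = -((s' - s) * D) := by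
    calc D * ((s' - s) * s) * D = (D * (s' - s)) * s * D := by noncomm_ring
      _ = -((s' - s) * (D * s * D)) := by rw [h5]; noncomm_ring
      _ = _ := by rw [h6]
  calc (D + s') * ((1 + (s' - s) * s) * (D + s)) =
      (D * D + (D * s + s' * D) + D * ((s' - s) * s) * D) +
        (s' * s + D * ((s' - s) * s) * s + s' * ((s' - s) * s) * D +
          s' * ((s' - s) * s) * s) := by noncomm_ring
    _ = _ := by
      rw [h0, h7, h3]
      noncomm_ring

theorem units_of {b c : E} (h1 : IsUnit (c * b)) (h2 : IsUnit (b * c)) : IsUnit b := by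
  rw [isUnit_iff_exists_and_exists]
  obtain ⟨u, hu⟩ := h1
  obtain ⟨w, hw⟩ := h2
  refine ⟨⟨c * ((w⁻¹ : Eˣ) : E), ?_⟩, ⟨((u⁻¹ : Eˣ) : E) * c, ?_⟩⟩
  · rw [← mul_assoc, ← hw, Units.mul_inv]
  · rw [mul_assoc, ← hu, Units.inv_mul]

theorem rinv_of {b x : E} (hb : IsUnit b) (h : b * x = 1) : x * b = 1 := by
  obtain ⟨u, rfl⟩ := hb
  have h1 : x = ((u⁻¹ : Eˣ) : E) := by
    rw [← one_mul x, ← Units.inv_mul u, mul_assoc, h, mul_one]
  rw [h1, Units.inv_mul]

end Ring

section Sub

variable {Λ : Type} [Ring Λ] {I A : Type} [Fintype I] [DecidableEq I] [Fintype A] [DecidableEq A]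

/-- The two parts of `I`. -/
structure Parts (δ : I → ℕ) (σ τ : A → I) : Prop where
  bij : Function.Bijective (Sum.elim σ τ)
  odd : ∀ a, ¬ Even (δ (σ a))
  even : ∀ a, Even (δ (τ a))

variable {δ : I → ℕ} {σ τ : A → I}

omit [DecidableEq I] [DecidableEq A] in
theorem Parts.mul (P : Parts δ σ τ) {J J' : Type} (X : Matrix J I Λ) (Y : Matrix I J' Λ) :
    X * Y = X.submatrix id σ * Y.submatrix σ id + X.submatrix id τ * Y.submatrix τ id := by
  refine Matrix.ext fun j j' => ?_
  rw [Matrix.add_apply, Matrix.mul_apply, Matrix.mul_apply, Matrix.mul_apply,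
    ← (Equiv.ofBijective _ P.bij).sum_comp, Fintype.sum_sum_type]
  rfl

omit [Fintype I] [DecidableEq I] [Fintype A] [DecidableEq A] in
theorem Parts.ss (P : Parts δ σ τ) {X : Matrix I I Λ} {k : ℤ} (hX : Deg δ δ k X) (hk : Odd k) :
    X.submatrix σ σ = 0 := by
  refine Matrix.ext fun a b => ?_
  by_contra h
  have h1 := hX _ _ h
  have h2 := P.odd a
  have h3 := P.odd b
  rw [← Nat.not_odd_iff_even, not_not] at h2 h3
  obtain ⟨x, hx⟩ := h2
  obtain ⟨y, hy⟩ := h3
  obtain ⟨z, hz⟩ := hk
  omega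

omit [Fintype I] [DecidableEq I] [Fintype A] [DecidableEq A] in
theorem Parts.tt (P : Parts δ σ τ) {X : Matrix I I Λ} {k : ℤ} (hX : Deg δ δ k X) (hk : Odd k) :
    X.submatrix τ τ = 0 := by
  refine Matrix.ext fun a b => ?_
  by_contra h
  have h1 := hX _ _ h
  obtain ⟨x, hx⟩ := P.even a
  obtain ⟨y, hy⟩ := P.even b
  obtain ⟨z, hz⟩ := hk
  omega

omit [Fintype I] [DecidableEq I] [Fintype A] [DecidableEq A] in
theorem Parts.st (P : Parts δ σ τ) {X : Matrix I I Λ} {k : ℤ} (hX : Deg δ δ k X) (hk : Even k) :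
    X.submatrix σ τ = 0 := by
  refine Matrix.ext fun a b => ?_
  by_contra h
  have h1 := hX _ _ h
  have h2 := P.odd a
  rw [← Nat.not_odd_iff_even, not_not] at h2
  obtain ⟨x, hx⟩ := h2
  obtain ⟨y, hy⟩ := P.even b
  obtain ⟨z, hz⟩ := hk
  omega

omit [Fintype I] [DecidableEq I] [Fintype A] [DecidableEq A] in
theorem Parts.ts (P : Parts δ σ τ) {X : Matrix I I Λ} {k : ℤ} (hX : Deg δ δ k X) (hk : Even k) :
    X.submatrix τ σ = 0 := by
  refine Matrix.ext fun a b => ?_
  by_contra h
  have h1 := hX _ _ h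
  have h2 := P.odd b
  rw [← Nat.not_odd_iff_even, not_not] at h2
  obtain ⟨x, hx⟩ := h2
  obtain ⟨y, hy⟩ := P.even a
  obtain ⟨z, hz⟩ := hk
  omega

omit [Fintype I] [Fintype A] in
theorem Parts.one_ss (P : Parts δ σ τ) : (1 : Matrix I I Λ).submatrix σ σ = 1 :=
  Matrix.submatrix_one _ fun _ _ h => Sum.inl_injective (P.bij.1 (a₁ := Sum.inl _)
    (a₂ := Sum.inl _) h)

omit [Fintype I] [Fintype A] in
theorem Parts.one_tt (P : Parts δ σ τ) : (1 : Matrix I I Λ).submatrix τ τ = 1 :=
  Matrix.submatrix_one _ fun _ _ h => Sum.inr_injective (P.bij.1 (a₁ := Sum.inr _)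
    (a₂ := Sum.inr _) h)

omit [Fintype I] [Fintype A] [DecidableEq A] in
theorem Parts.one_st (P : Parts δ σ τ) : (1 : Matrix I I Λ).submatrix σ τ = 0 :=
  P.st (k := 0) Deg.one (by decide)

/-- An object: a differential with a contraction. -/
structure Contr (δ : I → ℕ) (D s : Matrix I I Λ) : Prop where
  dD : Deg δ δ (-1) D
  ds : Deg δ δ 1 s
  DD : D * D = 0
  Ds : D * s + s * D = 1

variable {D s s' : Matrix I I Λ}

theorem Contr.delta (h : Contr δ D s) (h' : Contr δ D s') : Deg δ δ 2 ((s' - s) * s) :=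
  ((h'.ds.sub h.ds).mul h.ds).cast (by norm_num)

/-- The error term. -/
def errN (D s s' : Matrix I I Λ) : Matrix I I Λ :=
  s' * s + D * ((s' - s) * s) * s + s' * ((s' - s) * s) * D + s' * ((s' - s) * s) * s

theorem Contr.errN_raise (h : Contr δ D s) (h' : Contr δ D s') (i j : I)
    (hij : errN D s s' i j ≠ 0) : δ i < δ j := by
  have h1 : Deg δ δ 2 (s' * s + D * ((s' - s) * s) * s + s' * ((s' - s) * s) * D) :=
    (((h'.ds.mul h.ds).cast (by norm_num)).add
      (((h.dD.mul (h.delta h')).mul h.ds).cast (by norm_num))).add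
      (((h'.ds.mul (h.delta h')).mul h.dD).cast (by norm_num))
  have h2 : Deg δ δ 4 (s' * ((s' - s) * s) * s) :=
    (((h'.ds.mul (h.delta h')).mul h.ds).cast (by norm_num))
  unfold errN at hij
  by_cases h3 : (s' * s + D * ((s' - s) * s) * s + s' * ((s' - s) * s) * D) i j = 0
  · have h4 : (s' * ((s' - s) * s) * s) i j ≠ 0 := fun h5 => hij (by
      rw [Matrix.add_apply, h3, h5, add_zero])
    have h5 := h2 i j h4
    omega
  · have h5 := h1 i j h3
    omega

/-- The product formula for the parts. -/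
theorem Contr.prod (P : Parts δ σ τ) (h : Contr δ D s) (h' : Contr δ D s') :
    (D + s').submatrix τ σ * ((1 + ((s' - s) * s).submatrix σ σ) * (D + s).submatrix σ τ) =
      1 + (errN D s s').submatrix τ τ := by
  have e1 := congrArg (fun X : Matrix I I Λ => X.submatrix τ τ)
    (key_id D s s' h.DD h.Ds h'.Ds)
  change ((D + s') * ((1 + (s' - s) * s) * (D + s))).submatrix τ τ =
    (1 : Matrix I I Λ).submatrix τ τ + (errN D s s').submatrix τ τ at e1
  rw [P.one_tt] at e1
  rw [← e1]
  have e2 : ((1 + (s' - s) * s) * (D + s)).submatrix σ τ =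
      (1 + ((s' - s) * s).submatrix σ σ) * (D + s).submatrix σ τ := by
    rw [P.mul (1 + (s' - s) * s) (D + s)]
    have e3 : ((1 + (s' - s) * s).submatrix id τ).submatrix σ id = 0 := by
      change (1 : Matrix I I Λ).submatrix σ τ + ((s' - s) * s).submatrix σ τ = 0
      rw [P.one_st, P.st (h.delta h') (by decide), add_zero]
    change (((1 + (s' - s) * s).submatrix id σ).submatrix σ id *
      ((D + s).submatrix σ id).submatrix id τ + ((1 + (s' - s) * s).submatrix id τ).submatrix σ id *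
      ((D + s).submatrix τ id).submatrix id τ) = _
    rw [e3, Matrix.zero_mul, add_zero]
    change ((1 : Matrix I I Λ).submatrix σ σ + ((s' - s) * s).submatrix σ σ) *
      (D + s).submatrix σ τ = _
    rw [P.one_ss]
  rw [P.mul (D + s') ((1 + (s' - s) * s) * (D + s))]
  have e4 : ((D + s').submatrix id τ).submatrix τ id = 0 := by
    change D.submatrix τ τ + s'.submatrix τ τ = 0
    rw [P.tt h.dD (by decide), P.tt h'.ds (by decide), add_zero]
  change _ = ((D + s').submatrix id σ).submatrix τ id *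
      (((1 + (s' - s) * s) * (D + s)).submatrix σ id).submatrix id τ +
      ((D + s').submatrix id τ).submatrix τ id *
      (((1 + (s' - s) * s) * (D + s)).submatrix τ id).submatrix id τ
  rw [e4, Matrix.zero_mul, add_zero]
  change _ = (D + s').submatrix τ σ * ((1 + (s' - s) * s) * (D + s)).submatrix σ τ
  rw [e2]

/-- The square of `D + s` on the even part. -/
theorem Contr.sq_tt (P : Parts δ σ τ) (h : Contr δ D s) :
    (D + s).submatrix τ σ * (D + s).submatrix σ τ = 1 + (s * s).submatrix τ τ := by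
  have h1 := h.prod P h
  unfold errN at h1
  rw [sub_self, Matrix.zero_mul, Matrix.mul_zero, Matrix.zero_mul, Matrix.mul_zero,
    Matrix.zero_mul, Matrix.zero_mul, add_zero, add_zero, add_zero] at h1
  change _ * ((1 + 0) * _) = _ at h1
  rw [add_zero, Matrix.one_mul] at h1
  exact h1

theorem Contr.sq (h : Contr δ D s) : (D + s) * (D + s) = 1 + s * s := by
  calc (D + s) * (D + s) = D * D + (D * s + s * D) + s * s := by noncomm_ring
    _ = _ := by rw [h.DD, h.Ds, zero_add]

/-- The square of `D + s` on the odd part. -/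
theorem Contr.sq_ss (P : Parts δ σ τ) (h : Contr δ D s) :
    (D + s).submatrix σ τ * (D + s).submatrix τ σ = 1 + (s * s).submatrix σ σ := by
  have e1 := congrArg (fun X : Matrix I I Λ => X.submatrix σ σ) h.sq
  change ((D + s) * (D + s)).submatrix σ σ =
    (1 : Matrix I I Λ).submatrix σ σ + (s * s).submatrix σ σ at e1
  rw [P.one_ss] at e1
  rw [← e1, P.mul (D + s) (D + s)]
  have e4 : ((D + s).submatrix id σ).submatrix σ id = 0 := by
    change D.submatrix σ σ + s.submatrix σ σ = 0
    rw [P.ss h.dD (by decide), P.ss h.ds (by decide), add_zero]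
  change _ = ((D + s).submatrix id σ).submatrix σ id * ((D + s).submatrix σ id).submatrix id σ +
      ((D + s).submatrix id τ).submatrix σ id * ((D + s).submatrix τ id).submatrix id σ
  rw [e4, Matrix.zero_mul, zero_add]
  rfl

theorem Contr.ss_raise (h : Contr δ D s) (i j : I) (hij : (s * s) i j ≠ 0) : δ i < δ j := by
  have h1 := (h.ds.mul h.ds) i j hij
  omega

variable {K : Type} [CommGroup K]

theorem Contr.isUnit (P : Parts δ σ τ) (h : Contr δ D s) (N : ℕ) (hN : ∀ i, δ i ≤ N) :
    IsUnit ((D + s).submatrix σ τ) ∧ IsUnit ((D + s).submatrix τ σ) := by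
  have κ : K1Fun Λ Unit := ⟨fun _ => (), fun _ _ _ _ => rfl, fun _ _ _ => rfl,
    fun _ _ _ _ _ => rfl⟩
  have hu := (uni κ N A (fun a => δ (τ a)) ((s * s).submatrix τ τ) (fun a => hN _)
    (fun i j hij => h.ss_raise _ _ hij)).1
  have hw := (uni κ N A (fun a => δ (σ a)) ((s * s).submatrix σ σ) (fun a => hN _)
    (fun i j hij => h.ss_raise _ _ hij)).1
  rw [← h.sq_tt P] at hu
  rw [← h.sq_ss P] at hw
  exact ⟨units_of hu hw, units_of hw hu⟩

/-- The class of the odd to even part is the inverse of the class of the even to odd part, for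
any two contractions. -/
theorem Contr.val (P : Parts δ σ τ) (h : Contr δ D s) (h' : Contr δ D s') (N : ℕ)
    (hN : ∀ i, δ i ≤ N) (κ : K1Fun Λ K) :
    κ.f ((D + s').submatrix τ σ) * κ.f ((D + s).submatrix σ τ) = 1 := by
  have h1 := (uni κ N A (fun a => δ (τ a)) ((errN D s s').submatrix τ τ) (fun a => hN _)
    (fun i j hij => h.errN_raise h' _ _ hij))
  have h2 := (uni κ N A (fun a => δ (σ a)) (((s' - s) * s).submatrix σ σ) (fun a => hN _)
    (fun i j hij => by
      have h3 := h.delta h' _ _ hij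
      omega))
  rw [← h.prod P h'] at h1
  rw [κ.mul _ _ (h'.isUnit P N hN).2 (h2.1.mul (h.isUnit P N hN).1),
    κ.mul _ _ h2.1 (h.isUnit P N hN).1, h2.2, one_mul] at h1
  exact h1.2

/-- Independence of the contraction. -/
theorem Contr.indep (P : Parts δ σ τ) (h : Contr δ D s) (h' : Contr δ D s') (N : ℕ)
    (hN : ∀ i, δ i ≤ N) (κ : K1Fun Λ K) :
    κ.f ((D + s').submatrix σ τ) = κ.f ((D + s).submatrix σ τ) := by
  have h1 := h'.val P h' N hN κ
  have h2 := h.val P h' N hN κ
  exact mul_left_cancel (h1.trans h2.symm)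

/-- The explicit inverse. -/
theorem Contr.inv (P : Parts δ σ τ) (h : Contr δ D s) (N : ℕ) (hN : ∀ i, δ i ≤ N) :
    (D + s).submatrix σ τ * ((D + s).submatrix τ σ *
      ∑ j ∈ Finset.range (N + 1), (-((s * s).submatrix σ σ)) ^ j) = 1 ∧
    ((D + s).submatrix τ σ * ∑ j ∈ Finset.range (N + 1), (-((s * s).submatrix σ σ)) ^ j) *
      (D + s).submatrix σ τ = 1 := by
  have h1 : (D + s).submatrix σ τ * ((D + s).submatrix τ σ *
      ∑ j ∈ Finset.range (N + 1), (-((s * s).submatrix σ σ)) ^ j) = 1 := by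
    rw [← mul_assoc, h.sq_ss P]
    exact geo_inv _ _ (pow_zero_deg (fun a => δ (σ a)) N _ (fun a => hN _)
      fun i j hij => h.ss_raise _ _ hij)
  refine ⟨h1, ?_⟩
  exact rinv_of (h.isUnit P N hN).1 h1

end Sub

end Pool.Agent.ZT1
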