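import Pool.Agent.Lib.MP_8f66f0_al_ZT1.Cone

/-! Project ZERO, part T1 (A): the class of the cone of a self equivalence `f` which covers the
matrix `a` on the augmentation. -/

set_option autoImplicit false

namespace Pool.Agent.ZT1

open Pool.Agent.Wald Pool.Agent.FH

section Val

variable {Λ : Type} [Ring Λ] {A : Type} [Fintype A] [DecidableEq A]

/-- The sign of the parity. -/
def esg (Λ : Type) [Ring Λ] (dim : A → ℕ) : Matrix A A Λ :=
  Matrix.diagonal fun a => if Even (dim a) then (-1 : Λ) else 1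

/-- The odd to even part for a map which lives in dimension zero. -/
theorem b_g {dim : A → ℕ} {d k g g' : Matrix A A Λ} (hd : Deg dim dim (-1) d)
    (hk : Deg dim dim 1 k) (hg : ∀ a b, g a b ≠ 0 → dim a = 0 ∧ dim b = 0)
    (hg' : ∀ a b, g' a b ≠ 0 → dim a = 0 ∧ dim b = 0) :
    (coneD d g + Matrix.fromBlocks (-k) 0 g' k).submatrix (csig dim) (ctau dim) =
      esg Λ dim * (d + k) + g := by
  have hdk : ∀ a b, (Even (dim a) ↔ Even (dim b)) → (d + k) a b = 0 := by
    intro a b h
    rw [Matrix.add_apply]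
    have h1 : d a b = 0 := by
      by_contra h'
      have h2 := hd a b h'
      have h3 : dim a = dim b + 1 := by omega
      rw [h3, Nat.even_add_one] at h
      tauto
    have h2 : k a b = 0 := by
      by_contra h'
      have h2 := hk a b h'
      have h3 : dim b = dim a + 1 := by omega
      rw [h3, Nat.even_add_one] at h
      tauto
    rw [h1, h2, add_zero]
  have hg0 : ∀ a b, ¬ (Even (dim a) ∧ Even (dim b)) → g a b = 0 := by
    intro a b h
    by_contra h'
    obtain ⟨h1, h2⟩ := hg a b h'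
    exact h (by rw [h1, h2]; simp)
  have hg0' : ∀ a b, ¬ Even (dim a) → g' a b = 0 := by
    intro a b h
    by_contra h'
    obtain ⟨h1, h2⟩ := hg' a b h'
    exact h (by rw [h1]; simp)
  unfold coneD
  rw [Matrix.fromBlocks_add, add_zero, zero_add]
  refine Matrix.ext fun a b => ?_
  rw [Matrix.submatrix_apply, Matrix.add_apply, esg, Matrix.diagonal_mul, csig, ctau]
  by_cases ha : Even (dim a) <;> by_cases hb : Even (dim b)
  · rw [if_pos ha, if_pos hb, if_pos ha, hdk a b ⟨fun _ => hb, fun _ => ha⟩, mul_zero, zero_add]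
    rfl
  · rw [if_pos ha, if_neg hb, if_pos ha, hg0 a b fun h => hb h.2]
    change -d a b + -k a b = -1 * (d a b + k a b) + 0
    noncomm_ring
  · rw [if_neg ha, if_pos hb, if_neg ha, hg0 a b fun h => ha h.1, add_zero, one_mul]
    rfl
  · rw [if_neg ha, if_neg hb, if_neg ha, hg0 a b fun h => ha h.1, add_zero, one_mul,
      hdk a b ⟨fun h => absurd h ha, fun h => absurd h hb⟩]
    exact hg0' a b ha

variable {B : Type} [Fintype B] [DecidableEq B]

/-- An augmented contractible complex: the data `d`, `k` on `A`, the augmentation `ε` to `B` with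
section `η`. -/
structure Aug (dim : A → ℕ) (d k : Matrix A A Λ) (ε : Matrix A B Λ) (η : Matrix B A Λ) :
    Prop where
  hd : Deg dim dim (-1) d
  hk : Deg dim dim 1 k
  hε : ∀ a b, ε a b ≠ 0 → dim a = 0
  hη : ∀ b a, η b a ≠ 0 → dim a = 0
  dd : d * d = 0
  dε : d * ε = 0
  ηε : η * ε = 1
  ηk : η * k = 0
  kk : d * k + k * d = 1 - ε * η

variable {dim : A → ℕ} {d k : Matrix A A Λ} {ε : Matrix A B Λ} {η : Matrix B A Λ}

theorem Aug.ηd (h : Aug dim d k ε η) : η * d = 0 := by
  refine Matrix.ext fun b a => ?_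
  rw [Matrix.mul_apply]
  refine Finset.sum_eq_zero fun c _ => ?_
  by_cases h1 : η b c = 0
  · rw [h1, zero_mul]
  · have h2 := h.hη b c h1
    have h3 : d c a = 0 := by
      by_contra h4
      have h5 := h.hd c a h4
      omega
    rw [h3, mul_zero]

theorem Aug.kε (h : Aug dim d k ε η) : k * ε = 0 := by
  refine Matrix.ext fun b a => ?_
  rw [Matrix.mul_apply]
  refine Finset.sum_eq_zero fun c _ => ?_
  by_cases h1 : ε c a = 0
  · rw [h1, mul_zero]
  · have h2 := h.hε c a h1
    have h3 : k b c = 0 := by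
      by_contra h4
      have h5 := h.hk b c h4
      omega
    rw [h3, zero_mul]

theorem Aug.sup (h : Aug dim d k ε η) (x : Matrix B B Λ) (a b : A) (hab : (ε * x * η) a b ≠ 0) :
    dim a = 0 ∧ dim b = 0 := by
  rw [Matrix.mul_apply] at hab
  obtain ⟨c, -, hc⟩ := Finset.exists_ne_zero_of_sum_ne_zero hab
  have h1 := left_ne_zero_of_mul hc
  rw [Matrix.mul_apply] at h1
  obtain ⟨c', -, hc'⟩ := Finset.exists_ne_zero_of_sum_ne_zero h1
  exact ⟨h.hε a c' (left_ne_zero_of_mul hc'), h.hη c b (right_ne_zero_of_mul hc)⟩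

theorem Aug.contr (h : Aug dim d k ε η) {x y : Matrix B B Λ} (hxy : x * y = 1)
    (hyx : y * x = 1) :
    Contr (cdel dim) (coneD d (ε * x * η)) (Matrix.fromBlocks (-k) 0 (ε * y * η) k) := by
  have hs : ∀ z : Matrix B B Λ, Deg dim dim 0 (ε * z * η) := by
    intro z a b hab
    obtain ⟨h1, h2⟩ := h.sup z a b hab
    rw [h1, h2, add_zero]
  have hz : ∀ z : Matrix B B Λ, ε * z * η * d = d * (ε * z * η) := by
    intro z
    rw [Matrix.mul_assoc _ η d, h.ηd, Matrix.mul_zero, ← Matrix.mul_assoc, ← Matrix.mul_assoc,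
      h.dε, Matrix.zero_mul, Matrix.zero_mul]
  have hm : ∀ z w : Matrix B B Λ, z * w = 1 → ε * z * η * (ε * w * η) = ε * η := by
    intro z w hzw
    calc ε * z * η * (ε * w * η) = ε * z * (η * ε) * w * η := by
          simp only [Matrix.mul_assoc]
      _ = ε * (z * w) * η := by
          rw [h.ηε, Matrix.mul_one]
          simp only [Matrix.mul_assoc]
      _ = _ := by rw [hzw, Matrix.mul_one]
  have hk1 : ∀ z : Matrix B B Λ, ε * z * η * k = 0 := by
    intro z
    rw [Matrix.mul_assoc, h.ηk, Matrix.mul_zero]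
  have hk2 : ∀ z : Matrix B B Λ, k * (ε * z * η) = 0 := by
    intro z
    rw [← Matrix.mul_assoc, ← Matrix.mul_assoc, h.kε, Matrix.zero_mul, Matrix.zero_mul]
  refine cone_contr h.hd (hs x) h.hk.neg Deg.zero (hs y) h.hk h.dd (hz x) (hz y) ?_ ?_ ?_
  · rw [hm x y hxy, mul_neg, neg_mul, ← neg_add, h.kk]
    abel
  · rw [hk1, neg_mul, hk2]
    simp
  · rw [hm y x hyx, h.kk]
    abel

variable {K : Type} [CommGroup K]

/-- The integral factor. -/
def wmat (dim : A → ℕ) (d k : Matrix A A Λ) (ε : Matrix A B Λ) (η : Matrix B A Λ) :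
    Matrix A A Λ := esg Λ dim * (d + k) + ε * η

theorem Aug.unit_b (h : Aug dim d k ε η) {x y : Matrix B B Λ} (hxy : x * y = 1)
    (hyx : y * x = 1) (N : ℕ) (hN : ∀ a, dim a ≤ N) :
    IsUnit (esg Λ dim * (d + k) + ε * x * η) := by
  rw [← b_g (g' := ε * y * η) h.hd h.hk (h.sup x) (h.sup y)]
  refine ((h.contr hxy hyx).isUnit (cparts dim) (N + 1) ?_).1
  rintro (a | a)
  · exact Nat.succ_le_succ (hN a)
  · exact (hN a).trans (Nat.le_succ N)

theorem Aug.unit_w (h : Aug dim d k ε η) (N : ℕ) (hN : ∀ a, dim a ≤ N) :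
    IsUnit (wmat dim d k ε η) := by
  have h1 := h.unit_b (x := 1) (y := 1) (Matrix.mul_one 1) (Matrix.mul_one 1) N hN
  rw [Matrix.mul_one] at h1
  exact h1

theorem Aug.fact (h : Aug dim d k ε η) (x : Matrix B B Λ) :
    esg Λ dim * (d + k) + ε * x * η = wmat dim d k ε η * (1 - ε * ((1 - x) * η)) := by
  have h1 : wmat dim d k ε η * ε = ε := by
    unfold wmat
    rw [Matrix.add_mul, Matrix.mul_assoc, Matrix.add_mul, h.dε, h.kε, add_zero, Matrix.mul_zero,
      zero_add, Matrix.mul_assoc, h.ηε, Matrix.mul_one]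
  rw [Matrix.mul_sub, Matrix.mul_one, ← Matrix.mul_assoc, h1, Matrix.sub_mul, Matrix.one_mul,
    Matrix.mul_sub, wmat, ← Matrix.mul_assoc]
  abel

theorem Aug.val (h : Aug dim d k ε η) {x : Matrix B B Λ} (hx : IsUnit x) (N : ℕ)
    (hN : ∀ a, dim a ≤ N) (κ : K1Fun Λ K) :
    κ.f (esg Λ dim * (d + k) + ε * x * η) = κ.f (wmat dim d k ε η) * κ.f x := by
  have h1 : IsUnit (1 - (1 - x) * η * ε) := by
    rw [Matrix.mul_assoc, h.ηε, Matrix.mul_one, sub_sub_cancel]
    exact hx
  obtain ⟨h2, h3⟩ := sameK_swap ((1 - x) * η) ε h1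
  rw [h.fact x, κ.mul _ _ (h.unit_w N hN) h2, h3 K κ, Matrix.mul_assoc, h.ηε, Matrix.mul_one,
    sub_sub_cancel]

/-- The class of the odd to even part of the cone of `f`, where `f ε = ε x`. -/
theorem Aug.main (h : Aug dim d k ε η) {x y : Matrix B B Λ} (hxy : x * y = 1)
    (hyx : y * x = 1) (N : ℕ) (hN : ∀ a, dim a ≤ N) {f : Matrix A A Λ}
    {s : Matrix (A ⊕ A) (A ⊕ A) Λ} (hf : Deg dim dim 0 f) (fd : f * d = d * f)
    (fε : f * ε = ε * x) (hs : Contr (cdel dim) (coneD d f) s) (κ : K1Fun Λ K) :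
    κ.f ((coneD d f + s).submatrix (csig dim) (ctau dim)) =
      κ.f (wmat dim d k ε η) * κ.f x := by
  have hK : Deg dim dim 1 (f * k) := (hf.mul h.hk).cast (by norm_num)
  have hfg : f - ε * x * η = d * (f * k) + f * k * d := by
    have h1 : d * (f * k) + f * k * d = f * (d * k + k * d) := by
      rw [← Matrix.mul_assoc, ← fd, Matrix.mul_add, Matrix.mul_assoc, Matrix.mul_assoc]
    rw [h1, h.kk, Matrix.mul_sub, Matrix.mul_one, ← Matrix.mul_assoc, fε]
  obtain ⟨h1, h2⟩ := cone_conj hK hfg hs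
  have hN' : ∀ i, cdel dim i ≤ N + 1 := by
    rintro (a | a)
    · exact Nat.succ_le_succ (hN a)
    · exact (hN a).trans (Nat.le_succ N)
  have P := cparts dim
  have h3 := (h.contr hxy hyx).indep P h2 (N + 1) hN' κ
  rw [b_g h.hd h.hk (h.sup x) (h.sup y), h.val ⟨⟨x, y, hxy, hyx⟩, rfl⟩ N hN κ] at h3
  rw [← h3]
  set U : Matrix (A ⊕ A) (A ⊕ A) Λ := Matrix.fromBlocks 1 (f * k) 0 1 with hU
  set V : Matrix (A ⊕ A) (A ⊕ A) Λ := Matrix.fromBlocks 1 (-(f * k)) 0 1 with hV
  have hUd : Deg (cdel dim) (cdel dim) 0 U :=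
    deg_blocks Deg.one (hK.cast (by norm_num)) Deg.zero Deg.one
  have hVd : Deg (cdel dim) (cdel dim) 0 V :=
    deg_blocks Deg.one (hK.neg.cast (by norm_num)) Deg.zero Deg.one
  have h4 : coneD d (ε * x * η) + V * s * U = V * (coneD d f + s) * U := by
    rw [← h1, Matrix.mul_add, Matrix.add_mul]
  have h5 : (V * (coneD d f + s) * U).submatrix (csig dim) (ctau dim) =
      V.submatrix (csig dim) (csig dim) * (coneD d f + s).submatrix (csig dim) (ctau dim) *
        U.submatrix (ctau dim) (ctau dim) := by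
    rw [P.mul (V * (coneD d f + s)) U, P.mul V (coneD d f + s)]
    change (V.submatrix (csig dim) (csig dim) * (coneD d f + s).submatrix (csig dim) (csig dim) +
        V.submatrix (csig dim) (ctau dim) * (coneD d f + s).submatrix (ctau dim) (csig dim)) *
        U.submatrix (csig dim) (ctau dim) +
      (V.submatrix (csig dim) (csig dim) * (coneD d f + s).submatrix (csig dim) (ctau dim) +
        V.submatrix (csig dim) (ctau dim) * (coneD d f + s).submatrix (ctau dim) (ctau dim)) *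
        U.submatrix (ctau dim) (ctau dim) = _
    rw [P.st hUd (by decide), P.st hVd (by decide)]
    simp only [Matrix.zero_mul, Matrix.mul_zero, add_zero, zero_add]
  have hone : ∀ (K1 : Matrix A A Λ) (ρ : A → A ⊕ A), Deg dim dim 1 K1 →
      (ρ = csig dim ∨ ρ = ctau dim) →
      IsUnit ((Matrix.fromBlocks 1 K1 0 1 : Matrix (A ⊕ A) (A ⊕ A) Λ).submatrix ρ ρ) ∧
      κ.f ((Matrix.fromBlocks 1 K1 0 1 : Matrix (A ⊕ A) (A ⊕ A) Λ).submatrix ρ ρ) = 1 := by
    intro K1 ρ hK1 hρ
    have h6 : (Matrix.fromBlocks 1 K1 0 1 : Matrix (A ⊕ A) (A ⊕ A) Λ).submatrix ρ ρ =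
        1 + (Matrix.fromBlocks 0 K1 0 0 : Matrix (A ⊕ A) (A ⊕ A) Λ).submatrix ρ ρ := by
      have h7 : (Matrix.fromBlocks 1 K1 0 1 : Matrix (A ⊕ A) (A ⊕ A) Λ) =
          1 + Matrix.fromBlocks 0 K1 0 0 := by
        rw [← Matrix.fromBlocks_one, Matrix.fromBlocks_add]
        simp
      rw [h7]
      have h11 : (1 : Matrix (A ⊕ A) (A ⊕ A) Λ).submatrix ρ ρ = 1 := by
        rcases hρ with h12 | h12
        · rw [h12]
          exact P.one_ss
        · rw [h12]
          exact P.one_tt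
      rw [← h11]
      rfl
    rw [h6]
    refine uni κ N A dim _ hN fun a b hab => ?_
    have h8 : K1 a b ≠ 0 := by
      intro h9
      apply hab
      rw [Matrix.submatrix_apply]
      rcases hρ with rfl | rfl
      · unfold csig
        by_cases ha : Even (dim a) <;> by_cases hb : Even (dim b)
        · rw [if_pos ha, if_pos hb]
          rfl
        · rw [if_pos ha, if_neg hb]
          exact h9
        · rw [if_neg ha, if_pos hb]
          rfl
        · rw [if_neg ha, if_neg hb]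
          rfl
      · unfold ctau
        by_cases ha : Even (dim a) <;> by_cases hb : Even (dim b)
        · rw [if_pos ha, if_pos hb]
          rfl
        · rw [if_pos ha, if_neg hb]
          rfl
        · rw [if_neg ha, if_pos hb]
          exact h9
        · rw [if_neg ha, if_neg hb]
          rfl
    have h10 := hK1 a b h8
    omega
  obtain ⟨v1, v2⟩ := hone (-(f * k)) (csig dim) hK.neg (Or.inl rfl)
  obtain ⟨u1, u2⟩ := hone (f * k) (ctau dim) hK (Or.inr rfl)
  have hb := (hs.isUnit P (N + 1) hN').1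
  rw [h4, h5, κ.mul _ _ (v1.mul hb) u1, κ.mul _ _ v1 hb, v2, u2, one_mul, mul_one]

end Val

end Pool.Agent.ZT1
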