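import Pool.Agent.Lib.MP_8f66f0_al_ZT1.Act
import Pool.Agent.Lib.MP_8f66f0_al_ZT1.Val

/-! Project ZERO, part T1 (A): the transfer matrices `T(A) = ∑ A_g g ⊗ M_g`. -/

set_option autoImplicit false

namespace Pool.Agent.ZT1

open Pool.Agent.Wald Pool.Agent.FH

section Tr

variable {L G : Type} [CommRing L]

/-- Multiplication of the coefficient at `g` by `w g`. -/
noncomputable def wm (w : G → ℤ) (x : MonoidAlgebra L G) : MonoidAlgebra L G :=
  MonoidAlgebra.ofCoeff (Finsupp.onFinset x.coeff.support (fun g => x.coeff g * (w g : L))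
    fun _ hg => Finsupp.mem_support_iff.2 (left_ne_zero_of_mul hg))

theorem wm_coeff (w : G → ℤ) (x : MonoidAlgebra L G) (g : G) :
    (wm w x).coeff g = x.coeff g * (w g : L) := rfl

theorem wm_add (w : G → ℤ) (x y : MonoidAlgebra L G) : wm w (x + y) = wm w x + wm w y := by
  apply MonoidAlgebra.coeff_injective
  ext g
  change (x.coeff g + y.coeff g) * (w g : L) = x.coeff g * (w g : L) + y.coeff g * (w g : L)
  rw [add_mul]

theorem wm_zero (w : G → ℤ) : wm w (0 : MonoidAlgebra L G) = 0 := by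
  apply MonoidAlgebra.coeff_injective
  ext g
  change (0 : L) * (w g : L) = 0
  rw [zero_mul]

theorem wm_single (w : G → ℤ) (s : G) (u : L) :
    wm w (MonoidAlgebra.single s u) = MonoidAlgebra.single s (u * (w s : L)) := by
  classical
  apply MonoidAlgebra.coeff_injective
  ext g
  rw [wm_coeff, MonoidAlgebra.coeff_single, MonoidAlgebra.coeff_single, Finsupp.single_apply,
    Finsupp.single_apply]
  by_cases h : s = g
  · rw [if_pos h, if_pos h, h]
  · rw [if_neg h, if_neg h, zero_mul]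

variable {n m l C C' C'' : Type}

/-- The matrix `s ⊗ Y ⊗ X`. -/
noncomputable def sgk (s : G) (Y : Matrix n m L) (X : Matrix C C' ℤ) :
    Matrix (n × C) (m × C') (MonoidAlgebra L G) :=
  fun a b => MonoidAlgebra.single s (Y a.1 b.1 * (X a.2 b.2 : L))

/-- The transfer. -/
noncomputable def Tf (P : G → Matrix C C' ℤ) (X : Matrix n m (MonoidAlgebra L G)) :
    Matrix (n × C) (m × C') (MonoidAlgebra L G) :=
  fun a b => wm (fun g => P g a.2 b.2) (X a.1 b.1)

/-- The coefficients at `s`. -/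
def cfm (X : Matrix n m (MonoidAlgebra L G)) (s : G) : Matrix n m L := fun i j => (X i j).coeff s

theorem sgk_add (s : G) (Y : Matrix n m L) (X X' : Matrix C C' ℤ) :
    sgk s Y (X + X') = sgk s Y X + sgk s Y X' := by
  refine Matrix.ext fun a b => ?_
  change MonoidAlgebra.single s (Y a.1 b.1 * ((X a.2 b.2 + X' a.2 b.2 : ℤ) : L)) =
    MonoidAlgebra.single s (Y a.1 b.1 * (X a.2 b.2 : L)) +
      MonoidAlgebra.single s (Y a.1 b.1 * (X' a.2 b.2 : L))
  rw [Int.cast_add, mul_add, MonoidAlgebra.single_add]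

theorem sgk_mul [Group G] [Fintype m] [Fintype C'] (s t : G) (Y : Matrix n m L)
    (X : Matrix C C' ℤ) (Y' : Matrix m l L) (X' : Matrix C' C'' ℤ) :
    sgk s Y X * sgk t Y' X' = sgk (s * t) (Y * Y') (X * X') := by
  refine Matrix.ext fun a b => ?_
  rw [Matrix.mul_apply]
  have h1 : ∀ j : m × C', sgk s Y X a j * sgk t Y' X' j b =
      MonoidAlgebra.singleAddHom (R := L) (M := G) (s * t)
        ((Y a.1 j.1 * Y' j.1 b.1) * ((X a.2 j.2 : L) * (X' j.2 b.2 : L))) := by
    intro j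
    change MonoidAlgebra.single s (Y a.1 j.1 * (X a.2 j.2 : L)) *
      MonoidAlgebra.single t (Y' j.1 b.1 * (X' j.2 b.2 : L)) = MonoidAlgebra.single (s * t) _
    rw [MonoidAlgebra.single_mul_single]
    congr 1
    ring
  rw [Finset.sum_congr rfl fun j _ => h1 j, ← map_sum]
  change MonoidAlgebra.single (s * t) _ = MonoidAlgebra.single (s * t) ((Y * Y') a.1 b.1 *
    (((X * X') a.2 b.2 : ℤ) : L))
  congr 1
  rw [Fintype.sum_prod_type, Matrix.mul_apply, Matrix.mul_apply, Int.cast_sum,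
    Finset.sum_mul_sum]
  refine Finset.sum_congr rfl fun i _ => Finset.sum_congr rfl fun c _ => ?_
  rw [Int.cast_mul]

theorem Tf_add (P : G → Matrix C C' ℤ) (X X' : Matrix n m (MonoidAlgebra L G)) :
    Tf P (X + X') = Tf P X + Tf P X' := Matrix.ext fun _ _ => wm_add _ _ _

theorem Tf_zero (P : G → Matrix C C' ℤ) : Tf P (0 : Matrix n m (MonoidAlgebra L G)) = 0 :=
  Matrix.ext fun _ _ => wm_zero _

theorem Tf_sum {I : Type} (P : G → Matrix C C' ℤ) (s : Finset I)
    (X : I → Matrix n m (MonoidAlgebra L G)) :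
    Tf P (∑ i ∈ s, X i) = ∑ i ∈ s, Tf P (X i) :=
  map_sum (⟨⟨Tf P, Tf_zero P⟩, Tf_add P⟩ :
    Matrix n m (MonoidAlgebra L G) →+ Matrix (n × C) (m × C') (MonoidAlgebra L G)) X s

theorem Tf_single (P : G → Matrix C C' ℤ) (s : G) (Y : Matrix n m L) :
    Tf P (Y.map (MonoidAlgebra.single s)) = sgk s Y (P s) :=
  Matrix.ext fun _ _ => wm_single _ _ _

theorem coeff_finsum {I : Type} (s : Finset I) (f : I → MonoidAlgebra L G) (g : G) :
    (∑ i ∈ s, f i).coeff g = ∑ i ∈ s, (f i).coeff g := by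
  have h1 : (∑ j ∈ s, f j).coeff = ∑ j ∈ s, (f j).coeff :=
    map_sum (MonoidAlgebra.coeffAddEquiv (R := L) (M := G)) f s
  rw [h1, Finsupp.finsetSum_apply]

/-- Decomposition of a matrix. -/
theorem dec_sum (S : Finset G) (X : Matrix n m (MonoidAlgebra L G))
    (hX : ∀ i j g, (X i j).coeff g ≠ 0 → g ∈ S) :
    X = ∑ s ∈ S, (cfm X s).map (MonoidAlgebra.single s) := by
  classical
  refine Matrix.ext fun i j => ?_
  apply MonoidAlgebra.coeff_injective
  ext g
  rw [Matrix.sum_apply, coeff_finsum]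
  have h1 : ∀ s ∈ S, ((cfm X s).map (MonoidAlgebra.single s) i j).coeff g =
      if s = g then (X i j).coeff s else 0 := by
    intro s _
    change (MonoidAlgebra.single s ((X i j).coeff s)).coeff g = _
    rw [MonoidAlgebra.coeff_single, Finsupp.single_apply]
  rw [Finset.sum_congr rfl h1, Finset.sum_ite_eq']
  by_cases h : g ∈ S
  · rw [if_pos h]
  · rw [if_neg h]
    by_contra h'
    exact h (hX i j g h')

theorem Tf_dec (S : Finset G) (P : G → Matrix C C' ℤ) (X : Matrix n m (MonoidAlgebra L G))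
    (hX : ∀ i j g, (X i j).coeff g ≠ 0 → g ∈ S) :
    Tf P X = ∑ s ∈ S, sgk s (cfm X s) (P s) := by
  conv_lhs => rw [dec_sum S X hX]
  rw [Tf_sum]
  exact Finset.sum_congr rfl fun s _ => Tf_single P s _

variable [Group G]

theorem mul_dec [Fintype m] (S : Finset G) (X : Matrix n m (MonoidAlgebra L G))
    (Y : Matrix m l (MonoidAlgebra L G)) (hX : ∀ i j g, (X i j).coeff g ≠ 0 → g ∈ S)
    (hY : ∀ i j g, (Y i j).coeff g ≠ 0 → g ∈ S) :
    X * Y = ∑ s ∈ S, ∑ t ∈ S, (cfm X s * cfm Y t).map (MonoidAlgebra.single (s * t)) := by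
  conv_lhs => rw [dec_sum S X hX, dec_sum S Y hY, Matrix.sum_mul]
  refine Finset.sum_congr rfl fun s _ => ?_
  rw [Matrix.mul_sum]
  refine Finset.sum_congr rfl fun t _ => ?_
  refine Matrix.ext fun i j => ?_
  rw [Matrix.mul_apply]
  have h1 : ∀ k : m, (cfm X s).map (MonoidAlgebra.single s) i k *
      (cfm Y t).map (MonoidAlgebra.single t) k j =
      MonoidAlgebra.singleAddHom (R := L) (M := G) (s * t) (cfm X s i k * cfm Y t k j) := by
    intro k
    change MonoidAlgebra.single s _ * MonoidAlgebra.single t _ = MonoidAlgebra.single (s * t) _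
    rw [MonoidAlgebra.single_mul_single]
  rw [Finset.sum_congr rfl fun k _ => h1 k, ← map_sum]
  rfl

/-- The homotopy between `T(X) T(Y)` and `T(X Y)`. -/
noncomputable def hmt (S : Finset G) (H : G → G → Matrix C C' ℤ) [Fintype m]
    (X : Matrix n m (MonoidAlgebra L G)) (Y : Matrix m l (MonoidAlgebra L G)) :
    Matrix (n × C) (l × C') (MonoidAlgebra L G) :=
  ∑ s ∈ S, ∑ t ∈ S, sgk (s * t) (cfm X s * cfm Y t) (H s t)

/-- Constant matrices. -/
noncomputable def cst (L G n : Type) [CommRing L] [Group G] [DecidableEq n] {C C' : Type}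
    (X : Matrix C C' ℤ) : Matrix (n × C) (n × C') (MonoidAlgebra L G) :=
  sgk (1 : G) (1 : Matrix n n L) X

section Cst

variable [Fintype n] [DecidableEq n]

theorem cst_mul [Fintype C'] (X : Matrix C C' ℤ) (Y : Matrix C' C'' ℤ) :
    cst L G n X * cst L G n Y = cst L G n (X * Y) := by
  unfold cst
  rw [sgk_mul, one_mul, Matrix.one_mul]

omit [Fintype n] in
theorem cst_add (X Y : Matrix C C' ℤ) : cst L G n (X + Y) = cst L G n X + cst L G n Y :=
  sgk_add _ _ _ _

omit [Fintype n] in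
theorem cst_zero : cst L G n (0 : Matrix C C' ℤ) = 0 := by
  refine Matrix.ext fun a b => ?_
  change MonoidAlgebra.single (1 : G) ((1 : Matrix n n L) a.1 b.1 * ((0 : ℤ) : L)) = 0
  rw [Int.cast_zero, mul_zero, MonoidAlgebra.single_zero]

omit [Fintype n] in
theorem cst_sub (X Y : Matrix C C' ℤ) : cst L G n (X - Y) = cst L G n X - cst L G n Y := by
  rw [eq_sub_iff_add_eq, ← cst_add, sub_add_cancel]

omit [Fintype n] in
theorem cst_one [DecidableEq C] : cst L G n (1 : Matrix C C ℤ) = 1 := by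
  refine Matrix.ext fun a b => ?_
  change MonoidAlgebra.single (1 : G) ((1 : Matrix n n L) a.1 b.1 *
    (((1 : Matrix C C ℤ) a.2 b.2 : ℤ) : L)) = _
  rw [Matrix.one_apply, Matrix.one_apply, Matrix.one_apply]
  by_cases h1 : a.1 = b.1
  · by_cases h2 : a.2 = b.2
    · rw [if_pos h1, if_pos h2, if_pos (Prod.ext h1 h2), Int.cast_one, mul_one,
        MonoidAlgebra.one_def]
    · rw [if_neg h2, if_neg fun h => h2 (congrArg Prod.snd h), Int.cast_zero, mul_zero,
        MonoidAlgebra.single_zero]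
  · rw [if_neg h1, if_neg fun h => h1 (congrArg Prod.fst h), zero_mul,
      MonoidAlgebra.single_zero]

theorem cst_sgk [Fintype C'] {l : Type} (X : Matrix C C' ℤ) (s : G) (Y : Matrix n l L)
    (X' : Matrix C' C'' ℤ) : cst L G n X * sgk s Y X' = sgk s Y (X * X') := by
  unfold cst
  rw [sgk_mul, one_mul, Matrix.one_mul]

theorem sgk_cst [Fintype C'] {l : Type} (X' : Matrix C' C'' ℤ) (s : G) (Y : Matrix l n L)
    (X : Matrix C C' ℤ) : sgk s Y X * cst L G n X' = sgk s Y (X * X') := by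
  unfold cst
  rw [sgk_mul, mul_one, Matrix.mul_one]

/-- Multiplicativity up to homotopy. -/
theorem Tf_mul [Fintype C] [DecidableEq C] (S : Finset G) (M : G → Matrix C C ℤ)
    (d : Matrix C C ℤ) (H : G → G → Matrix C C ℤ)
    (hM : ∀ s ∈ S, ∀ t ∈ S, M s * M t - M (s * t) = d * H s t + H s t * d)
    (X Y : Matrix n n (MonoidAlgebra L G)) (hX : ∀ i j g, (X i j).coeff g ≠ 0 → g ∈ S)
    (hY : ∀ i j g, (Y i j).coeff g ≠ 0 → g ∈ S) :
    Tf M X * Tf M Y = Tf M (X * Y) + (cst L G n d * hmt S H X Y + hmt S H X Y * cst L G n d) := by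
  rw [mul_dec S X Y hX hY, Tf_sum, Tf_dec S M X hX, Tf_dec S M Y hY, Finset.sum_mul, hmt,
    Finset.mul_sum, Finset.sum_mul, ← Finset.sum_add_distrib, ← Finset.sum_add_distrib]
  refine Finset.sum_congr rfl fun s hs => ?_
  rw [Finset.mul_sum, Tf_sum, Finset.mul_sum, Finset.sum_mul, ← Finset.sum_add_distrib,
    ← Finset.sum_add_distrib]
  refine Finset.sum_congr rfl fun t ht => ?_
  rw [sgk_mul, Tf_single, cst_sgk, sgk_cst, ← sgk_add, ← sgk_add, ← hM s hs t ht,
    add_sub_cancel]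

/-- Commutation with constant matrices. -/
theorem Tf_cst [Fintype C] [Fintype C'] (S : Finset G) (M : G → Matrix C C ℤ)
    (M' : G → Matrix C' C' ℤ) (e : Matrix C C' ℤ) (hM : ∀ s, M s * e = e * M' s)
    (X : Matrix n n (MonoidAlgebra L G)) (hX : ∀ i j g, (X i j).coeff g ≠ 0 → g ∈ S) :
    Tf M X * cst L G n e = cst L G n e * Tf M' X := by
  rw [Tf_dec S M X hX, Tf_dec S M' X hX, Matrix.sum_mul, Matrix.mul_sum]
  refine Finset.sum_congr rfl fun s _ => ?_
  rw [sgk_cst, cst_sgk, hM]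

omit [Fintype n] in
theorem Tf_one (M : G → Matrix C C' ℤ) :
    Tf M (1 : Matrix n n (MonoidAlgebra L G)) = cst L G n (M 1) := by
  have h1 : (1 : Matrix n n (MonoidAlgebra L G)) =
      (1 : Matrix n n L).map (MonoidAlgebra.single 1) :=
    (Matrix.map_one _ (MonoidAlgebra.single_zero _) rfl).symm
  rw [h1, Tf_single]
  rfl

end Cst

section Sup

variable {X : Type} [MulAction G X]

theorem supR_Tf {E : X → X → Prop} {p : C → X} {q : C' → X} (P : G → Matrix C C' ℤ)
    (S : Set G) (A : Matrix n m (MonoidAlgebra L G)) (hA : ∀ i j g, (A i j).coeff g ≠ 0 → g ∈ S)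
    (hP : ∀ g ∈ S, ∀ c c', P g c c' ≠ 0 → E (p c) (g • q c')) :
    SupR E (fun i : n × C => p i.2) (fun i : m × C' => q i.2) (Tf P A) := by
  intro a b γ h
  have h1 : (A a.1 b.1).coeff γ * (P γ a.2 b.2 : L) ≠ 0 := h
  refine hP γ (hA _ _ _ (left_ne_zero_of_mul h1)) _ _ fun h2 => ?_
  rw [h2, Int.cast_zero, mul_zero] at h1
  exact h1 rfl

theorem supR_sgk {E : X → X → Prop} {p : C → X} {q : C' → X} (s : G) (Y : Matrix n m L)
    (P : Matrix C C' ℤ) (hP : ∀ c c', P c c' ≠ 0 → E (p c) (s • q c')) :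
    SupR E (fun i : n × C => p i.2) (fun i : m × C' => q i.2) (sgk s Y P) := by
  classical
  intro a b γ h
  have h1 : (MonoidAlgebra.single s (Y a.1 b.1 * (P a.2 b.2 : L))).coeff γ ≠ 0 := h
  rw [MonoidAlgebra.coeff_single, Finsupp.single_apply] at h1
  by_cases h2 : s = γ
  · rw [if_pos h2] at h1
    rw [← h2]
    refine hP _ _ fun h3 => h1 ?_
    rw [h3, Int.cast_zero, mul_zero]
  · rw [if_neg h2] at h1
    exact absurd rfl h1

end Sup

section Dg

/-- Degrees. -/
theorem deg_sgk {dC : C → ℕ} {dC' : C' → ℕ} {k : ℤ} (s : G) (Y : Matrix n m L)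
    (P : Matrix C C' ℤ) (hP : Deg dC dC' k P) :
    Deg (fun i : n × C => dC i.2) (fun i : m × C' => dC' i.2) k (sgk s Y P) := by
  intro a b h
  refine hP _ _ fun h3 => h ?_
  change MonoidAlgebra.single s (Y a.1 b.1 * (P a.2 b.2 : L)) = 0
  rw [h3, Int.cast_zero, mul_zero, MonoidAlgebra.single_zero]

theorem deg_Tf {dC : C → ℕ} {dC' : C' → ℕ} {k : ℤ} (P : G → Matrix C C' ℤ)
    (hP : ∀ g, Deg dC dC' k (P g)) (A : Matrix n m (MonoidAlgebra L G)) :
    Deg (fun i : n × C => dC i.2) (fun i : m × C' => dC' i.2) k (Tf P A) := by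
  intro a b h
  by_contra h1
  apply h
  apply MonoidAlgebra.coeff_injective
  ext g
  change (A a.1 b.1).coeff g * (P g a.2 b.2 : L) = 0
  have h2 : P g a.2 b.2 = 0 := by
    by_contra h3
    exact h1 (hP g _ _ h3)
  rw [h2, Int.cast_zero, mul_zero]

theorem deg_sum {I A B Λ : Type} [Ring Λ] {dA : A → ℕ} {dB : B → ℕ} {k : ℤ} (s : Finset I)
    (f : I → Matrix A B Λ) (h : ∀ i ∈ s, Deg dA dB k (f i)) : Deg dA dB k (∑ i ∈ s, f i) := by
  classical
  induction s using Finset.induction_on with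
  | empty =>
    rw [Finset.sum_empty]
    exact Deg.zero
  | insert a s ha ih =>
    rw [Finset.sum_insert ha]
    exact (h a (Finset.mem_insert_self a s)).add
      (ih fun i hi => h i (Finset.mem_insert_of_mem hi))

end Dg

end Tr

end Pool.Agent.ZT1
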