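import Pool.Agent.Lib.MP_8f66f0_al_FH.CBasic
import Pool.Agent.Lib.MP_8f66f0_al_Wald.K1Lem

/-! Project ZERO, part T1 (A): homogeneous matrices, unipotent matrices. -/

set_option autoImplicit false

namespace Pool.Agent.ZT1

open Pool.Agent.Wald Pool.Agent.FH

section Deg

variable {Λ : Type} [Ring Λ] {I J M : Type}

/-- Homogeneous matrices of degree `k`. -/
def Deg (δ : I → ℕ) (δ' : J → ℕ) (k : ℤ) (X : Matrix I J Λ) : Prop :=
  ∀ i j, X i j ≠ 0 → (δ' j : ℤ) = δ i + k

variable {δ : I → ℕ} {δ' : J → ℕ} {δ'' : M → ℕ} {k l : ℤ}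

theorem Deg.add {X Y : Matrix I J Λ} (hX : Deg δ δ' k X) (hY : Deg δ δ' k Y) :
    Deg δ δ' k (X + Y) := by
  intro i j h
  by_cases h' : X i j = 0
  · refine hY i j fun h'' => h ?_
    rw [Matrix.add_apply, h', h'', add_zero]
  · exact hX i j h'

theorem Deg.neg {X : Matrix I J Λ} (hX : Deg δ δ' k X) : Deg δ δ' k (-X) := by
  intro i j h
  refine hX i j fun h' => h ?_
  rw [Matrix.neg_apply, h', neg_zero]

theorem Deg.sub {X Y : Matrix I J Λ} (hX : Deg δ δ' k X) (hY : Deg δ δ' k Y) :
    Deg δ δ' k (X - Y) := by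
  rw [sub_eq_add_neg]
  exact hX.add hY.neg

theorem Deg.zero : Deg δ δ' k (0 : Matrix I J Λ) := fun _ _ h => absurd rfl h

theorem Deg.one [DecidableEq I] : Deg δ δ 0 (1 : Matrix I I Λ) := by
  intro i j h
  rw [Matrix.one_apply] at h
  by_cases h' : i = j
  · rw [h', add_zero]
  · rw [if_neg h'] at h
    exact absurd rfl h

theorem Deg.mul [Fintype J] {X : Matrix I J Λ} {Y : Matrix J M Λ} (hX : Deg δ δ' k X)
    (hY : Deg δ' δ'' l Y) : Deg δ δ'' (k + l) (X * Y) := by
  intro i j h
  rw [Matrix.mul_apply] at h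
  obtain ⟨a, -, ha⟩ := Finset.exists_ne_zero_of_sum_ne_zero h
  have h1 := hX i a (left_ne_zero_of_mul ha)
  have h2 := hY a j (right_ne_zero_of_mul ha)
  rw [h2, h1, add_assoc]

theorem Deg.cast {X : Matrix I J Λ} (h : k = l) (hX : Deg δ δ' k X) : Deg δ δ' l X := h ▸ hX

theorem Deg.submatrix {I' J' : Type} {X : Matrix I J Λ} (hX : Deg δ δ' k X) (f : I' → I)
    (g : J' → J) : Deg (fun i => δ (f i)) (fun j => δ' (g j)) k (X.submatrix f g) :=
  fun i j h => hX (f i) (g j) h

end Deg

section Uni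

variable {Λ : Type} [Ring Λ]

/-- Unipotent matrices are killed by invariants of type `K_1`. -/
theorem uni {K : Type} [CommGroup K] (κ : K1Fun Λ K) (N : ℕ) :
    ∀ (m : Type) [Fintype m] [DecidableEq m] (δ : m → ℕ) (X : Matrix m m Λ), (∀ i, δ i ≤ N) →
      (∀ i j, X i j ≠ 0 → δ i < δ j) → IsUnit (1 + X) ∧ κ.f (1 + X) = 1 := by
  induction N with
  | zero =>
    intro m _ _ δ X hδ hX
    have h0 : X = 0 := by
      refine Matrix.ext fun i j => ?_
      by_contra h
      have h1 := hX i j h
      have h2 := hδ j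
      omega
    rw [h0, add_zero]
    exact ⟨isUnit_one, κ.f_one⟩
  | succ N ih =>
    intro m _ _ δ X hδ hX
    set e : {i // δ i ≤ N} ⊕ {i // ¬ δ i ≤ N} ≃ m := Equiv.sumCompl (fun i => δ i ≤ N) with he
    obtain ⟨h1, h2⟩ := ih {i // δ i ≤ N} (fun i => δ i) (X.submatrix Subtype.val Subtype.val)
      (fun i => i.2) (fun i j h => hX i j h)
    have h3 : (1 + X).submatrix e e = Matrix.fromBlocks
        (1 + X.submatrix (Subtype.val : {i // δ i ≤ N} → m) Subtype.val)
        (X.submatrix (Subtype.val : {i // δ i ≤ N} → m) (Subtype.val : {i // ¬ δ i ≤ N} → m))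
        0 1 := by
      refine Matrix.ext fun i j => ?_
      rcases i with ⟨i, hi⟩ | ⟨i, hi⟩ <;> rcases j with ⟨j, hj⟩ | ⟨j, hj⟩
      · change (1 : Matrix m m Λ) i j + X i j =
          (1 : Matrix {i // δ i ≤ N} {i // δ i ≤ N} Λ) ⟨i, hi⟩ ⟨j, hj⟩ + X i j
        rw [Matrix.one_apply, Matrix.one_apply]
        congr 1
        by_cases hij : i = j
        · subst hij
          rw [if_pos rfl, if_pos rfl]
        · rw [if_neg hij, if_neg fun h => hij (congrArg Subtype.val h)]
      · change (1 : Matrix m m Λ) i j + X i j = X i j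
        have h4 : i ≠ j := fun h => hj (h ▸ hi)
        rw [Matrix.one_apply_ne h4, zero_add]
      · change (1 : Matrix m m Λ) i j + X i j = 0
        have h4 : i ≠ j := fun h => hi (h ▸ hj)
        rw [Matrix.one_apply_ne h4, zero_add]
        by_contra h
        have h4 := hX i j h
        omega
      · change (1 : Matrix m m Λ) i j + X i j =
          (1 : Matrix {i // ¬ δ i ≤ N} {i // ¬ δ i ≤ N} Λ) ⟨i, hi⟩ ⟨j, hj⟩
        have h4 : X i j = 0 := by
          by_contra h
          have h5 := hX i j h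
          have h6 := hδ j
          omega
        rw [h4, add_zero, Matrix.one_apply, Matrix.one_apply]
        by_cases hij : i = j
        · subst hij
          rw [if_pos rfl, if_pos rfl]
        · rw [if_neg hij, if_neg fun h => hij (congrArg Subtype.val h)]
    have h4 : IsUnit ((1 + X).submatrix e e) := by
      rw [h3]
      exact K1Fun.isUnit_tri _ h1 isUnit_one
    have h5 := K1Fun.isUnit_submatrix e h4
    have h6 := κ.reindex e _ h4
    rw [Matrix.submatrix_submatrix, Equiv.self_comp_symm, Matrix.submatrix_id_id] at h5 h6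
    refine ⟨h5, ?_⟩
    rw [h6, h3, κ.tri _ _ _ h1 isUnit_one, h2, κ.f_one, one_mul]

/-- Powers of matrices which raise the degree. -/
theorem pow_deg {m : Type} [Fintype m] [DecidableEq m] (δ : m → ℕ) (X : Matrix m m Λ)
    (hX : ∀ i j, X i j ≠ 0 → δ i < δ j) (n : ℕ) : ∀ i j, (X ^ n) i j ≠ 0 → δ i + n ≤ δ j := by
  induction n with
  | zero =>
    intro i j h
    rw [pow_zero, Matrix.one_apply] at h
    by_cases hij : i = j
    · rw [hij, add_zero]
    · rw [if_neg hij] at h
      exact absurd rfl h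
  | succ n ih =>
    intro i j h
    rw [pow_succ, Matrix.mul_apply] at h
    obtain ⟨a, -, ha⟩ := Finset.exists_ne_zero_of_sum_ne_zero h
    have h1 := ih i a (left_ne_zero_of_mul ha)
    have h2 := hX a j (right_ne_zero_of_mul ha)
    omega

theorem pow_zero_deg {m : Type} [Fintype m] [DecidableEq m] (δ : m → ℕ) (N : ℕ)
    (X : Matrix m m Λ) (hδ : ∀ i, δ i ≤ N) (hX : ∀ i j, X i j ≠ 0 → δ i < δ j) :
    X ^ (N + 1) = 0 := by
  refine Matrix.ext fun i j => ?_
  by_contra h
  have h1 := pow_deg δ X hX (N + 1) i j h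
  have h2 := hδ j
  omega

/-- The inverse of `1 + X` as a geometric series. -/
theorem geo_inv {E : Type} [Ring E] (X : E) (n : ℕ) (h : X ^ n = 0) :
    (1 + X) * ∑ j ∈ Finset.range n, (-X) ^ j = 1 := by
  have h1 := mul_neg_geom_sum (-X) n
  rw [sub_neg_eq_add, neg_pow, h, mul_zero, sub_zero] at h1
  exact h1

end Uni

section Sup

variable {G X : Type} [Group G] [MulAction G X] {L : Type} [CommRing L]

theorem supR_sum {n m I : Type} {E : X → X → Prop} {p : n → X} {q : m → X} (s : Finset I)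
    (f : I → Matrix n m (MonoidAlgebra L G)) (h : ∀ i ∈ s, SupR E p q (f i)) :
    SupR E p q (∑ i ∈ s, f i) := by
  classical
  induction s using Finset.induction_on with
  | empty =>
    rw [Finset.sum_empty]
    exact SupR.zero
  | insert a s ha ih =>
    rw [Finset.sum_insert ha]
    exact (h a (Finset.mem_insert_self a s)).add
      (ih fun i hi => h i (Finset.mem_insert_of_mem hi))

theorem supR_pow {n : Type} [Fintype n] [DecidableEq n] {N : Met G X} {t : ℕ} {p : n → X}
    {a : Matrix n n (MonoidAlgebra L G)} (h : SupR (N.near t) p p a) (j : ℕ) :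
    SupR (N.near (j * t)) p p (a ^ j) := by
  induction j with
  | zero =>
    rw [pow_zero]
    exact SupR.one fun x => N.refl _ x
  | succ j ih =>
    rw [pow_succ, Nat.succ_mul]
    exact ih.near_mul h

end Sup

end Pool.Agent.ZT1
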